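import Pool.Agent.Berry.Defs

/-!
# Berry triangulations: adjacent supporting tetrahedra
-/

set_option autoImplicit false

namespace Pool.Agent.Berry

open Filter Topology

variable {ι : Type} [DecidableEq ι]

namespace Adj

/-- `p ↦ det3 (b - p) (c - p) (d - p)` is affine. -/
theorem exists_n (b c d : E) : ∃ (κ : ℝ) (w : E), ∀ p : E,
    det3 (b - p) (c - p) (d - p) = κ + inner ℝ w p := by
  refine ⟨det3 b c d, !₂[-(b 1 * c 2 - b 2 * c 1) - (c 1 * d 2 - c 2 * d 1) - (d 1 * b 2 - d 2 * b 1),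
    -(b 2 * c 0 - b 0 * c 2) - (c 2 * d 0 - c 0 * d 2) - (d 2 * b 0 - d 0 * b 2),
    -(b 0 * c 1 - b 1 * c 0) - (c 0 * d 1 - c 1 * d 0) - (d 0 * b 1 - d 1 * b 0)], fun p => ?_⟩
  simp only [det3, PiLp.inner_apply, Fin.sum_univ_three, PiLp.sub_apply, RCLike.inner_apply,
    conj_trivial, Matrix.cons_val_zero, Matrix.cons_val_one, Matrix.cons_val]
  ring

theorem inner_eq (v p : E) : inner ℝ v p = v 0 * p 0 + v 1 * p 1 + v 2 * p 2 := by
  simp only [PiLp.inner_apply, Fin.sum_univ_three, RCLike.inner_apply, conj_trivial]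
  ring

/-- an affine function vanishing at `b`, `c`, `d` is proportional to `det3 (b - p) (c - p) (d - p)` -/
theorem prop_n {α : ℝ} {v a b c d : E} (hb : α + inner ℝ v b = 0) (hc : α + inner ℝ v c = 0)
    (hd : α + inner ℝ v d = 0) (p : E) :
    (α + inner ℝ v p) * det3 (b - a) (c - a) (d - a) =
      (α + inner ℝ v a) * det3 (b - p) (c - p) (d - p) := by
  rw [inner_eq] at hb hc hd
  rw [inner_eq, inner_eq]
  have key : (α + (v 0 * p 0 + v 1 * p 1 + v 2 * p 2)) * det3 (b - a) (c - a) (d - a) -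
      (α + (v 0 * a 0 + v 1 * a 1 + v 2 * a 2)) * det3 (b - p) (c - p) (d - p) =
      det3 (p - a) (c - a) (d - a) * (α + (v 0 * b 0 + v 1 * b 1 + v 2 * b 2)) +
      det3 (b - a) (p - a) (d - a) * (α + (v 0 * c 0 + v 1 * c 1 + v 2 * c 2)) +
      det3 (b - a) (c - a) (p - a) * (α + (v 0 * d 0 + v 1 * d 1 + v 2 * d 2)) := by
    simp only [det3, PiLp.sub_apply]
    ring
  rw [hb, hc, hd] at key
  linarith

end Adj

omit [DecidableEq ι] in
/-- the affine function `n`, vanishing at `x b`, `x c`, `x d` and equal to `vol x a b c d` at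
`x a` -/
theorem Adj.exists_nx (x : ι → E) (b c d : ι) : ∃ (κ : ℝ) (w : E), (∀ a : ι,
    κ + inner ℝ w (x a) = vol x a b c d) ∧ κ + inner ℝ w (x b) = 0 ∧ κ + inner ℝ w (x c) = 0 ∧
      κ + inner ℝ w (x d) = 0 := by
  obtain ⟨κ, w, h⟩ := Adj.exists_n (x b) (x c) (x d)
  refine ⟨κ, w, fun a => (h (x a)).symm, ?_, ?_, ?_⟩
  · rw [← h]; simp only [det3, PiLp.sub_apply]; ring
  · rw [← h]; simp only [det3, PiLp.sub_apply]; ring
  · rw [← h]; simp only [det3, PiLp.sub_apply]; ring

theorem adj_exists [Finite ι] {x : ι → E} {t : ι → ℝ} (hg : Generic x t) {b c d : ι}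
    (hs : SuppOn x t {b, c, d}) (hv : ∃ e, 0 < vol x e b c d) :
    ∃ a, 0 < vol x a b c d ∧ SuppOn x t {a, b, c, d} := by
  classical
  obtain ⟨κ, w, hn, hnb, hnc, hnd⟩ := Adj.exists_nx x b c d
  obtain ⟨α, v, h1, h2⟩ := hs
  have hbcd : ∀ e, 0 < vol x e b c d → e ∉ ({b, c, d} : Finset ι) := by
    intro e he hmem
    simp only [Finset.mem_insert, Finset.mem_singleton] at hmem
    rw [← hn e] at he
    rcases hmem with rfl | rfl | rfl <;> linarith
  have hfin : {e : ι | 0 < vol x e b c d}.Finite := Set.toFinite _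
  obtain ⟨a, ha, hmin⟩ := hfin.exists_minimalFor
    (fun e => (α + inner ℝ v (x e) - t e) / vol x e b c d) _ hv
  have ha' : 0 < vol x a b c d := ha
  set s : ℝ := (α + inner ℝ v (x a) - t a) / vol x a b c d with hsdef
  have hs0 : 0 < s := div_pos (by have := h2 a (hbcd a ha'); linarith) ha'
  have hsa : s * vol x a b c d = α + inner ℝ v (x a) - t a := by
    rw [hsdef]; field_simp
  have hle : ∀ e, 0 < vol x e b c d → s * vol x e b c d ≤ α + inner ℝ v (x e) - t e := by
    intro e he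
    have h3 : s ≤ (α + inner ℝ v (x e) - t e) / vol x e b c d := by
      by_contra hcon
      exact hcon (hmin he (le_of_lt (not_le.1 hcon)))
    rwa [le_div_iff₀ he] at h3
  have hval : ∀ e, (α - s * κ) + inner ℝ (v - s • w) (x e) =
      (α + inner ℝ v (x e)) - s * vol x e b c d := by
    intro e
    rw [inner_sub_left, real_inner_smul_left, ← hn e]
    ring
  have hzero : ∀ i ∈ ({b, c, d} : Finset ι), vol x i b c d = 0 := by
    intro i hi
    simp only [Finset.mem_insert, Finset.mem_singleton] at hi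
    rw [← hn i]
    rcases hi with rfl | rfl | rfl <;> assumption
  have hon : ∀ i ∈ ({a, b, c, d} : Finset ι), (α - s * κ) + inner ℝ (v - s • w) (x i) = t i := by
    intro i hi
    rw [hval i]
    rcases Finset.mem_insert.1 hi with rfl | hi
    · rw [hsa]; ring
    · rw [hzero i hi, h1 i hi]; ring
  refine ⟨a, ha', α - s * κ, v - s • w, hon, fun l hl => ?_⟩
  have hl' : l ∉ ({b, c, d} : Finset ι) := fun h => hl (Finset.mem_insert_of_mem h)
  have hne := hg a b c d l ha'.ne' (by rintro rfl; simp at hl) (by rintro rfl; simp at hl)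
    (by rintro rfl; simp at hl) (by rintro rfl; simp at hl) _ _ hon
  refine lt_of_le_of_ne ?_ (Ne.symm hne)
  rw [hval l]
  rcases lt_or_ge 0 (vol x l b c d) with h3 | h3
  · linarith [hle l h3]
  · have h4 := h2 l hl'
    nlinarith

theorem adj_unique {x : ι → E} {t : ι → ℝ} {a a' b c d : ι}
    (h1 : 0 < vol x a b c d) (h2 : 0 < vol x a' b c d)
    (s1 : SuppOn x t {a, b, c, d}) (s2 : SuppOn x t {a', b, c, d}) : a = a' := by
  by_contra hne
  obtain ⟨α₁, v₁, e1, g1⟩ := s1
  obtain ⟨α₂, v₂, e2, g2⟩ := s2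
  obtain ⟨κ, w, hn, hnb, hnc, hnd⟩ := Adj.exists_nx x b c d
  have hbcd : ∀ e, 0 < vol x e b c d → e ≠ b ∧ e ≠ c ∧ e ≠ d := by
    intro e he
    rw [← hn e] at he
    refine ⟨?_, ?_, ?_⟩ <;> rintro rfl <;> linarith
  have hval : ∀ e, (α₁ - α₂) + inner ℝ (v₁ - v₂) (x e) =
      (α₁ + inner ℝ v₁ (x e)) - (α₂ + inner ℝ v₂ (x e)) := by
    intro e; rw [inner_sub_left]; ring
  have hb := hval b
  have hc := hval c
  have hd := hval d
  rw [e1 b (by simp), e2 b (by simp), sub_self] at hb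
  rw [e1 c (by simp), e2 c (by simp), sub_self] at hc
  rw [e1 d (by simp), e2 d (by simp), sub_self] at hd
  have key := Adj.prop_n (a := x a) hb hc hd (x a')
  rw [hval a, hval a', e1 a (by simp), e2 a' (by simp)] at key
  have h3 := g2 a (by
    obtain ⟨q1, q2, q3⟩ := hbcd a h1
    simp [hne, q1, q2, q3])
  have h4 := g1 a' (by
    obtain ⟨q1, q2, q3⟩ := hbcd a' h2
    simp [Ne.symm hne, q1, q2, q3])
  have h5 : 0 < (α₁ + inner ℝ v₁ (x a') - t a') * det3 (x b - x a) (x c - x a) (x d - x a) :=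
    mul_pos (by linarith) h1
  have h6 : (t a - (α₂ + inner ℝ v₂ (x a))) * det3 (x b - x a') (x c - x a') (x d - x a') < 0 :=
    mul_neg_of_neg_of_pos (by linarith) h2
  linarith

theorem suppOn_face [Finite ι] {x : ι → E} {t : ι → ℝ} {a b c d : ι} (hv : vol x a b c d ≠ 0)
    (hs : SuppOn x t {a, b, c, d}) : SuppOn x t {b, c, d} := by
  obtain ⟨κ, w, hn, hnb, hnc, hnd⟩ := Adj.exists_nx x b c d
  obtain ⟨α, v, h1, h2⟩ := hs
  have hex : ∀ᶠ ε : ℝ in 𝓝[>] 0, ∀ l, l ∉ ({a, b, c, d} : Finset ι) →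
      t l < α + inner ℝ v (x l) + ε * (vol x l b c d / vol x a b c d) := by
    rw [eventually_all]
    intro l
    by_cases hl : l ∈ ({a, b, c, d} : Finset ι)
    · exact Eventually.of_forall fun _ h => absurd hl h
    · have hcont : Tendsto (fun ε : ℝ => α + inner ℝ v (x l) + ε * (vol x l b c d / vol x a b c d))
          (𝓝[>] 0) (𝓝 (α + inner ℝ v (x l) + 0 * (vol x l b c d / vol x a b c d))) := by
        apply Tendsto.mono_left _ nhdsWithin_le_nhds
        exact (Continuous.tendsto (by fun_prop) 0)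
      have := hcont.eventually_const_lt (u := t l) (by rw [zero_mul, add_zero]; exact h2 l hl)
      exact this.mono fun _ h _ => h
  obtain ⟨ε, hε, hε0⟩ := (hex.and self_mem_nhdsWithin).exists
  have hε0' : 0 < ε := hε0
  have hval : ∀ e, (α + ε / vol x a b c d * κ) + inner ℝ (v + (ε / vol x a b c d) • w) (x e) =
      (α + inner ℝ v (x e)) + ε * (vol x e b c d / vol x a b c d) := by
    intro e
    rw [inner_add_left, real_inner_smul_left, ← hn e]
    ring
  have hzero : ∀ i ∈ ({b, c, d} : Finset ι), vol x i b c d = 0 := by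
    intro i hi
    simp only [Finset.mem_insert, Finset.mem_singleton] at hi
    rw [← hn i]
    rcases hi with rfl | rfl | rfl <;> assumption
  refine ⟨α + ε / vol x a b c d * κ, v + (ε / vol x a b c d) • w, fun i hi => ?_, fun l hl => ?_⟩
  · rw [hval i, hzero i hi, h1 i (Finset.mem_insert_of_mem hi)]; simp
  · rw [hval l]
    by_cases hla : l = a
    · subst hla
      rw [h1 l (by simp), div_self hv]; linarith
    · exact hε l (by
        simp only [Finset.mem_insert, not_or] at hl ⊢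
        exact ⟨hla, hl⟩)

end Pool.Agent.Berry
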