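import Pool.Agent.Berry.Defs

set_option autoImplicit false

namespace Pool.Agent.Berry

open Filter Topology

variable {ι : Type} [DecidableEq ι]

namespace Conn

/-- uniqueness of coefficients with respect to a face -/
theorem coef_zero {F : Set (Finset ι)} {x : ι → E} (h : IsTri F x) {f : Finset ι} (hf : f ∈ F)
    {c : ι → ℝ} (hc : ∑ i ∈ f, c i • x i = 0) : ∀ i ∈ f, c i = 0 := by
  have h1 := Fintype.linearIndependent_iff.1 (h.indep f hf) (fun i => c i) (by
    rw [← hc]
    exact Finset.sum_coe_sort f (fun i => c i • x i))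
  intro i hi
  exact h1 ⟨i, hi⟩

theorem card_eq_finrank {F : Set (Finset ι)} {x : ι → E} (h : IsTri F x) {f : Finset ι}
    (hf : f ∈ F) : Fintype.card f = Module.finrank ℝ E := by
  rw [Fintype.card_coe, h.card f hf, finrank_euclideanSpace_fin]

/-- coordinates with respect to a face -/
theorem exists_coord {F : Set (Finset ι)} {x : ι → E} (h : IsTri F x) {f : Finset ι}
    (hf : f ∈ F) : ∃ φ : ι → (E →ₗ[ℝ] ℝ), ∀ p, p = ∑ i ∈ f, φ i p • x i := by
  classical
  let b := basisOfLinearIndependentOfCardEqFinrank' (fun i : f => x i) (h.indep f hf)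
    (card_eq_finrank h hf)
  refine ⟨fun i => if hi : i ∈ f then b.coord ⟨i, hi⟩ else 0, fun p => ?_⟩
  have h1 := b.sum_repr p
  rw [← Finset.sum_coe_sort f]
  conv_lhs => rw [← h1]
  refine Finset.sum_congr rfl fun i _ => ?_
  have hb : b i = x i := by simp [b]
  simp [hb]

theorem coord_unique {F : Set (Finset ι)} {x : ι → E} (h : IsTri F x) {f : Finset ι}
    (hf : f ∈ F) {c d : ι → ℝ} (he : ∑ i ∈ f, c i • x i = ∑ i ∈ f, d i • x i) :
    ∀ i ∈ f, c i = d i := by
  have h1 : ∑ i ∈ f, (fun i => c i - d i) i • x i = 0 := by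
    simp only [sub_smul, Finset.sum_sub_distrib, he, sub_self]
  intro i hi
  have := coef_zero h hf h1 i hi
  linarith

theorem cone_eq {F : Set (Finset ι)} {x : ι → E} (h : IsTri F x) {f : Finset ι} (hf : f ∈ F)
    {φ : ι → (E →ₗ[ℝ] ℝ)} (hφ : ∀ p, p = ∑ i ∈ f, φ i p • x i) :
    cone x f = {p | ∀ i ∈ f, 0 ≤ φ i p} := by
  ext p
  constructor
  · rintro ⟨c, hc, rfl⟩ i hi
    have := coord_unique h hf (hφ (∑ i ∈ f, c i • x i)) i hi
    show 0 ≤ φ i _
    rw [← this]
    exact hc i
  · intro hp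
    refine ⟨fun i => if i ∈ f then φ i p else 0, fun i => ?_, ?_⟩
    · by_cases hi : i ∈ f
      · simpa [hi] using hp i hi
      · simp [hi]
    · conv_lhs => rw [hφ p]
      refine Finset.sum_congr rfl fun i hi => ?_
      simp [hi]

theorem isClosed_cone {F : Set (Finset ι)} {x : ι → E} (h : IsTri F x) {f : Finset ι}
    (hf : f ∈ F) : IsClosed (cone x f) := by
  obtain ⟨φ, hφ⟩ := exists_coord h hf
  rw [cone_eq h hf hφ]
  have : {p : E | ∀ i ∈ f, 0 ≤ φ i p} = ⋂ i ∈ f, {p | 0 ≤ φ i p} := by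
    ext p; simp
  rw [this]
  exact isClosed_biInter fun i _ =>
    isClosed_le continuous_const (LinearMap.continuous_of_finiteDimensional (φ i))

/-- the complement of the lines through the vertices -/
def Gen (x : ι → E) : Set E := {p | ∀ i, ∀ t : ℝ, p ≠ t • x i}

omit [DecidableEq ι] in
theorem exists_off (x : ι → E) [Finite ι] (p q : E) :
    ∃ m : E, (∀ i, m ∉ Submodule.span ℝ {p, x i}) ∧ ∀ i, m ∉ Submodule.span ℝ {q, x i} := by
  classical
  by_contra hcon
  push Not at hcon
  let W : ι ⊕ ι → Subspace ℝ E := fun j => match j with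
    | .inl i => Submodule.span ℝ {p, x i}
    | .inr i => Submodule.span ℝ {q, x i}
  have hcov : ⋃ j, (W j : Set E) = Set.univ := by
    ext m
    simp only [Set.mem_iUnion, Set.mem_univ, iff_true]
    by_cases h1 : ∀ i, m ∉ Submodule.span ℝ {p, x i}
    · obtain ⟨i, hi⟩ := hcon m h1
      exact ⟨.inr i, hi⟩
    · push Not at h1
      obtain ⟨i, hi⟩ := h1
      exact ⟨.inl i, hi⟩
  obtain ⟨j, hj⟩ := Subspace.exists_eq_top_of_iUnion_eq_univ hcov
  have key : ∀ u v : E, Submodule.span ℝ ({u, v} : Set E) ≠ ⊤ := by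
    intro u v huv
    have h1 : Module.finrank ℝ (Submodule.span ℝ (({u, v} : Finset E) : Set E)) ≤ 2 :=
      (finrank_span_finset_le_card _).trans Finset.card_le_two
    have h2 : (({u, v} : Finset E) : Set E) = {u, v} := by simp
    rw [h2, huv, finrank_top, finrank_euclideanSpace_fin] at h1
    omega
  cases j with
  | inl i => exact key p (x i) hj
  | inr i => exact key q (x i) hj

omit [DecidableEq ι] in
theorem segment_sub {x : ι → E} {p m : E} (hp : p ∈ Gen x)
    (hm : ∀ i, m ∉ Submodule.span ℝ {p, x i}) : segment ℝ p m ⊆ Gen x := by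
  rintro z ⟨a, b, ha, hb, hab, rfl⟩ i t ht
  by_cases hb0 : b = 0
  · subst hb0
    have ha1 : a = 1 := by linarith
    subst ha1
    simp only [one_smul, zero_smul, add_zero] at ht
    exact hp i t ht
  · refine hm i ?_
    have h1 : m = b⁻¹ • (t • x i - a • p) := by
      rw [← ht, add_sub_cancel_left, smul_smul, inv_mul_cancel₀ hb0, one_smul]
    rw [h1]
    refine Submodule.smul_mem _ _ (Submodule.sub_mem _ ?_ ?_)
    · exact Submodule.smul_mem _ _ (Submodule.subset_span (by simp))
    · exact Submodule.smul_mem _ _ (Submodule.subset_span (by simp))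

omit [DecidableEq ι] in
theorem isPreconnected_gen (x : ι → E) [Finite ι] : IsPreconnected (Gen x) := by
  apply isPreconnected_of_forall_pair
  intro p hp q hq
  obtain ⟨m, hm1, hm2⟩ := exists_off x p q
  refine ⟨segment ℝ p m ∪ segment ℝ q m, Set.union_subset (segment_sub hp hm1)
    (segment_sub hq hm2), Or.inl (left_mem_segment ℝ p m), Or.inr (left_mem_segment ℝ q m), ?_⟩
  exact IsPreconnected.union m (right_mem_segment ℝ p m) (right_mem_segment ℝ q m)
    (convex_segment p m).isPreconnected (convex_segment q m).isPreconnected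

theorem exists_gen_mem [Finite ι] {F : Set (Finset ι)} {x : ι → E} (h : IsTri F x)
    {f : Finset ι} (hf : f ∈ F) : ∃ p ∈ Gen x, p ∈ cone x f := by
  classical
  obtain ⟨a, b, c, hab, hac, hbc, rfl⟩ := Finset.card_eq_three.1 (h.card f hf)
  have hsum : ∀ w : ι → ℝ, ∑ i ∈ ({a, b, c} : Finset ι), w i • x i =
      w a • x a + (w b • x b + w c • x c) := by
    intro w
    rw [Finset.sum_insert (by simp [hab, hac]), Finset.sum_insert (by simp [hbc]),
      Finset.sum_singleton]
  by_contra hcon
  push Not at hcon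
  have h1 : ∀ n : ℕ, ∃ i, ∃ t : ℝ, x a + (((n : ℝ) + 1) • x b + x c) = t • x i := by
    intro n
    by_contra hn
    push Not at hn
    refine hcon (x a + (((n : ℝ) + 1) • x b + x c)) (fun i t => hn i t) ?_
    refine ⟨fun i => if i = b then (n : ℝ) + 1 else 1, fun i => ?_, ?_⟩
    · dsimp only
      split_ifs <;> positivity
    · rw [hsum]
      simp [hab, hbc.symm]
  choose g t hgt using h1
  obtain ⟨n, m, hnm, hg⟩ := Finite.exists_ne_map_eq_of_infinite g
  have e1 := hgt n
  have e2 := hgt m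
  rw [← hg] at e2
  have e3 : ∑ i ∈ ({a, b, c} : Finset ι),
      (fun i => if i = b then t m * ((n : ℝ) + 1) - t n * ((m : ℝ) + 1) else t m - t n) i • x i
        = 0 := by
    rw [hsum]
    simp only [hab, if_false, if_true, hbc.symm]
    have e4 : t m • (x a + (((n : ℝ) + 1) • x b + x c)) =
        t n • (x a + (((m : ℝ) + 1) • x b + x c)) := by
      rw [e1, e2, smul_smul, smul_smul, mul_comm]
    rw [← sub_eq_zero] at e4
    rw [← e4]
    module
  have e5 := coef_zero h hf e3
  have e6 := e5 a (by simp)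
  have e7 := e5 b (by simp)
  simp only [hab, if_false, if_true] at e6 e7
  have e8 : t n = t m := by linarith
  rw [e8] at e7
  have e9 : t m * ((n : ℝ) - m) = 0 := by linarith
  rcases mul_eq_zero.1 e9 with h0 | h0
  · rw [h0, zero_smul] at e2
    have e10 : ∑ i ∈ ({a, b, c} : Finset ι),
      (fun i => if i = b then ((m : ℝ) + 1) else 1) i • x i = 0 := by
      rw [hsum]
      simp only [hab, if_false, if_true, hbc.symm, one_smul]
      exact e2
    have e11 := coef_zero h hf e10 a (by simp)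
    simp [hab] at e11
  · exact hnm (by exact_mod_cast (sub_eq_zero.1 h0))

theorem cover_all {F : Set (Finset ι)} {x : ι → E} (h : IsTri F x) (p : E) (hp : p ≠ 0) :
    ∃ f ∈ F, p ∈ cone x f := by
  have hn : ‖p‖ ≠ 0 := norm_ne_zero_iff.2 hp
  obtain ⟨f, hf, c, hc, he⟩ := h.cover (‖p‖⁻¹ • p) (by
    rw [norm_smul, norm_inv, norm_norm, inv_mul_cancel₀ hn])
  refine ⟨f, hf, fun i => ‖p‖ * c i, fun i => mul_nonneg (norm_nonneg _) (hc i), ?_⟩
  simp only [mul_smul]
  rw [← Finset.smul_sum, ← he, smul_smul, mul_inv_cancel₀ hn, one_smul]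

theorem distinct {F : Set (Finset ι)} {x : ι → E} (h : IsTri F x) {a b c : ι}
    (hf : ({a, b, c} : Finset ι) ∈ F) : a ≠ b ∧ a ≠ c ∧ b ≠ c := by
  have hc := h.card _ hf
  refine ⟨?_, ?_, ?_⟩
  · rintro rfl
    have := Finset.card_le_two (a := a) (b := c)
    simp at hc
    omega
  · rintro rfl
    have h1 : ({a, b, a} : Finset ι) = {a, b} := by ext; simp; tauto
    rw [h1] at hc
    have := Finset.card_le_two (a := a) (b := b)
    omega
  · rintro rfl
    have := Finset.card_le_two (a := a) (b := b)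
    simp at hc
    omega

theorem sum3 {x : ι → E} {a b c : ι} (hab : a ≠ b) (hac : a ≠ c) (hbc : b ≠ c) (w : ι → ℝ) :
    ∑ i ∈ ({a, b, c} : Finset ι), w i • x i = w a • x a + (w b • x b + w c • x c) := by
  rw [Finset.sum_insert (by simp [hab, hac]), Finset.sum_insert (by simp [hbc]),
    Finset.sum_singleton]

theorem det3_ne {F : Set (Finset ι)} {x : ι → E} (h : IsTri F x) {a b c : ι}
    (hf : ({a, b, c} : Finset ι) ∈ F) : det3 (x a) (x b) (x c) ≠ 0 := by
  obtain ⟨hab, hac, hbc⟩ := distinct h hf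
  have hsum := sum3 (x := x) hab hac hbc
  intro h0
  let M : Matrix (Fin 3) (Fin 3) ℝ := !![x a 0, x a 1, x a 2; x b 0, x b 1, x b 2;
    x c 0, x c 1, x c 2]
  have hM : M.det = 0 := by
    rw [Matrix.det_fin_three]
    simp only [M, Matrix.of_apply, Matrix.cons_val', Matrix.cons_val_zero, Matrix.cons_val_one,
      Matrix.cons_val]
    unfold det3 at h0
    linarith
  obtain ⟨v, hv, hvM⟩ := Matrix.exists_vecMul_eq_zero_iff.2 hM
  have hz : ∑ i ∈ ({a, b, c} : Finset ι),
      (fun i => if i = a then v 0 else if i = b then v 1 else v 2) i • x i = 0 := by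
    rw [hsum]
    simp only [hab.symm, hac.symm, hbc.symm, if_false, if_true]
    ext k
    have := congrFun hvM k
    fin_cases k <;>
    · simp [M, Matrix.vecMul, dotProduct, Fin.sum_univ_three] at this ⊢
      linarith
  have hz' := coef_zero h hf hz
  have z0 := hz' a (by simp)
  have z1 := hz' b (by simp)
  have z2 := hz' c (by simp)
  simp only [hab.symm, hac.symm, hbc.symm, if_false, if_true] at z0 z1 z2
  apply hv
  funext k
  fin_cases k
  · exact z0
  · exact z1
  · exact z2

end Conn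

open Conn in
theorem face_conn [Finite ι] {F : Set (Finset ι)} {x : ι → E} (h : IsTri F x) (s : Finset ι → ℝ)
    (hs : ∀ f ∈ F, ∀ g ∈ F, (f ∩ g).card = 2 → s f = s g) : ∀ f ∈ F, ∀ g ∈ F, s f = s g := by
  classical
  intro f hf g hg
  by_contra hne
  have hclA : IsClosed (⋃ k ∈ {k | k ∈ F ∧ s k = s f}, cone x k) :=
    (Set.toFinite _).isClosed_biUnion fun k hk => isClosed_cone h hk.1
  have hclB : IsClosed (⋃ k ∈ {k | k ∈ F ∧ s k ≠ s f}, cone x k) :=
    (Set.toFinite _).isClosed_biUnion fun k hk => isClosed_cone h hk.1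
  obtain ⟨i₀, hi₀⟩ : f.Nonempty := by
    rw [← Finset.card_pos, h.card f hf]; norm_num
  have h0 : ∀ p ∈ Gen x, p ≠ 0 := by
    intro p hp h0
    exact hp i₀ 0 (by simpa using h0)
  obtain ⟨p, hpG, hp⟩ := isPreconnected_closed_iff.1 (isPreconnected_gen x) _ _ hclA hclB
    (by
      intro p hp
      obtain ⟨k, hk, hpk⟩ := cover_all h p (h0 p hp)
      by_cases hsk : s k = s f
      · exact Or.inl (Set.mem_biUnion (x := k) ⟨hk, hsk⟩ hpk)
      · exact Or.inr (Set.mem_biUnion (x := k) ⟨hk, hsk⟩ hpk))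
    (by
      obtain ⟨p, hp1, hp2⟩ := exists_gen_mem h hf
      exact ⟨p, hp1, Set.mem_biUnion (x := f) ⟨hf, rfl⟩ hp2⟩)
    (by
      obtain ⟨p, hp1, hp2⟩ := exists_gen_mem h hg
      exact ⟨p, hp1, Set.mem_biUnion (x := g) ⟨hg, fun hh => hne hh.symm⟩ hp2⟩)
  obtain ⟨hpA, hpB⟩ := hp
  simp only [Set.mem_iUnion, Set.mem_ofPred_eq, exists_prop] at hpA hpB
  obtain ⟨k, ⟨hk, hsk⟩, hpk⟩ := hpA
  obtain ⟨l, ⟨hl, hsl⟩, hpl⟩ := hpB
  have hp : p ∈ cone x (k ∩ l) := by
    rw [← h.inter k hk l hl]; exact ⟨hpk, hpl⟩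
  have hck := h.card k hk
  have hcl := h.card l hl
  have hle : (k ∩ l).card ≤ k.card := Finset.card_le_card Finset.inter_subset_left
  obtain ⟨c, hc, hpc⟩ := hp
  have hcases : (k ∩ l).card = 0 ∨ (k ∩ l).card = 1 ∨ (k ∩ l).card = 2 ∨ (k ∩ l).card = 3 := by
    omega
  rcases hcases with hh | hh | hh | hh
  · rw [Finset.card_eq_zero] at hh
    rw [hh, Finset.sum_empty] at hpc
    exact h0 p hpG hpc
  · obtain ⟨i, hi⟩ := Finset.card_eq_one.1 hh
    rw [hi, Finset.sum_singleton] at hpc
    exact hpG i (c i) hpc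
  · exact hsl ((hs k hk l hl hh).symm.trans hsk)
  · have e1 : k ∩ l = k := Finset.eq_of_subset_of_card_le Finset.inter_subset_left (by omega)
    have e2 : k ∩ l = l := Finset.eq_of_subset_of_card_le Finset.inter_subset_right (by omega)
    rw [e1] at e2
    rw [e2] at hsk
    exact hsl hsk

open Conn in
theorem two_faces [Finite ι] {F : Set (Finset ι)} {x : ι → E} (h : IsTri F x) {a b c c' : ι}
    (hf : ({a, b, c} : Finset ι) ∈ F) (hg : ({a, b, c'} : Finset ι) ∈ F) (hne : c ≠ c') :
    det3 (x a) (x b) (x c) * det3 (x a) (x b) (x c') < 0 := by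
  obtain ⟨hab, hac, hbc⟩ := distinct h hf
  obtain ⟨-, hac', hbc'⟩ := distinct h hg
  have d1 := det3_ne h hf
  have d2 := det3_ne h hg
  obtain ⟨φ, hφ⟩ := exists_coord h hf
  have e1 := hφ (x c')
  rw [sum3 hab hac hbc] at e1
  set α := φ a (x c') with hα
  set β := φ b (x c') with hβ
  set γ := φ c (x c') with hγ
  have ek : ∀ k, x c' k = α * x a k + (β * x b k + γ * x c k) := by
    intro k
    conv_lhs => rw [e1]
    simp
  have e2 : det3 (x a) (x b) (x c') = γ * det3 (x a) (x b) (x c) := by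
    unfold det3
    rw [ek 0, ek 1, ek 2]
    ring
  by_contra hcon
  rw [not_lt] at hcon
  have hγ0 : 0 < γ := by
    have h1 : γ ≠ 0 := by
      intro h0
      rw [h0, zero_mul] at e2
      exact d2 e2
    have h2 : 0 ≤ γ := by
      rw [e2] at hcon
      have h3 : 0 < det3 (x a) (x b) (x c) ^ 2 := by positivity
      by_contra h4
      rw [not_le] at h4
      nlinarith
    exact lt_of_le_of_ne h2 h1.symm
  set N := |α| + |β| with hN
  have hNα : 0 ≤ N + α := by
    have := neg_abs_le α; have := abs_nonneg β; linarith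
  have hNβ : 0 ≤ N + β := by
    have := neg_abs_le β; have := abs_nonneg α; linarith
  have hN0 : 0 ≤ N := by positivity
  have m1 : N • x a + (N • x b + x c') ∈ cone x {a, b, c} := by
    refine ⟨fun i => if i = a then N + α else if i = b then N + β else γ, fun i => ?_, ?_⟩
    · dsimp only
      split_ifs
      · exact hNα
      · exact hNβ
      · exact hγ0.le
    · rw [sum3 hab hac hbc]
      simp only [hab.symm, hac.symm, hbc.symm, if_false, if_true]
      conv_lhs => rw [e1]
      module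
  have m2 : N • x a + (N • x b + x c') ∈ cone x {a, b, c'} := by
    refine ⟨fun i => if i = c' then 1 else N, fun i => ?_, ?_⟩
    · dsimp only
      split_ifs
      · exact zero_le_one
      · exact hN0
    · rw [sum3 hab hac' hbc']
      simp only [hac', hbc', if_false, if_true, one_smul]
  have hint : ({a, b, c} : Finset ι) ∩ {a, b, c'} = {a, b} := by
    ext i
    simp only [Finset.mem_inter, Finset.mem_insert, Finset.mem_singleton]
    constructor
    · rintro ⟨h1, h2⟩
      rcases h1 with h1 | h1 | h1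
      · exact Or.inl h1
      · exact Or.inr h1
      · rcases h2 with h2 | h2 | h2
        · exact Or.inl h2
        · exact Or.inr h2
        · exact absurd (h1.symm.trans h2) hne
    · rintro (h1 | h1)
      · exact ⟨Or.inl h1, Or.inl h1⟩
      · exact ⟨Or.inr (Or.inl h1), Or.inr (Or.inl h1)⟩
  have m3 : N • x a + (N • x b + x c') ∈ cone x {a, b} := by
    rw [← hint, ← h.inter _ hf _ hg]
    exact ⟨m1, m2⟩
  obtain ⟨w, hw, he⟩ := m3
  rw [Finset.sum_insert (by simp [hab]), Finset.sum_singleton] at he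
  have hz : ∑ i ∈ ({a, b, c'} : Finset ι),
      (fun i => if i = c' then 1 else N - w i) i • x i = 0 := by
    rw [sum3 hab hac' hbc']
    simp only [hac', hbc', if_false, if_true, one_smul]
    rw [← sub_eq_zero] at he
    rw [← he]
    module
  have := coef_zero h hg hz c' (by simp)
  simp at this

end Pool.Agent.Berry
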