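import Pool.Agent.Berry.Defs
import Pool.Agent.Berry.CONN

set_option autoImplicit false

namespace Pool.Agent.Berry

variable {ι : Type} [DecidableEq ι]

namespace Const

/-- a symmetric function of three arguments depends only on the set of its arguments -/
theorem set_eq {H : ι → ι → ι → ℝ} (sym1 : ∀ a b c, H b a c = H a b c)
    (sym2 : ∀ a b c, H a c b = H a b c) {a b c a' b' c' : ι}
    (h3 : ({a', b', c'} : Finset ι).card = 3) (he : ({a, b, c} : Finset ι) = {a', b', c'}) :
    H a b c = H a' b' c' := by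
  have hab : a' ≠ b' := by
    rintro rfl
    have : ({a', a', c'} : Finset ι).card ≤ 2 := by
      rw [Finset.insert_eq_of_mem (by simp)]; exact Finset.card_le_two
    omega
  have hac : a' ≠ c' := by
    rintro rfl
    have : ({a', b', a'} : Finset ι).card ≤ 2 := by
      rw [Finset.insert_eq_of_mem (by simp)]; exact Finset.card_le_two
    omega
  have hbc : b' ≠ c' := by
    rintro rfl
    have : ({a', b', b'} : Finset ι).card ≤ 2 := by
      rw [Finset.pair_eq_singleton]; exact Finset.card_le_two
    omega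
  have ha : a' ∈ ({a, b, c} : Finset ι) := by rw [he]; simp
  have hb : b' ∈ ({a, b, c} : Finset ι) := by rw [he]; simp
  have hc : c' ∈ ({a, b, c} : Finset ι) := by rw [he]; simp
  simp only [Finset.mem_insert, Finset.mem_singleton] at ha hb hc
  rcases ha with rfl | rfl | rfl <;> rcases hb with rfl | rfl | rfl <;>
    rcases hc with rfl | rfl | rfl <;>
    first
      | rfl
      | exact absurd rfl hab
      | exact absurd rfl hac
      | exact absurd rfl hbc
      | exact sym1 _ _ _
      | exact sym2 _ _ _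
      | exact (sym1 _ _ _).trans (sym2 _ _ _)
      | exact (sym2 _ _ _).trans (sym1 _ _ _)
      | exact (sym1 _ _ _).trans ((sym2 _ _ _).trans (sym1 _ _ _))

/-- two faces at a common edge -/
theorem edge [Fintype ι] {F : Set (Finset ι)} {x : ι → E} {om : ι → ι → ι → ι → ℝ}
    (h : IsTri F x) (hC : Chain F x om) (H : ι → ι → ι → ℝ)
    (hH : ∀ a b c d, om a b c d ≠ 0 → H a b c = H a b d) {a b c c' : ι}
    (hf : ({a, b, c} : Finset ι) ∈ F) (hg : ({a, b, c'} : Finset ι) ∈ F) (hne : c ≠ c') :
    H a b c = H a b c' := by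
  have hT : ∑ k, (∑ l, om l a b k) * H a b k = 0 := by
    have h1 : ∑ k, (∑ l, om l a b k) * H a b k = ∑ k, ∑ l, om l a b k * H a b k := by
      simp only [Finset.sum_mul]
    have h14 : ∀ k l, om k a b l = - om l a b k := by
      intro k l
      rw [hC.swap12 a k b l, hC.swap23 a b k l, hC.swap34 a b l k, hC.swap23 a l b k,
        hC.swap12 l a b k]
      ring
    have h2 : ∀ k l, om l a b k * H a b k = - (om k a b l * H a b l) := by
      intro k l
      by_cases h0 : om l a b k = 0
      · rw [h14 k l, h0]; simp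
      · have h3 : om a b l k ≠ 0 := by
          rw [hC.swap23 a l b k, hC.swap12 l a b k]
          simpa using h0
        rw [hH a b l k h3, h14 k l]
        ring
    have h3 : ∑ k, ∑ l, om l a b k * H a b k = - ∑ k, ∑ l, om l a b k * H a b k := by
      conv_lhs => rw [Finset.sum_comm]
      rw [← Finset.sum_neg_distrib]
      refine Finset.sum_congr rfl fun l _ => ?_
      rw [← Finset.sum_neg_distrib]
      refine Finset.sum_congr rfl fun k _ => ?_
      exact h2 k l
    rw [h1]
    linarith
  have hd := two_faces h hf hg hne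
  have hother : ∀ k, k ≠ c → k ≠ c' → (∑ l, om l a b k) * H a b k = 0 := by
    intro k hk1 hk2
    by_cases hkF : ({a, b, k} : Finset ι) ∈ F
    · exfalso
      have h1 := two_faces h hf hkF (Ne.symm hk1)
      have h2 := two_faces h hg hkF (Ne.symm hk2)
      nlinarith [mul_pos_of_neg_of_neg h1 h2, sq_nonneg (det3 (x a) (x b) (x k)),
        mul_nonneg (sq_nonneg (det3 (x a) (x b) (x k))) (neg_nonneg.2 hd.le)]
    · rw [hC.kap0 a b k hkF, zero_mul]
  have hsum : ∑ k, (∑ l, om l a b k) * H a b k =
      (∑ l, om l a b c) * H a b c + (∑ l, om l a b c') * H a b c' := by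
    rw [← Finset.sum_pair (f := fun k => (∑ l, om l a b k) * H a b k) hne]
    refine (Finset.sum_subset (Finset.subset_univ _) fun k _ hk => ?_).symm
    simp only [Finset.mem_insert, Finset.mem_singleton, not_or] at hk
    exact hother k hk.1 hk.2
  rw [hsum, hC.kap1 a b c hf, hC.kap1 a b c' hg] at hT
  rcases lt_trichotomy (det3 (x a) (x b) (x c)) 0 with h1 | h1 | h1
  · have h2 : 0 < det3 (x a) (x b) (x c') := by
      by_contra h3
      nlinarith
    rw [sign_neg h1, sign_pos h2] at hT
    simp at hT
    linarith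
  · rw [h1] at hd; simp at hd
  · have h2 : det3 (x a) (x b) (x c') < 0 := by
      by_contra h3
      nlinarith
    rw [sign_pos h1, sign_neg h2] at hT
    simp at hT
    linarith

end Const

theorem const_of_chain [Fintype ι] {F : Set (Finset ι)} {x : ι → E} {om : ι → ι → ι → ι → ℝ}
    (h : IsTri F x) (hC : Chain F x om) (H : ι → ι → ι → ℝ)
    (sym1 : ∀ a b c, H b a c = H a b c) (sym2 : ∀ a b c, H a c b = H a b c)
    (hH : ∀ a b c d, om a b c d ≠ 0 → H a b c = H a b d) {a b c a' b' c' : ι}
    (hf : ({a, b, c} : Finset ι) ∈ F) (hg : ({a', b', c'} : Finset ι) ∈ F) :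
    H a b c = H a' b' c' := by
  classical
  let s : Finset ι → ℝ := fun f =>
    if hs : ∃ q : ι × ι × ι, f = {q.1, q.2.1, q.2.2} then
      H (Classical.choose hs).1 (Classical.choose hs).2.1 (Classical.choose hs).2.2 else 0
  have hs : ∀ a b c : ι, ({a, b, c} : Finset ι) ∈ F → s {a, b, c} = H a b c := by
    intro a b c hF
    have hex : ∃ q : ι × ι × ι, ({a, b, c} : Finset ι) = {q.1, q.2.1, q.2.2} := ⟨(a, b, c), rfl⟩
    have h1 : s {a, b, c} = H (Classical.choose hex).1 (Classical.choose hex).2.1
        (Classical.choose hex).2.2 := dif_pos hex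
    rw [h1]
    exact (Const.set_eq sym1 sym2 (by rw [← Classical.choose_spec hex]; exact h.card _ hF)
      (Classical.choose_spec hex)).symm
  rw [← hs a b c hf, ← hs a' b' c' hg]
  refine face_conn h s ?_ _ hf _ hg
  intro f hf g hg hfg
  have hf3 := h.card f hf
  have hg3 := h.card g hg
  obtain ⟨p, q, hpq, hpq2⟩ := Finset.card_eq_two.1 hfg
  have hsub : ∀ t ∈ F, ({p, q} : Finset ι) ⊆ t → ∃ r, r ≠ p ∧ r ≠ q ∧ t = {p, q, r} := by
    intro t ht hpt
    have h1 : (t \ {p, q}).card = 1 := by
      rw [Finset.card_sdiff_of_subset hpt, h.card t ht, Finset.card_pair hpq]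
    obtain ⟨r, hr⟩ := Finset.card_eq_one.1 h1
    have hr2 : r ∈ t \ {p, q} := by rw [hr]; simp
    simp only [Finset.mem_sdiff, Finset.mem_insert, Finset.mem_singleton, not_or] at hr2
    refine ⟨r, hr2.2.1, hr2.2.2, ?_⟩
    rw [← Finset.union_sdiff_of_subset hpt, hr]
    ext z
    simp only [Finset.mem_union, Finset.mem_insert, Finset.mem_singleton]
    tauto
  obtain ⟨r, hr1, hr2, hr⟩ := hsub f hf (by rw [← hpq2]; exact Finset.inter_subset_left)
  obtain ⟨r', hr1', hr2', hr'⟩ := hsub g hg (by rw [← hpq2]; exact Finset.inter_subset_right)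
  rw [hr] at hf
  rw [hr'] at hg
  rw [hr, hr', hs p q r hf, hs p q r' hg]
  by_cases hrr : r = r'
  · rw [hrr]
  · exact Const.edge h hC H hH hf hg hrr

end Pool.Agent.Berry
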