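import Pool.Agent.Berry.Defs

set_option autoImplicit false

namespace Pool.Agent.Berry

theorem mob_exists {a b c a' b' c' : ℂ} (hab : a ≠ b) (hac : a ≠ c) (hbc : b ≠ c)
    (hab' : a' ≠ b') (hac' : a' ≠ c') (hbc' : b' ≠ c') :
    ∃ m : Mob, m.Fits a a' ∧ m.Fits b b' ∧ m.Fits c c' := by
  have h1 : a - b ≠ 0 := sub_ne_zero.mpr hab
  have h2 : a - c ≠ 0 := sub_ne_zero.mpr hac
  have h3 : b - c ≠ 0 := sub_ne_zero.mpr hbc
  have h1' : a' - b' ≠ 0 := sub_ne_zero.mpr hab'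
  have h2' : a' - c' ≠ 0 := sub_ne_zero.mpr hac'
  have h3' : b' - c' ≠ 0 := sub_ne_zero.mpr hbc'
  refine ⟨⟨-c' * (b' - a') * (b - c) + a' * (b' - c') * (b - a),
    c' * (b' - a') * (a * (b - c)) - a' * (b' - c') * (c * (b - a)),
    -(b' - a') * (b - c) + (b' - c') * (b - a),
    (b' - a') * (a * (b - c)) - (b' - c') * (c * (b - a)), ?_⟩, ?_, ?_, ?_⟩
  · have e : (-c' * (b' - a') * (b - c) + a' * (b' - c') * (b - a)) *
        ((b' - a') * (a * (b - c)) - (b' - c') * (c * (b - a))) -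
        (c' * (b' - a') * (a * (b - c)) - a' * (b' - c') * (c * (b - a))) *
        (-(b' - a') * (b - c) + (b' - c') * (b - a)) =
        (a - b) * (a - c) * (b - c) * ((a' - b') * (a' - c') * (b' - c')) := by ring
    rw [e]
    exact mul_ne_zero (mul_ne_zero (mul_ne_zero h1 h2) h3) (mul_ne_zero (mul_ne_zero h1' h2') h3')
  · unfold Mob.Fits; ring
  · unfold Mob.Fits; ring
  · unfold Mob.Fits; ring

theorem mob_den_ne {m : Mob} {a a' : ℂ} (h1 : m.Fits a a') : m.γ * a + m.δ ≠ 0 := by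
  intro h
  unfold Mob.Fits at h1
  rw [h, mul_zero] at h1
  apply m.det_ne
  linear_combination m.α * h - m.γ * h1

/-- two Moebius maps agreeing at three points have proportional matrices -/
theorem mob_prop {m m' : Mob} {a b c a' b' c' : ℂ} (hab : a ≠ b) (hac : a ≠ c) (hbc : b ≠ c)
    (h1 : m.Fits a a') (h2 : m.Fits b b') (h3 : m.Fits c c')
    (h1' : m'.Fits a a') (h2' : m'.Fits b b') (h3' : m'.Fits c c') :
    ∃ l : ℂ, l ≠ 0 ∧ m'.α = l * m.α ∧ m'.β = l * m.β ∧ m'.γ = l * m.γ ∧ m'.δ = l * m.δ := by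
  have q : ∀ z z' : ℂ, m.Fits z z' → m'.Fits z z' →
      (m.α * m'.γ - m'.α * m.γ) * z ^ 2 +
        (m.α * m'.δ + m.β * m'.γ - m'.α * m.δ - m'.β * m.γ) * z + (m.β * m'.δ - m'.β * m.δ) = 0 := by
    intro z z' hz hz'
    unfold Mob.Fits at hz hz'
    linear_combination (m'.γ * z + m'.δ) * hz - (m.γ * z + m.δ) * hz'
  have qa := q a a' h1 h1'
  have qb := q b b' h2 h2'
  have qc := q c c' h3 h3'
  set P := m.α * m'.γ - m'.α * m.γ with hP
  set Q := m.α * m'.δ + m.β * m'.γ - m'.α * m.δ - m'.β * m.γ with hQ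
  set R := m.β * m'.δ - m'.β * m.δ with hR
  have hab0 : a - b ≠ 0 := sub_ne_zero.mpr hab
  have hac0 : a - c ≠ 0 := sub_ne_zero.mpr hac
  have hbc0 : b - c ≠ 0 := sub_ne_zero.mpr hbc
  have e1 : P * (a + b) + Q = 0 := by
    apply mul_left_cancel₀ hab0
    linear_combination qa - qb
  have e2 : P * (a + c) + Q = 0 := by
    apply mul_left_cancel₀ hac0
    linear_combination qa - qc
  have hP0 : P = 0 := by
    apply mul_left_cancel₀ hbc0
    linear_combination e1 - e2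
  have hQ0 : Q = 0 := by
    rw [hP0] at e1
    linear_combination e1
  have hR0 : R = 0 := by
    rw [hP0, hQ0] at qa
    linear_combination qa
  rw [hP] at hP0
  rw [hQ] at hQ0
  rw [hR] at hR0
  have hD := m.det_ne
  have hD' := m'.det_ne
  set D := m.α * m.δ - m.β * m.γ with hDdef
  have f1 : D * m'.α = (m.δ * m'.α - m.β * m'.γ) * m.α := by
    rw [hDdef]; linear_combination m.β * hP0
  have f2 : D * m'.β = (m.δ * m'.α - m.β * m'.γ) * m.β := by
    rw [hDdef]; linear_combination m.β * hQ0 - m.α * hR0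
  have f3 : D * m'.γ = (m.δ * m'.α - m.β * m'.γ) * m.γ := by
    rw [hDdef]; linear_combination m.δ * hP0
  have f4 : D * m'.δ = (m.δ * m'.α - m.β * m'.γ) * m.δ := by
    rw [hDdef]; linear_combination m.δ * hQ0 - m.γ * hR0
  refine ⟨(m.δ * m'.α - m.β * m'.γ) / D, ?_, ?_, ?_, ?_, ?_⟩
  · intro h
    have h0 : m.δ * m'.α - m.β * m'.γ = 0 := by
      rcases div_eq_zero_iff.mp h with h | h
      · exact h
      · exact absurd h hD
    rw [h0, zero_mul] at f1 f2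
    have g1 : m'.α = 0 := by
      rcases mul_eq_zero.mp f1 with h | h
      · exact absurd h hD
      · exact h
    have g2 : m'.β = 0 := by
      rcases mul_eq_zero.mp f2 with h | h
      · exact absurd h hD
      · exact h
    apply hD'
    rw [g1, g2]; ring
  · rw [div_mul_eq_mul_div, eq_div_iff hD]; linear_combination f1
  · rw [div_mul_eq_mul_div, eq_div_iff hD]; linear_combination f2
  · rw [div_mul_eq_mul_div, eq_div_iff hD]; linear_combination f3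
  · rw [div_mul_eq_mul_div, eq_div_iff hD]; linear_combination f4

theorem mob_H_unique {m m' : Mob} {a b c a' b' c' : ℂ} (hab : a ≠ b) (hac : a ≠ c) (hbc : b ≠ c)
    (hab' : a' ≠ b') (hac' : a' ≠ c') (hbc' : b' ≠ c')
    (h1 : m.Fits a a') (h2 : m.Fits b b') (h3 : m.Fits c c')
    (h1' : m'.Fits a a') (h2' : m'.Fits b b') (h3' : m'.Fits c c') : m.H = m'.H := by
  obtain ⟨l, hl, e1, e2, e3, e4⟩ := mob_prop hab hac hbc h1 h2 h3 h1' h2' h3'
  funext z
  have hl' : ‖l‖ ≠ 0 := norm_ne_zero_iff.mpr hl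
  have hD : ‖m.α * m.δ - m.β * m.γ‖ ≠ 0 := norm_ne_zero_iff.mpr m.det_ne
  unfold Mob.H
  rw [e1, e2, e3, e4]
  have n1 : ‖l * m.α * z + l * m.β‖ = ‖l‖ * ‖m.α * z + m.β‖ := by
    rw [← norm_mul]; congr 1; ring
  have n2 : ‖l * m.γ * z + l * m.δ‖ = ‖l‖ * ‖m.γ * z + m.δ‖ := by
    rw [← norm_mul]; congr 1; ring
  have n3 : ‖l * m.α * (l * m.δ) - l * m.β * (l * m.γ)‖ = ‖l‖ ^ 2 * ‖m.α * m.δ - m.β * m.γ‖ := by
    rw [← norm_pow, ← norm_mul]; congr 1; ring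
  rw [n1, n2, n3]
  field_simp

/-- if the cross ratios agree, the Moebius map given by three of the points fits the fourth -/
theorem mob_cross {m : Mob} {a b c d a' b' c' d' X Y : ℂ} (hab : a ≠ b) (hac : a ≠ c) (hbc : b ≠ c)
    (had : a ≠ d) (hbd : b ≠ d) (hcd : c ≠ d)
    (hab' : a' ≠ b') (hac' : a' ≠ c') (hbc' : b' ≠ c')
    (hX : (b' - a') * (d' - c') = (b - a) * (d - c) * Complex.exp X)
    (hY : (c' - a') * (d' - b') = (c - a) * (d - b) * Complex.exp Y) (hXY : X = Y)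
    (h1 : m.Fits a a') (h2 : m.Fits b b') (h3 : m.Fits c c') : m.Fits d d' := by
  have na := mob_den_ne h1
  have nb := mob_den_ne h2
  have nc := mob_den_ne h3
  unfold Mob.Fits at h1 h2 h3 ⊢
  have hcr : (b' - a') * (d' - c') * ((c - a) * (d - b)) =
      (c' - a') * (d' - b') * ((b - a) * (d - c)) := by
    rw [hX, hY, hXY]; ring
  have k1 : (b' - a') * ((m.γ * a + m.δ) * (m.γ * b + m.δ)) =
      (m.α * m.δ - m.β * m.γ) * (b - a) := by
    linear_combination (m.γ * b + m.δ) * h1 - (m.γ * a + m.δ) * h2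
  have k2 : (c' - a') * ((m.γ * a + m.δ) * (m.γ * c + m.δ)) =
      (m.α * m.δ - m.β * m.γ) * (c - a) := by
    linear_combination (m.γ * c + m.δ) * h1 - (m.γ * a + m.δ) * h3
  have k3 : (m.γ * c + m.δ) * (d' - c') * (d - b) = (m.γ * b + m.δ) * (d' - b') * (d - c) := by
    have hba : b - a ≠ 0 := sub_ne_zero.mpr hab.symm
    have hca : c - a ≠ 0 := sub_ne_zero.mpr hac.symm
    apply mul_left_cancel₀ (mul_ne_zero (mul_ne_zero m.det_ne hba) hca)
    linear_combination ((m.γ * a + m.δ) * (m.γ * b + m.δ) * (m.γ * c + m.δ)) * hcr -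
      ((m.γ * c + m.δ) * (d' - c') * (d - b) * (c - a)) * k1 +
      ((m.γ * b + m.δ) * (d' - b') * (d - c) * (b - a)) * k2
  have hcb : c - b ≠ 0 := sub_ne_zero.mpr hbc.symm
  apply mul_left_cancel₀ hcb
  linear_combination (-1 : ℂ) * k3 + (d - b) * h3 - (d - c) * h2

theorem mob_conf {m : Mob} {a b a' b' : ℂ} (h1 : m.Fits a a') (h2 : m.Fits b b') :
    ‖b' - a'‖ ^ 2 * ‖m.γ * a + m.δ‖ ^ 2 * ‖m.γ * b + m.δ‖ ^ 2 =
      ‖m.α * m.δ - m.β * m.γ‖ ^ 2 * ‖b - a‖ ^ 2 := by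
  unfold Mob.Fits at h1 h2
  have k1 : (b' - a') * (m.γ * a + m.δ) * (m.γ * b + m.δ) =
      (m.α * m.δ - m.β * m.γ) * (b - a) := by
    linear_combination (m.γ * b + m.δ) * h1 - (m.γ * a + m.δ) * h2
  rw [← mul_pow, ← mul_pow, ← mul_pow, ← norm_mul, ← norm_mul, ← norm_mul, k1]

theorem mob_H_value {m : Mob} {a a' : ℂ} (h1 : m.Fits a a') :
    m.H a = ‖m.γ * a + m.δ‖ ^ 2 / ‖m.α * m.δ - m.β * m.γ‖ * (1 + ‖a'‖ ^ 2) := by
  unfold Mob.Fits at h1
  unfold Mob.H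
  rw [h1, norm_mul]
  ring

theorem mob_affine (m : Mob) : ∃ (p0 : ℝ) (v : E), p0 ^ 2 - ‖v‖ ^ 2 = 1 ∧ 0 < p0 ∧
    ∀ p : E, ‖p‖ = 1 → p 2 ≠ 1 → m.H (zz p) * (1 - p 2) / 2 = p0 - inner ℝ v p := by
  obtain ⟨⟨a1, a2⟩, ⟨b1, b2⟩, ⟨c1, c2⟩, ⟨d1, d2⟩, hdet⟩ := m
  set D : ℝ := ‖(⟨a1, a2⟩ : ℂ) * ⟨d1, d2⟩ - ⟨b1, b2⟩ * ⟨c1, c2⟩‖ with hD
  have hD0 : 0 < D := norm_pos_iff.mpr hdet
  have hD2 : D ^ 2 = (a1 * d1 - a2 * d2 - (b1 * c1 - b2 * c2)) ^ 2 +
      (a1 * d2 + a2 * d1 - (b1 * c2 + b2 * c1)) ^ 2 := by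
    rw [hD, Complex.sq_norm, Complex.normSq_apply]
    simp only [Complex.sub_re, Complex.sub_im, Complex.mul_re, Complex.mul_im]
    ring
  set A : ℝ := a1 ^ 2 + a2 ^ 2 + c1 ^ 2 + c2 ^ 2 with hA
  set C : ℝ := b1 ^ 2 + b2 ^ 2 + d1 ^ 2 + d2 ^ 2 with hC
  set B1 : ℝ := a1 * b1 + a2 * b2 + c1 * d1 + c2 * d2 with hB1
  set B2 : ℝ := a2 * b1 - a1 * b2 + c2 * d1 - c1 * d2 with hB2
  have key : A * C - B1 ^ 2 - B2 ^ 2 = D ^ 2 := by
    rw [hD2]; ring
  refine ⟨(A + C) / (2 * D), !₂[-B1 / D, B2 / D, -(A - C) / (2 * D)], ?_, ?_, ?_⟩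
  · rw [EuclideanSpace.norm_sq_eq, Fin.sum_univ_three]
    simp only [Real.norm_eq_abs, sq_abs]
    have e0 : (![-B1 / D, B2 / D, -(A - C) / (2 * D)] : Fin 3 → ℝ) 0 = -B1 / D := rfl
    have e1 : (![-B1 / D, B2 / D, -(A - C) / (2 * D)] : Fin 3 → ℝ) 1 = B2 / D := rfl
    have e2 : (![-B1 / D, B2 / D, -(A - C) / (2 * D)] : Fin 3 → ℝ) 2 = -(A - C) / (2 * D) := rfl
    rw [e0, e1, e2]
    field_simp
    linear_combination 4 * key
  · have hA0 : 0 ≤ A := by rw [hA]; positivity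
    have hC0 : 0 ≤ C := by rw [hC]; positivity
    have hAC : 0 < A + C := by
      rcases (add_nonneg hA0 hC0).lt_or_eq with h | h
      · exact h
      · exfalso
        have h1 : A = 0 := by linarith
        rw [h1] at key
        nlinarith [sq_nonneg B1, sq_nonneg B2, pow_pos hD0 2]
    positivity
  · intro p hp hp2
    have hn : p 0 ^ 2 + p 1 ^ 2 + p 2 ^ 2 = 1 := by
      have h := EuclideanSpace.norm_sq_eq p
      rw [hp, Fin.sum_univ_three] at h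
      simp only [Real.norm_eq_abs, sq_abs] at h
      linarith
    have hz : zz p = ⟨p 0 / (1 - p 2), p 1 / (1 - p 2)⟩ := by
      have h : (1 - (p 2 : ℂ)) = ((1 - p 2 : ℝ) : ℂ) := by push_cast; rfl
      unfold zz
      rw [h]
      apply Complex.ext
      · rw [Complex.div_ofReal_re]; simp
      · rw [Complex.div_ofReal_im]; simp
    have hin : inner ℝ (!₂[-B1 / D, B2 / D, -(A - C) / (2 * D)] : E) p =
        -B1 / D * p 0 + B2 / D * p 1 + -(A - C) / (2 * D) * p 2 := by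
      rw [PiLp.inner_apply, Fin.sum_univ_three]
      simp only [RCLike.inner_apply, conj_trivial]
      have e0 : (![-B1 / D, B2 / D, -(A - C) / (2 * D)] : Fin 3 → ℝ) 0 = -B1 / D := rfl
      have e1 : (![-B1 / D, B2 / D, -(A - C) / (2 * D)] : Fin 3 → ℝ) 1 = B2 / D := rfl
      have e2 : (![-B1 / D, B2 / D, -(A - C) / (2 * D)] : Fin 3 → ℝ) 2 = -(A - C) / (2 * D) := rfl
      rw [e0, e1, e2]
      ring
    rw [hin, hz]
    unfold Mob.H
    simp only
    rw [← hD, Complex.sq_norm, Complex.sq_norm, Complex.normSq_apply, Complex.normSq_apply]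
    simp only [Complex.add_re, Complex.add_im, Complex.mul_re, Complex.mul_im]
    have hq : 1 - p 2 ≠ 0 := sub_ne_zero.mpr (Ne.symm hp2)
    have hDn : D ≠ 0 := hD0.ne'
    rw [hA, hC, hB1, hB2]
    field_simp
    linear_combination (a1 ^ 2 + a2 ^ 2 + c1 ^ 2 + c2 ^ 2) * hn
end Pool.Agent.Berry
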