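import Pool.Agent.Berry.STEREO
import Pool.Agent.Berry.MOEB
import Pool.Agent.Berry.CONST

set_option autoImplicit false

namespace Pool.Agent.Berry

namespace AFF

variable {ι : Type} [DecidableEq ι]

theorem bt_ne {F : Set (Finset ι)} {x : ι → E} {u : ι → ℝ} (h : BT F x u) {i j : ι} (hij : i ≠ j) :
    x i ≠ x j := by
  intro he
  have h1 := h.far i j hij
  rw [he, sub_self, norm_zero] at h1
  have h2 := mul_pos (h.pos i) (h.pos j)
  nlinarith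

theorem bt_zz_ne {F : Set (Finset ι)} {x : ι → E} {u : ι → ℝ} (h : BT F x u)
    (hn : ∀ i, x i 2 ≠ 1) {i j : ι} (hij : i ≠ j) : zz (x i) ≠ zz (x j) := by
  intro he
  have h1 := zz_dist (h.tri.unit i) (h.tri.unit j) (hn i) (hn j)
  rw [he, sub_self, norm_zero] at h1
  have h2 : 0 < ‖x i - x j‖ ^ 2 := by
    have := h.far i j hij
    have h3 := mul_pos (h.pos i) (h.pos j)
    nlinarith
  have h3 : 0 < ‖x i - x j‖ ^ 2 / ((1 - x i 2) * (1 - x j 2)) :=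
    div_pos h2 (mul_pos (one_sub_pos (h.tri.unit i) (hn i)) (one_sub_pos (h.tri.unit j) (hn j)))
  norm_num at h1
  linarith

theorem om_ne [Fintype ι] {F : Set (Finset ι)} {x : ι → E} {om : ι → ι → ι → ι → ℝ}
    (hC : Chain F x om) {a b c d : ι} (h : om a b c d ≠ 0) :
    a ≠ b ∧ a ≠ c ∧ a ≠ d ∧ b ≠ c ∧ b ≠ d ∧ c ≠ d := by
  refine ⟨?_, ?_, ?_, ?_, ?_, ?_⟩ <;> rintro rfl <;> apply h
  · have := hC.swap12 a a c d; linarith
  · have h1 := hC.swap12 a b a d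
    have h2 := hC.swap23 b a a d
    linarith
  · have h1 := hC.swap34 a b c a
    have h2 := hC.swap23 a b a c
    have h3 := hC.swap12 a a b c
    linarith
  · have := hC.swap23 a b b d; linarith
  · have h1 := hC.swap23 a b c b
    have h2 := hC.swap34 a c b b
    linarith
  · have := hC.swap34 a b c c; linarith

theorem face_triple {F : Set (Finset ι)} {x : ι → E} (h : IsTri F x) {f : Finset ι} (hf : f ∈ F)
    {i : ι} (hi : i ∈ f) : ∃ j k, i ≠ j ∧ i ≠ k ∧ j ≠ k ∧ f = {i, j, k} := by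
  obtain ⟨a, b, c, hab, hac, hbc, rfl⟩ := Finset.card_eq_three.1 (h.card f hf)
  simp only [Finset.mem_insert, Finset.mem_singleton] at hi
  rcases hi with rfl | rfl | rfl
  · exact ⟨b, c, hab, hac, hbc, rfl⟩
  · exact ⟨a, c, hab.symm, hbc, hac, by ext t; simp only [Finset.mem_insert, Finset.mem_singleton]; tauto⟩
  · exact ⟨a, b, hac.symm, hbc.symm, hab, by ext t; simp only [Finset.mem_insert, Finset.mem_singleton]; tauto⟩

theorem edge_of {F : Set (Finset ι)} {f : Finset ι} (hf : f ∈ F) {i j : ι} (hij : i ≠ j)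
    (hi : i ∈ f) (hj : j ∈ f) : IsEdge F i j := ⟨hij, f, hf, hi, hj⟩

theorem pair_eq {F : Set (Finset ι)} {x1 x2 : ι → E} {u1 u2 : ι → ℝ} (h1 : BT F x1 u1)
    (h2 : BT F x2 u2) (hn1 : ∀ i, x1 i 2 ≠ 1) (hn2 : ∀ i, x2 i 2 ≠ 1) (m : Mob) {i j : ι}
    (he : IsEdge F i j) (hi : m.Fits (zz (x1 i)) (zz (x2 i))) (hj : m.Fits (zz (x1 j)) (zz (x2 j))) :
    (‖m.γ * zz (x1 i) + m.δ‖ ^ 2 / ‖m.α * m.δ - m.β * m.γ‖ * (u2 i / (1 - x2 i 2)) /
        (u1 i / (1 - x1 i 2))) *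
      (‖m.γ * zz (x1 j) + m.δ‖ ^ 2 / ‖m.α * m.δ - m.β * m.γ‖ * (u2 j / (1 - x2 j 2)) /
        (u1 j / (1 - x1 j 2))) = 1 := by
  have hc := mob_conf hi hj
  have d1 := zz_dist (h1.tri.unit j) (h1.tri.unit i) (hn1 j) (hn1 i)
  have d2 := zz_dist (h2.tri.unit j) (h2.tri.unit i) (hn2 j) (hn2 i)
  have t1 : ‖x1 j - x1 i‖ ^ 2 = 4 * u1 i * u1 j := by rw [norm_sub_rev]; exact h1.tan i j he
  have t2 : ‖x2 j - x2 i‖ ^ 2 = 4 * u2 i * u2 j := by rw [norm_sub_rev]; exact h2.tan i j he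
  rw [t1] at d1
  rw [t2] at d2
  rw [d1, d2] at hc
  have p1i := one_sub_pos (h1.tri.unit i) (hn1 i)
  have p1j := one_sub_pos (h1.tri.unit j) (hn1 j)
  have p2i := one_sub_pos (h2.tri.unit i) (hn2 i)
  have p2j := one_sub_pos (h2.tri.unit j) (hn2 j)
  have q1i := h1.pos i
  have q1j := h1.pos j
  have q2i := h2.pos i
  have q2j := h2.pos j
  have hD : 0 < ‖m.α * m.δ - m.β * m.γ‖ := norm_pos_iff.2 m.det_ne
  set D := ‖m.α * m.δ - m.β * m.γ‖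
  set A := ‖m.γ * zz (x1 i) + m.δ‖
  set B := ‖m.γ * zz (x1 j) + m.δ‖
  field_simp
  field_simp at hc
  nlinarith [hc]

end AFF

open AFF in
theorem exists_affine {ι : Type} [DecidableEq ι] [Fintype ι] {F : Set (Finset ι)}
    {x x1 x2 : ι → E} {u1 u2 : ι → ℝ}
    {om : ι → ι → ι → ι → ℝ} (h : IsTri F x) (hC : Chain F x om) (h1 : BT F x1 u1) (h2 : BT F x2 u2)
    (hn1 : ∀ i, x1 i 2 ≠ 1) (hn2 : ∀ i, x2 i 2 ≠ 1) (L : ι → ι → ℂ) (hL : ∀ a b, L b a = L a b)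
    (hLz : ∀ a b, a ≠ b →
      zz (x2 b) - zz (x2 a) = (zz (x1 b) - zz (x1 a)) * Complex.exp (L a b))
    (hcross : ∀ a b c d, om a b c d ≠ 0 → L a b + L c d = L a c + L b d) :
    ∃ (p0 : ℝ) (v : E), p0 ^ 2 - ‖v‖ ^ 2 = 1 ∧ 0 < p0 ∧
      ∀ i, u1 i / u2 i = p0 - inner ℝ v (x1 i) := by
  classical
  have z1 : ∀ {i j}, i ≠ j → zz (x1 i) ≠ zz (x1 j) := fun hij => bt_zz_ne h1 hn1 hij
  have z2 : ∀ {i j}, i ≠ j → zz (x2 i) ≠ zz (x2 j) := fun hij => bt_zz_ne h2 hn2 hij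
  -- Moebius maps on triples
  have key : ∀ a b c : ι, ∃ m : Mob, (a ≠ b ∧ a ≠ c ∧ b ≠ c) →
      m.Fits (zz (x1 a)) (zz (x2 a)) ∧ m.Fits (zz (x1 b)) (zz (x2 b)) ∧
        m.Fits (zz (x1 c)) (zz (x2 c)) := by
    intro a b c
    by_cases hd : a ≠ b ∧ a ≠ c ∧ b ≠ c
    · obtain ⟨m, hm⟩ := mob_exists (z1 hd.1) (z1 hd.2.1) (z1 hd.2.2) (z2 hd.1) (z2 hd.2.1) (z2 hd.2.2)
      exact ⟨m, fun _ => hm⟩
    · exact ⟨⟨1, 0, 0, 1, by norm_num⟩, fun hh => absurd hh hd⟩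
  choose M hM using key
  -- uniqueness
  have uniq : ∀ {a b c : ι} (m m' : Mob), a ≠ b → a ≠ c → b ≠ c →
      m.Fits (zz (x1 a)) (zz (x2 a)) → m.Fits (zz (x1 b)) (zz (x2 b)) →
      m.Fits (zz (x1 c)) (zz (x2 c)) → m'.Fits (zz (x1 a)) (zz (x2 a)) →
      m'.Fits (zz (x1 b)) (zz (x2 b)) → m'.Fits (zz (x1 c)) (zz (x2 c)) → m.H = m'.H := by
    intro a b c m m' hab hac hbc f1 f2 f3 g1 g2 g3
    exact mob_H_unique (z1 hab) (z1 hac) (z1 hbc) (z2 hab) (z2 hac) (z2 hbc) f1 f2 f3 g1 g2 g3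
  -- constancy over the faces
  have hconst : ∀ {a b c a' b' c' : ι}, ({a, b, c} : Finset ι) ∈ F → ({a', b', c'} : Finset ι) ∈ F →
      a ≠ b → a ≠ c → b ≠ c → a' ≠ b' → a' ≠ c' → b' ≠ c' → (M a b c).H = (M a' b' c').H := by
    intro a b c a' b' c' hf hg hab hac hbc hab' hac' hbc'
    funext z0
    have := const_of_chain h hC
      (fun a b c => if a ≠ b ∧ a ≠ c ∧ b ≠ c then (M a b c).H z0 else 0) ?_ ?_ ?_ hf hg
    · simpa [hab, hac, hbc, hab', hac', hbc'] using this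
    · intro a b c
      by_cases hd : a ≠ b ∧ a ≠ c ∧ b ≠ c
      · have hd' : b ≠ a ∧ b ≠ c ∧ a ≠ c := ⟨hd.1.symm, hd.2.2, hd.2.1⟩
        simp only [if_pos hd, if_pos hd']
        obtain ⟨f1, f2, f3⟩ := hM a b c hd
        obtain ⟨g1, g2, g3⟩ := hM b a c hd'
        rw [uniq (M a b c) (M b a c) hd.1 hd.2.1 hd.2.2 f1 f2 f3 g2 g1 g3]
      · have hd' : ¬ (b ≠ a ∧ b ≠ c ∧ a ≠ c) := fun hh => hd ⟨hh.1.symm, hh.2.2, hh.2.1⟩
        simp only [if_neg hd, if_neg hd']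
    · intro a b c
      by_cases hd : a ≠ b ∧ a ≠ c ∧ b ≠ c
      · have hd' : a ≠ c ∧ a ≠ b ∧ c ≠ b := ⟨hd.2.1, hd.1, hd.2.2.symm⟩
        simp only [if_pos hd, if_pos hd']
        obtain ⟨f1, f2, f3⟩ := hM a b c hd
        obtain ⟨g1, g2, g3⟩ := hM a c b hd'
        rw [uniq (M a b c) (M a c b) hd.1 hd.2.1 hd.2.2 f1 f2 f3 g1 g3 g2]
      · have hd' : ¬ (a ≠ c ∧ a ≠ b ∧ c ≠ b) := fun hh => hd ⟨hh.2.1, hh.1, hh.2.2.symm⟩
        simp only [if_neg hd, if_neg hd']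
    · intro a b c d hom
      obtain ⟨hab, hac, had, hbc, hbd, hcd⟩ := om_ne hC hom
      have e1 : a ≠ b ∧ a ≠ c ∧ b ≠ c := ⟨hab, hac, hbc⟩
      have e2 : a ≠ b ∧ a ≠ d ∧ b ≠ d := ⟨hab, had, hbd⟩
      simp only [if_pos e1, if_pos e2]
      obtain ⟨f1, f2, f3⟩ := hM a b c e1
      obtain ⟨g1, g2, g3⟩ := hM a b d e2
      have f4 : (M a b c).Fits (zz (x1 d)) (zz (x2 d)) := by
        refine mob_cross (z1 hab) (z1 hac) (z1 hbc) (z1 had) (z1 hbd) (z1 hcd) (z2 hab) (z2 hac)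
          (z2 hbc) (X := L a b + L c d) (Y := L a c + L b d) ?_ ?_ (hcross a b c d hom) f1 f2 f3
        · rw [hLz a b hab, hLz c d hcd, Complex.exp_add]; ring
        · rw [hLz a c hac, hLz b d hbd, Complex.exp_add]; ring
      rw [uniq (M a b c) (M a b d) hab had hbd f1 f2 f4 g1 g2 g3]
  -- a base face
  obtain ⟨f0, hf0, -⟩ := h.cover (EuclideanSpace.single 0 (1 : ℝ)) (by simp)
  obtain ⟨a0, b0, c0, hab0, hac0, hbc0, rfl⟩ := Finset.card_eq_three.1 (h.card f0 hf0)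
  obtain ⟨p0, v, hv, hp0, haff⟩ := mob_affine (M a0 b0 c0)
  refine ⟨p0, v, hv, hp0, fun i => ?_⟩
  obtain ⟨f, hf, hif⟩ := h.vert i
  obtain ⟨j, k, hij, hik, hjk, rfl⟩ := face_triple h hf hif
  have hj : j ∈ ({i, j, k} : Finset ι) := by simp
  have hk : k ∈ ({i, j, k} : Finset ι) := by simp
  obtain ⟨g1, g2, g3⟩ := hM i j k ⟨hij, hik, hjk⟩
  have hH := hconst hf hf0 hij hik hjk hab0 hac0 hbc0
  have e1 := pair_eq h1 h2 hn1 hn2 (M i j k) (edge_of hf hij hif hj) g1 g2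
  have e2 := pair_eq h1 h2 hn1 hn2 (M i j k) (edge_of hf hik hif hk) g1 g3
  have e3 := pair_eq h1 h2 hn1 hn2 (M i j k) (edge_of hf hjk hj hk) g2 g3
  have hval := mob_H_value g1
  rw [hH] at hval
  have ha := haff (x1 i) (h1.tri.unit i) (hn1 i)
  rw [hval, zz_norm (h2.tri.unit i) (hn2 i)] at ha
  rw [← ha]
  have p1i := one_sub_pos (h1.tri.unit i) (hn1 i)
  have p1j := one_sub_pos (h1.tri.unit j) (hn1 j)
  have p1k := one_sub_pos (h1.tri.unit k) (hn1 k)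
  have p2i := one_sub_pos (h2.tri.unit i) (hn2 i)
  have p2j := one_sub_pos (h2.tri.unit j) (hn2 j)
  have p2k := one_sub_pos (h2.tri.unit k) (hn2 k)
  have q1i := h1.pos i
  have q1j := h1.pos j
  have q1k := h1.pos k
  have q2i := h2.pos i
  have q2j := h2.pos j
  have q2k := h2.pos k
  have hD : 0 < ‖(M i j k).α * (M i j k).δ - (M i j k).β * (M i j k).γ‖ :=
    norm_pos_iff.2 (M i j k).det_ne
  have hA : 0 < ‖(M i j k).γ * zz (x1 i) + (M i j k).δ‖ := norm_pos_iff.2 (mob_den_ne g1)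
  set D := ‖(M i j k).α * (M i j k).δ - (M i j k).β * (M i j k).γ‖
  set A := ‖(M i j k).γ * zz (x1 i) + (M i j k).δ‖
  set ri := A ^ 2 / D * (u2 i / (1 - x2 i 2)) / (u1 i / (1 - x1 i 2)) with hri
  set rj := ‖(M i j k).γ * zz (x1 j) + (M i j k).δ‖ ^ 2 / D * (u2 j / (1 - x2 j 2)) /
    (u1 j / (1 - x1 j 2))
  set rk := ‖(M i j k).γ * zz (x1 k) + (M i j k).δ‖ ^ 2 / D * (u2 k / (1 - x2 k 2)) /
    (u1 k / (1 - x1 k 2))
  have hri0 : 0 < ri := by rw [hri]; positivity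
  have hsq : ri ^ 2 = 1 := by
    have : ri ^ 2 * (rj * rk) = (ri * rj) * (ri * rk) := by ring
    rw [e1, e2, e3] at this
    linarith
  have hri1 : ri = 1 := by nlinarith
  rw [hri] at hri1
  field_simp at hri1
  field_simp
  nlinarith [hri1]

end Pool.Agent.Berry
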