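import Pool.Agent.Berry.Defs

set_option autoImplicit false

namespace Pool.Agent.Berry

open Filter Topology

variable {ι : Type} [DecidableEq ι]

private theorem inner_sub_sq {p q : E} (hp : ‖p‖ = 1) (hq : ‖q‖ = 1) :
    ‖p - q‖ ^ 2 = 2 - 2 * inner ℝ p q := by
  rw [@norm_sub_sq_real, hp, hq]; ring

private theorem centre_dist {p q : E} (hp : ‖p‖ = 1) (hq : ‖q‖ = 1) (r s : ℝ) :
    ‖(1 + r) • p - (1 + s) • q‖ ^ 2 = (r - s) ^ 2 + (1 + r) * (1 + s) * ‖p - q‖ ^ 2 := by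
  rw [inner_sub_sq hp hq, @norm_sub_sq_real, norm_smul, norm_smul, hp, hq, real_inner_smul_left,
    real_inner_smul_right, mul_one, mul_one, Real.norm_eq_abs, Real.norm_eq_abs, sq_abs, sq_abs]
  ring

theorem bt_of_berry {F : Set (Finset ι)} {x : ι → E} (h : IsBerryTri F x) :
    ∃ u : ι → ℝ, BT F x u := by
  obtain ⟨c, r, hr, hx, hT, hE⟩ := h
  have hc : ∀ i, c i = (1 + r i) • x i := by
    intro i
    rw [hx i, hr.pit i, smul_smul, mul_inv_cancel₀ (by have := hr.pos i; positivity), one_smul]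
  have hd : ∀ i j, (dist (c i) (c j)) ^ 2 =
      (r i - r j) ^ 2 + (1 + r i) * (1 + r j) * ‖x i - x j‖ ^ 2 := by
    intro i j
    rw [dist_eq_norm, hc i, hc j, centre_dist (hT.unit i) (hT.unit j)]
  refine ⟨fun i => r i / (1 + r i), hT, fun i => ?_, fun i j hij => ?_, fun i j hij => ?_⟩
  · have := hr.pos i
    show 0 < r i / (1 + r i)
    positivity
  · have h1 := (disjoint_ball_ball_iff (hr.pos i) (hr.pos j)).1 (hr.disj i j hij)
    have h2 := hd i j
    have p1 := hr.pos i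
    have p2 := hr.pos j
    have h3 : (r i + r j) ^ 2 ≤ (dist (c i) (c j)) ^ 2 := by
      apply pow_le_pow_left₀ (by positivity) h1
    have h4 : 4 * (r i * r j) ≤ ‖x i - x j‖ ^ 2 * ((1 + r i) * (1 + r j)) := by nlinarith
    show 4 * (r i / (1 + r i)) * (r j / (1 + r j)) ≤ ‖x i - x j‖ ^ 2
    have h5 : 4 * (r i / (1 + r i)) * (r j / (1 + r j)) =
        4 * (r i * r j) / ((1 + r i) * (1 + r j)) := by
      field_simp
    rw [h5, div_le_iff₀ (by positivity)]
    exact h4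
  · have h1 := ((hE i j).1 hij).2
    have h2 := hd i j
    rw [h1] at h2
    have p1 := hr.pos i
    have p2 := hr.pos j
    have h4 : ‖x i - x j‖ ^ 2 * ((1 + r i) * (1 + r j)) = 4 * (r i * r j) := by nlinarith
    show ‖x i - x j‖ ^ 2 = 4 * (r i / (1 + r i)) * (r j / (1 + r j))
    have h5 : 4 * (r i / (1 + r i)) * (r j / (1 + r j)) =
        4 * (r i * r j) / ((1 + r i) * (1 + r j)) := by
      field_simp
    rw [h5, eq_div_iff (by positivity)]
    exact h4

theorem arc_lt_iff {p q p' q' : E} (hp : ‖p‖ = 1) (hq : ‖q‖ = 1) (hp' : ‖p'‖ = 1) (hq' : ‖q'‖ = 1) :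
    arc p q < arc p' q' ↔ ‖p - q‖ ^ 2 < ‖p' - q'‖ ^ 2 := by
  unfold arc InnerProductGeometry.angle
  rw [inner_sub_sq hp hq, inner_sub_sq hp' hq', hp, hq, hp', hq', mul_one, div_one, div_one]
  have b : ∀ {a b : E}, ‖a‖ = 1 → ‖b‖ = 1 → inner ℝ a b ∈ Set.Icc (-1 : ℝ) 1 := by
    intro a b ha hb
    have := abs_real_inner_le_norm a b
    rw [ha, hb, mul_one, abs_le] at this
    exact this
  rw [Real.strictAntiOn_arccos.lt_iff_gt (b hp hq) (b hp' hq')]
  constructor <;> intro h <;> linarith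

omit [DecidableEq ι] in
private theorem cone_map (e : E ≃ₗᵢ[ℝ] E) (x : ι → E) (s : Finset ι) :
    cone (fun i => e (x i)) s = e '' cone x s := by
  ext p
  constructor
  · rintro ⟨c, hc, rfl⟩
    refine ⟨∑ i ∈ s, c i • x i, ⟨c, hc, rfl⟩, ?_⟩
    simp [map_sum]
  · rintro ⟨q, ⟨c, hc, rfl⟩, rfl⟩
    refine ⟨c, hc, ?_⟩
    simp [map_sum]

theorem bt_isometry {F : Set (Finset ι)} {x : ι → E} {u : ι → ℝ} (e : E ≃ₗᵢ[ℝ] E) (h : BT F x u) :
    BT F (fun i => e (x i)) u := by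
  have hn : ∀ i j, ‖e (x i) - e (x j)‖ = ‖x i - x j‖ := by
    intro i j
    rw [← map_sub, LinearIsometryEquiv.norm_map]
  refine ⟨⟨fun i => ?_, h.tri.card, fun f hf => ?_, fun p hp => ?_, fun f hf g hg => ?_,
    h.tri.vert⟩, h.pos, fun i j hij => ?_, fun i j hij => ?_⟩
  · rw [LinearIsometryEquiv.norm_map]; exact h.tri.unit i
  · have h1 := h.tri.indep f hf
    exact h1.map' (e.toLinearEquiv : E →ₗ[ℝ] E) (LinearEquiv.ker _)
  · obtain ⟨f, hf, hpf⟩ := h.tri.cover (e.symm p) (by rw [LinearIsometryEquiv.norm_map]; exact hp)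
    refine ⟨f, hf, ?_⟩
    rw [cone_map]
    exact ⟨_, hpf, by simp⟩
  · rw [cone_map, cone_map, cone_map, ← Set.image_inter e.injective, h.tri.inter f hf g hg]
  · show 4 * u i * u j ≤ ‖e (x i) - e (x j)‖ ^ 2
    rw [hn]; exact h.far i j hij
  · show ‖e (x i) - e (x j)‖ ^ 2 = 4 * u i * u j
    rw [hn]; exact h.tan i j hij

/-- after an isometry no vertex is the north pole -/
theorem exists_isometry [Finite ι] (x : ι → E) (hx : ∀ i, ‖x i‖ = 1) :
    ∃ e : E ≃ₗᵢ[ℝ] E, ∀ i, e (x i) 2 ≠ 1 := by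
  have hnorm : ∀ p : E, ‖p‖ ^ 2 = p 0 ^ 2 + p 1 ^ 2 + p 2 ^ 2 := by
    intro p
    rw [EuclideanSpace.norm_sq_eq, Fin.sum_univ_three]
    simp
  obtain ⟨N, hN, hNx⟩ : ∃ N : E, ‖N‖ = 1 ∧ ∀ i, x i ≠ N := by
    let g : ℝ → E := fun t => !₂[Real.cos t, Real.sin t, 0]
    have hinj : Set.InjOn g (Set.Icc 0 Real.pi) := by
      intro s hs t ht hst
      have : (g s) 0 = (g t) 0 := by rw [hst]
      simp only [g] at this
      exact Real.injOn_cos hs ht (by simpa using this)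
    have hinf : (g '' (Set.Icc 0 Real.pi)).Infinite :=
      (Set.Icc_infinite Real.pi_pos).image hinj
    obtain ⟨N, hN1, hN2⟩ := hinf.exists_notMem_finite (Set.finite_range x)
    obtain ⟨t, -, rfl⟩ := hN1
    refine ⟨g t, ?_, fun i hi => hN2 ⟨i, hi⟩⟩
    have h1 : ‖g t‖ ^ 2 = 1 := by
      rw [hnorm]
      simp [g]
    have h0 := norm_nonneg (g t)
    nlinarith
  let P : E := !₂[0, 0, 1]
  have hP : ‖P‖ = 1 := by
    have h1 : ‖P‖ ^ 2 = 1 := by
      rw [hnorm]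
      simp [P]
    have h0 := norm_nonneg P
    nlinarith
  refine ⟨(Submodule.span ℝ {N - P})ᗮ.reflection, fun i hi => ?_⟩
  have h1 := Submodule.reflection_sub (v := N) (w := P) (by rw [hN, hP])
  set e := (Submodule.span ℝ {N - P})ᗮ.reflection with he
  have h2 : ‖e (x i)‖ ^ 2 = 1 := by rw [LinearIsometryEquiv.norm_map, hx i]; norm_num
  rw [hnorm, hi] at h2
  have h3 : e (x i) 0 = 0 := by nlinarith [sq_nonneg (e (x i) 0), sq_nonneg (e (x i) 1)]
  have h4 : e (x i) 1 = 0 := by nlinarith [sq_nonneg (e (x i) 0), sq_nonneg (e (x i) 1)]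
  have h5 : e (x i) = P := by
    ext k
    fin_cases k
    · simpa [P] using h3
    · simpa [P] using h4
    · simpa [P] using hi
  rw [← h1] at h5
  exact hNx i (e.injective h5)

end Pool.Agent.Berry
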