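import Pool.Agent.Berry.Defs

/-! Module GAUGE: the gauge function of the star shaped region bounded by the faces. -/

set_option autoImplicit false

namespace Pool.Agent.Berry

open Filter Topology

namespace Gauge

variable {ι : Type} [DecidableEq ι]

/-- the vertices of a face form a basis; the coordinates -/
theorem exists_coord {F : Set (Finset ι)} {x : ι → E} (h : IsTri F x) {f : Finset ι} (hf : f ∈ F) :
    ∃ b : Module.Basis f ℝ E, ∀ i : f, b i = x i := by
  classical
  have hcard : Fintype.card f = Module.finrank ℝ E := by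
    rw [Fintype.card_coe, h.card f hf]
    simp
  have : Nonempty f := by
    have : f.Nonempty := Finset.card_pos.1 (by rw [h.card f hf]; norm_num)
    exact this.to_subtype
  exact ⟨basisOfLinearIndependentOfCardEqFinrank (h.indep f hf) hcard, fun i => by
    rw [coe_basisOfLinearIndependentOfCardEqFinrank]⟩

/-- the cone of a face in coordinates -/
theorem cone_eq {x : ι → E} {f : Finset ι}
    (b : Module.Basis f ℝ E) (hb : ∀ i : f, b i = x i) :
    cone x f = {p | ∀ i : f, 0 ≤ b.repr p i} := by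
  ext p
  simp only [cone, Set.mem_ofPred_eq]
  constructor
  · rintro ⟨c, hc, rfl⟩ i
    have : ∑ j ∈ f, c j • x j = ∑ j : f, c j • b j := by
      rw [← Finset.sum_coe_sort f]
      exact Finset.sum_congr rfl (fun j _ => by rw [hb])
    rw [this, b.repr_sum_self (fun j : f => c j)]
    exact hc i
  · intro hp
    refine ⟨fun i => if hi : i ∈ f then b.repr p ⟨i, hi⟩ else 0, ?_, ?_⟩
    · intro i
      dsimp only
      split_ifs with hi
      · exact hp ⟨i, hi⟩
      · exact le_rfl
    · conv_lhs => rw [← b.sum_repr p]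
      rw [← Finset.sum_coe_sort f]
      refine Finset.sum_congr rfl (fun j _ => ?_)
      dsimp only
      rw [dif_pos j.2, hb]

theorem isClosed_cone {F : Set (Finset ι)} {x : ι → E} (h : IsTri F x) {f : Finset ι}
    (hf : f ∈ F) : IsClosed (cone x f) := by
  obtain ⟨b, hb⟩ := exists_coord h hf
  rw [cone_eq b hb]
  simp only [Set.ofPred_forall]
  refine isClosed_iInter (fun i => ?_)
  have hc : Continuous (b.coord i) := LinearMap.continuous_of_finiteDimensional _
  exact isClosed_le continuous_const hc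

theorem cover' {F : Set (Finset ι)} {x : ι → E} (h : IsTri F x) (p : E) :
    ∃ f ∈ F, p ∈ cone x f := by
  by_cases hp : p = 0
  · obtain ⟨f, hf, -⟩ := h.cover (EuclideanSpace.single 0 1) (by simp)
    exact ⟨f, hf, fun _ => 0, fun _ => le_rfl, by simp [hp]⟩
  · have hn : 0 < ‖p‖ := norm_pos_iff.2 hp
    obtain ⟨f, hf, c, hc, he⟩ := h.cover (‖p‖⁻¹ • p) (by
      rw [norm_smul, norm_inv, norm_norm, inv_mul_cancel₀ hn.ne'])
    refine ⟨f, hf, fun i => ‖p‖ * c i, fun i => mul_nonneg hn.le (hc i), ?_⟩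
    have h1 : ‖p‖ • (‖p‖⁻¹ • p) = p := by rw [smul_smul, mul_inv_cancel₀ hn.ne', one_smul]
    rw [he, Finset.smul_sum] at h1
    refine h1.symm.trans (Finset.sum_congr rfl (fun i _ => ?_))
    rw [smul_smul]

theorem exists_functional {F : Set (Finset ι)} {x : ι → E} (h : IsTri F x) (f : Finset ι)
    (hf : f ∈ F) : ∃ l : E →ₗ[ℝ] ℝ, ∀ i ∈ f, l (x i) = 1 := by
  obtain ⟨b, hb⟩ := exists_coord h hf
  refine ⟨b.constr ℝ (fun _ => (1 : ℝ)), fun i hi => ?_⟩
  rw [← hb ⟨i, hi⟩, b.constr_basis]

end Gauge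

open Gauge in
theorem exists_gauge {ι : Type} [DecidableEq ι] [Finite ι] {F : Set (Finset ι)} {x : ι → E}
    (h : IsTri F x) :
    ∃ G : E → ℝ, Continuous G ∧ ∀ f ∈ F, ∀ c : ι → ℝ, (∀ i, 0 ≤ c i) →
      G (∑ i ∈ f, c i • x i) = ∑ i ∈ f, c i := by
  classical
  choose l hl using exists_functional h
  choose φ hφF hφ using cover' h
  have key : ∀ (f : Finset ι) (hf : f ∈ F) (g : Finset ι) (hg : g ∈ F) (p : E),
      p ∈ cone x f → p ∈ cone x g → l f hf p = l g hg p := by
    intro f hf g hg p hpf hpg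
    have hp : p ∈ cone x (f ∩ g) := by
      rw [← h.inter f hf g hg]
      exact ⟨hpf, hpg⟩
    obtain ⟨c, -, rfl⟩ := hp
    rw [map_sum, map_sum]
    refine Finset.sum_congr rfl (fun i hi => ?_)
    rw [Finset.mem_inter] at hi
    rw [map_smul, map_smul, hl f hf i hi.1, hl g hg i hi.2]
  have hG : ∀ (f : Finset ι) (hf : f ∈ F) (p : E), p ∈ cone x f →
      l (φ p) (hφF p) p = l f hf p :=
    fun f hf p hp => key _ _ _ _ p (hφ p) hp
  refine ⟨fun p => l (φ p) (hφF p) p, ?_, ?_⟩
  · refine (locallyFinite_of_finite (fun f : F => cone x (f : Finset ι))).continuous ?_ ?_ ?_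
    · rw [Set.eq_univ_iff_forall]
      intro p
      rw [Set.mem_iUnion]
      exact ⟨⟨φ p, hφF p⟩, hφ p⟩
    · exact fun f => isClosed_cone h f.2
    · intro f
      have hc : Continuous (l f f.2) := LinearMap.continuous_of_finiteDimensional _
      exact hc.continuousOn.congr (fun p hp => hG f f.2 p hp)
  · intro f hf c hc
    dsimp only
    rw [hG f hf _ ⟨c, hc, rfl⟩, map_sum]
    refine Finset.sum_congr rfl (fun i hi => ?_)
    rw [map_smul, hl f hf i hi, smul_eq_mul, mul_one]

end Pool.Agent.Berry
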