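import Pool.Agent.Berry.Gen
import Pool.Agent.Berry.ADJ
import Pool.Agent.Berry.Gauge

/-!
# The chain of tetrahedra filling the star shaped region
-/

set_option autoImplicit false

namespace Pool.Agent.Berry

open Filter Topology

namespace ChainAux

variable {ι : Type} [DecidableEq ι]

/-- normal vector of the plane through three points -/
noncomputable def W (b c d : E) : E :=
  !₂[(b 1 * c 2 - b 2 * c 1) + (c 1 * d 2 - c 2 * d 1) + (d 1 * b 2 - d 2 * b 1),
     (b 2 * c 0 - b 0 * c 2) + (c 2 * d 0 - c 0 * d 2) + (d 2 * b 0 - d 0 * b 2),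
     (b 0 * c 1 - b 1 * c 0) + (c 0 * d 1 - c 1 * d 0) + (d 0 * b 1 - d 1 * b 0)]

/-- the affine function vanishing on the plane through three points -/
noncomputable def nn (b c d p : E) : ℝ := det3 (b - p) (c - p) (d - p)

lemma nn_eq (b c d p : E) : nn b c d p = det3 b c d - inner ℝ (W b c d) p := by
  unfold nn det3 W
  rw [PiLp.inner_apply, Fin.sum_univ_three]
  simp only [PiLp.sub_apply]
  simp
  ring

omit [DecidableEq ι] in
lemma vol_eq (x : ι → E) (a b c d : ι) : vol x a b c d = nn (x b) (x c) (x d) (x a) := rfl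

lemma nn_b (b c d : E) : nn b c d b = 0 := by
  unfold nn det3; simp

lemma nn_c (b c d : E) : nn b c d c = 0 := by
  unfold nn det3; simp

lemma nn_d (b c d : E) : nn b c d d = 0 := by
  unfold nn det3; simp

lemma nn_zero (b c d : E) : nn b c d 0 = det3 b c d := by
  unfold nn; simp

/-- every point lies in a face cone -/
lemma cover' {F : Set (Finset ι)} {x : ι → E} (h : IsTri F x) (p : E) :
    ∃ f ∈ F, ∃ c : ι → ℝ, (∀ i, 0 ≤ c i) ∧ p = ∑ i ∈ f, c i • x i := by
  by_cases hp : p = 0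
  · obtain ⟨f, hf, -⟩ := h.cover (EuclideanSpace.single 0 1) (by simp)
    exact ⟨f, hf, fun _ => 0, fun _ => le_rfl, by simp [hp]⟩
  · obtain ⟨f, hf, c, hc, he⟩ := h.cover (‖p‖⁻¹ • p) (by
      rw [norm_smul, norm_inv, norm_norm, inv_mul_cancel₀ (norm_ne_zero_iff.mpr hp)])
    refine ⟨f, hf, fun i => ‖p‖ * c i, fun i => mul_nonneg (norm_nonneg _) (hc i), ?_⟩
    have h1 : p = ‖p‖ • (‖p‖⁻¹ • p) := by
      rw [smul_smul, mul_inv_cancel₀ (norm_ne_zero_iff.mpr hp), one_smul]
    rw [he, Finset.smul_sum] at h1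
    simp only [smul_smul] at h1
    exact h1

/-- a nonzero linear functional takes positive values at some vertex -/
lemma exists_inner_pos {F : Set (Finset ι)} {x : ι → E} (h : IsTri F x) {w : E} (hw : w ≠ 0) :
    ∃ i, 0 < inner ℝ w (x i) := by
  by_contra hcon
  push Not at hcon
  obtain ⟨f, hf, c, hc, he⟩ := cover' h w
  have h1 : inner ℝ w (∑ i ∈ f, c i • x i) ≤ 0 := by
    rw [inner_sum]
    apply Finset.sum_nonpos
    intro i _
    rw [inner_smul_right]
    exact mul_nonpos_of_nonneg_of_nonpos (hc i) (hcon i)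
  rw [← he, real_inner_self_eq_norm_sq] at h1
  exact hw (norm_eq_zero.mp (by nlinarith [norm_nonneg w]))

/-- two supporting functions: a point of the boundary of the star shaped region inside the relative
interior of a supported simplex lies in a face containing this simplex -/
lemma face_of_gauge {F : Set (Finset ι)} {x : ι → E} {t : ι → ℝ} (h : IsTri F x)
    (hs : Supp F x t) {G : E → ℝ}
    (hG : ∀ f ∈ F, ∀ c : ι → ℝ, (∀ i, 0 ≤ c i) → G (∑ i ∈ f, c i • x i) = ∑ i ∈ f, c i)
    {s : Finset ι} (hss : SuppOn x t s) {m : ι → ℝ} (hm : ∀ i ∈ s, 0 < m i)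
    (hm1 : ∑ i ∈ s, m i = 1) (hp : G (∑ i ∈ s, m i • x i) = 1) : ∃ f ∈ F, s ⊆ f := by
  set p := ∑ i ∈ s, m i • x i with hpdef
  obtain ⟨f, hf, c, hc, he⟩ := cover' h p
  have hc1 : ∑ i ∈ f, c i = 1 := by
    rw [← hG f hf c hc, ← he, hp]
  obtain ⟨α, v, h1, h2⟩ := hs f hf
  obtain ⟨β, w, h3, h4⟩ := hss
  refine ⟨f, hf, ?_⟩
  -- evaluate the first function at `p`
  have e1 : α + inner ℝ v p = ∑ i ∈ f, c i * t i := by
    rw [he, inner_sum]
    have : ∑ i ∈ f, c i * t i = ∑ i ∈ f, c i * (α + inner ℝ v (x i)) :=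
      Finset.sum_congr rfl fun i hi => by rw [h1 i hi]
    rw [this]
    simp only [mul_add, Finset.sum_add_distrib, ← Finset.sum_mul, hc1, one_mul, inner_smul_right]
  have e2 : α + inner ℝ v p = ∑ i ∈ s, m i * (α + inner ℝ v (x i)) := by
    rw [hpdef, inner_sum]
    simp only [mul_add, Finset.sum_add_distrib, ← Finset.sum_mul, hm1, one_mul, inner_smul_right]
  have e3 : β + inner ℝ w p = ∑ i ∈ s, m i * t i := by
    rw [hpdef, inner_sum]
    have : ∑ i ∈ s, m i * t i = ∑ i ∈ s, m i * (β + inner ℝ w (x i)) :=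
      Finset.sum_congr rfl fun i hi => by rw [h3 i hi]
    rw [this]
    simp only [mul_add, Finset.sum_add_distrib, ← Finset.sum_mul, hm1, one_mul, inner_smul_right]
  have e4 : β + inner ℝ w p = ∑ i ∈ f, c i * (β + inner ℝ w (x i)) := by
    rw [he, inner_sum]
    simp only [mul_add, Finset.sum_add_distrib, ← Finset.sum_mul, hc1, one_mul, inner_smul_right]
  have g1 : ∀ i, t i ≤ α + inner ℝ v (x i) := by
    intro i
    by_cases hi : i ∈ f
    · rw [h1 i hi]
    · exact (h2 i hi).le
  have g2 : ∀ i, t i ≤ β + inner ℝ w (x i) := by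
    intro i
    by_cases hi : i ∈ s
    · rw [h3 i hi]
    · exact (h4 i hi).le
  have e5 : ∑ i ∈ f, c i * t i ≤ ∑ i ∈ s, m i * t i := by
    rw [← e3, e4]
    exact Finset.sum_le_sum fun i _ => mul_le_mul_of_nonneg_left (g2 i) (hc i)
  by_contra hsub
  obtain ⟨j, hj, hjf⟩ := Finset.not_subset.mp hsub
  have e6 : ∑ i ∈ s, m i * t i < ∑ i ∈ s, m i * (α + inner ℝ v (x i)) := by
    apply Finset.sum_lt_sum
    · intro i hi
      exact mul_le_mul_of_nonneg_left (g1 i) (hm i hi).le
    · exact ⟨j, hj, mul_lt_mul_of_pos_left (h2 j hjf) (hm j hj)⟩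
  rw [← e2, e1] at e6
  linarith

lemma lt_iff_of_ne {φ : ℝ → ℝ} {p q : ℝ} (hpq : p ≤ q) (hc : ContinuousOn φ (Set.Icc p q))
    (h : ∀ s ∈ Set.Icc p q, φ s ≠ 1) : φ p < 1 ↔ φ q < 1 := by
  constructor
  · intro h1
    by_contra h2
    push Not at h2
    obtain ⟨s, hs, he⟩ := intermediate_value_Icc hpq hc ⟨h1.le, h2⟩
    exact h s hs he
  · intro h1
    by_contra h2
    push Not at h2
    obtain ⟨s, hs, he⟩ := intermediate_value_Icc' hpq hc ⟨h1.le, h2⟩
    exact h s hs he

/-- barycentre of a triangle -/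
noncomputable def b3 (x : ι → E) (f : Finset ι) : E := ∑ i ∈ f, (1 / 3 : ℝ) • x i

/-- barycentre of a tetrahedron -/
noncomputable def b4 (x : ι → E) (f : Finset ι) (a : ι) : E :=
  (1 / 4 : ℝ) • x a + ∑ i ∈ f, (1 / 4 : ℝ) • x i

section Seg

variable {F : Set (Finset ι)} {x : ι → E} {t : ι → ℝ} (h : IsTri F x) (hs : Supp F x t)
  {G : E → ℝ} (hG : ∀ f ∈ F, ∀ c : ι → ℝ, (∀ i, 0 ≤ c i) →
    G (∑ i ∈ f, c i • x i) = ∑ i ∈ f, c i)
include h hs hG

lemma seg_ne {f : Finset ι} {a : ι} (ha : a ∉ f) (hf : f.card = 3)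
    (hS : SuppOn x t (insert a f)) {s : ℝ} (h0 : 0 < s) (h1 : s ≤ 1) :
    G ((1 - s) • b3 x f + s • b4 x f a) ≠ 1 := by
  intro hp
  have e1 : (1 - s) • b3 x f + s • b4 x f a =
      ∑ i ∈ insert a f, (if i = a then s / 4 else (1 - s) / 3 + s / 4) • x i := by
    rw [Finset.sum_insert ha, if_pos rfl]
    have : ∑ i ∈ f, (if i = a then s / 4 else (1 - s) / 3 + s / 4) • x i =
        ∑ i ∈ f, ((1 - s) / 3 + s / 4) • x i := by
      refine Finset.sum_congr rfl fun i hi => ?_
      rw [if_neg]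
      rintro rfl
      exact ha hi
    rw [this]
    unfold b3 b4
    simp only [← Finset.smul_sum, smul_add, smul_smul]
    module
  rw [e1] at hp
  obtain ⟨g, hg, hsub⟩ := face_of_gauge h hs hG hS (m := fun i =>
    if i = a then s / 4 else (1 - s) / 3 + s / 4) (by
      intro i _
      split_ifs
      · linarith
      · linarith) (by
      rw [Finset.sum_insert ha, if_pos rfl]
      have : ∑ i ∈ f, (if i = a then s / 4 else (1 - s) / 3 + s / 4) =
          ∑ i ∈ f, ((1 - s) / 3 + s / 4) := by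
        refine Finset.sum_congr rfl fun i hi => ?_
        rw [if_neg]
        rintro rfl
        exact ha hi
      rw [this, Finset.sum_const, hf]
      simp
      ring) hp
  have := Finset.card_le_card hsub
  rw [Finset.card_insert_of_notMem ha, hf, h.card g hg] at this
  omega

lemma tri_ne {f : Finset ι} (hf : f.card = 3) (hS : SuppOn x t f) (hF : f ∉ F) :
    G (b3 x f) ≠ 1 := by
  intro hp
  obtain ⟨g, hg, hsub⟩ := face_of_gauge h hs hG hS (m := fun _ => 1 / 3) (by
      intro i _; norm_num) (by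
      rw [Finset.sum_const, hf]; norm_num) hp
  have : f = g := Finset.eq_of_subset_of_card_le hsub (by rw [hf, h.card g hg])
  exact hF (this ▸ hg)

lemma seg_iff (hGc : Continuous G) {f : Finset ι} {a : ι} (ha : a ∉ f) (hf : f.card = 3)
    (hS : SuppOn x t (insert a f)) (hS3 : SuppOn x t f) (hF : f ∉ F) :
    G (b4 x f a) < 1 ↔ G (b3 x f) < 1 := by
  have h1 := lt_iff_of_ne (φ := fun s : ℝ => G ((1 - s) • b3 x f + s • b4 x f a)) zero_le_one
    (by apply Continuous.continuousOn; fun_prop) (by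
      intro s hs'
      rcases eq_or_lt_of_le hs'.1 with h0 | h0
      · simp only [← h0, sub_zero, one_smul, zero_smul, add_zero]
        exact tri_ne h hs hG hf hS3 hF
      · exact seg_ne h hs hG ha hf hS h0 hs'.2)
  simp only [sub_zero, one_smul, zero_smul, add_zero, sub_self, zero_add] at h1
  exact h1.symm

/-- the face case -/
lemma face_iff (hGc : Continuous G) {f : Finset ι} {a : ι} (ha : a ∉ f) (hf : f ∈ F)
    (hS : SuppOn x t (insert a f)) {l : ι → ℝ} (hl : x a = ∑ i ∈ f, l i • x i) :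
    G (b4 x f a) < 1 ↔ ∑ i ∈ f, l i < 1 := by
  -- small parameter
  obtain ⟨M, hM0, hM⟩ : ∃ M : ℝ, 0 < M ∧ ∀ i ∈ f, -M ≤ l i := by
    refine ⟨1 + ∑ i ∈ f, |l i|, by positivity, fun i hi => ?_⟩
    have e1 : |l i| ≤ ∑ i ∈ f, |l i| := Finset.single_le_sum (fun j _ => abs_nonneg (l j)) hi
    have e2 := neg_abs_le (l i)
    linarith
  set s0 : ℝ := 1 / (1 + M) with hs0
  have hs0p : 0 < s0 := by rw [hs0]; positivity
  have hs01 : s0 ≤ 1 := by
    rw [hs0, div_le_one (by linarith)]; linarith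
  have hcoef : ∀ i ∈ f, 0 ≤ (1 - s0) / 3 + s0 / 4 + s0 / 4 * l i := by
    intro i hi
    have h1 := hM i hi
    have h2 : s0 * (1 + M) = 1 := by rw [hs0]; field_simp
    have h3 : s0 / 4 * l i ≥ s0 / 4 * (-M) := by
      apply mul_le_mul_of_nonneg_left h1; linarith
    nlinarith
  have e1 : (1 - s0) • b3 x f + s0 • b4 x f a =
      ∑ i ∈ f, (if i ∈ f then (1 - s0) / 3 + s0 / 4 + s0 / 4 * l i else 0) • x i := by
    have : ∑ i ∈ f, (if i ∈ f then (1 - s0) / 3 + s0 / 4 + s0 / 4 * l i else 0) • x i =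
        ∑ i ∈ f, ((1 - s0) / 3 + s0 / 4 + s0 / 4 * l i) • x i :=
      Finset.sum_congr rfl fun i hi => by rw [if_pos hi]
    rw [this]
    unfold b3 b4
    rw [hl]
    simp only [Finset.smul_sum, smul_smul, ← Finset.sum_add_distrib, ← add_smul]
    refine Finset.sum_congr rfl fun i _ => ?_
    congr 1
    ring
  have e2 : G ((1 - s0) • b3 x f + s0 • b4 x f a) = 1 - s0 / 4 * (1 - ∑ i ∈ f, l i) := by
    rw [e1, hG f hf _ (by
      intro i
      split_ifs with hi
      · exact hcoef i hi
      · exact le_rfl)]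
    have : ∑ i ∈ f, (if i ∈ f then (1 - s0) / 3 + s0 / 4 + s0 / 4 * l i else 0) =
        ∑ i ∈ f, ((1 - s0) / 3 + s0 / 4 + s0 / 4 * l i) :=
      Finset.sum_congr rfl fun i hi => by rw [if_pos hi]
    rw [this, Finset.sum_add_distrib, Finset.sum_const, h.card f hf, ← Finset.mul_sum]
    simp
    ring
  have h1 := lt_iff_of_ne (φ := fun s : ℝ => G ((1 - s) • b3 x f + s • b4 x f a)) hs01
    (by apply Continuous.continuousOn; fun_prop) (by
      intro s hs'
      exact seg_ne h hs hG ha (h.card f hf) hS (lt_of_lt_of_le hs0p hs'.1) hs'.2)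
  simp only [sub_self, one_smul, zero_smul, zero_add] at h1
  rw [← h1, e2]
  constructor
  · intro h2
    by_contra h3
    push Not at h3
    have : s0 / 4 * (1 - ∑ i ∈ f, l i) ≤ 0 :=
      mul_nonpos_of_nonneg_of_nonpos (by linarith) (by linarith)
    linarith
  · intro h2
    have : 0 < s0 / 4 * (1 - ∑ i ∈ f, l i) := mul_pos (by linarith) (by linarith)
    linarith

end Seg

/-! ### Signs of volumes -/

omit [DecidableEq ι] in
lemma vol12 (x : ι → E) (a b c d : ι) : vol x b a c d = -vol x a b c d := by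
  unfold vol det3; simp only [PiLp.sub_apply]; ring

omit [DecidableEq ι] in
lemma vol23 (x : ι → E) (a b c d : ι) : vol x a c b d = -vol x a b c d := by
  unfold vol det3; simp only [PiLp.sub_apply]; ring

omit [DecidableEq ι] in
lemma vol34 (x : ι → E) (a b c d : ι) : vol x a b d c = -vol x a b c d := by
  unfold vol det3; simp only [PiLp.sub_apply]; ring

omit [DecidableEq ι] in
lemma vol_ne {x : ι → E} {a b c d : ι} (h : vol x a b c d ≠ 0) :
    a ≠ b ∧ a ≠ c ∧ a ≠ d ∧ b ≠ c ∧ b ≠ d ∧ c ≠ d := by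
  refine ⟨?_, ?_, ?_, ?_, ?_, ?_⟩ <;> (rintro rfl; apply h; unfold vol det3; simp; try ring)

lemma det3_swap (b c d : E) : det3 b d c = -det3 b c d := by
  unfold det3; ring

lemma notMem_of_vol {x : ι → E} {a b c d : ι} (h : vol x a b c d ≠ 0) :
    a ∉ ({b, c, d} : Finset ι) := by
  obtain ⟨h1, h2, h3, -⟩ := vol_ne h
  simp [h1, h2, h3]

lemma card_of_vol {x : ι → E} {a b c d : ι} (h : vol x a b c d ≠ 0) :
    ({b, c, d} : Finset ι).card = 3 := by
  obtain ⟨-, -, -, h4, h5, h6⟩ := vol_ne h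
  exact Finset.card_eq_three.mpr ⟨b, c, d, h4, h5, h6, rfl⟩

/-- a vertex on each side -/
lemma exists_side {F : Set (Finset ι)} {x : ι → E} (h : IsTri F x) {G : E → ℝ}
    (hG : ∀ f ∈ F, ∀ c : ι → ℝ, (∀ i, 0 ≤ c i) → G (∑ i ∈ f, c i • x i) = ∑ i ∈ f, c i)
    (hGc : Continuous G) {b c d : ι} (hw : W (x b) (x c) (x d) ≠ 0)
    (hlt : G (b3 x {b, c, d}) < 1) : ∃ e, 0 < vol x e b c d := by
  by_contra hcon
  push Not at hcon
  set w := W (x b) (x c) (x d) with hwdef
  set κ := det3 (x b) (x c) (x d) with hκ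
  have hn : ∀ p, nn (x b) (x c) (x d) p = κ - inner ℝ w p := fun p => nn_eq _ _ _ _
  have hx : ∀ e, κ ≤ inner ℝ w (x e) := by
    intro e
    have := hcon e
    rw [vol_eq, hn] at this
    linarith
  have hκ0 : κ ≤ 0 := by
    by_contra hpos
    push Not at hpos
    obtain ⟨i, hi⟩ := exists_inner_pos h (w := -w) (neg_ne_zero.mpr hw)
    rw [inner_neg_left] at hi
    have := hx i
    linarith
  -- all points of the region are on the negative side
  have hall : ∀ p, G p < 1 → κ - inner ℝ w p ≤ 0 := by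
    intro p hp
    obtain ⟨f, hf, m, hm, he⟩ := cover' h p
    have h1 : ∑ i ∈ f, m i < 1 := by rw [← hG f hf m hm, ← he]; exact hp
    rw [he, inner_sum]
    have h2 : ∑ i ∈ f, m i * κ ≤ ∑ i ∈ f, inner ℝ w (m i • x i) := by
      apply Finset.sum_le_sum
      intro i _
      rw [inner_smul_right]
      exact mul_le_mul_of_nonneg_left (hx i) (hm i)
    rw [← Finset.sum_mul] at h2
    nlinarith
  have hb3 : inner ℝ w (b3 x {b, c, d}) ≤ κ := by
    by_contra hlt2
    push Not at hlt2
    have hb : ∀ i ∈ ({b, c, d} : Finset ι), inner ℝ w (x i) = κ := by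
      intro i hi
      simp only [Finset.mem_insert, Finset.mem_singleton] at hi
      rcases hi with rfl | rfl | rfl
      · have := hn (x i); rw [nn_b] at this; linarith
      · have := hn (x i); rw [nn_c] at this; linarith
      · have := hn (x i); rw [nn_d] at this; linarith
    unfold b3 at hlt2
    rw [inner_sum] at hlt2
    have h3 : ∑ i ∈ ({b, c, d} : Finset ι), inner ℝ w ((1 / 3 : ℝ) • x i) =
        ∑ i ∈ ({b, c, d} : Finset ι), 1 / 3 * κ :=
      Finset.sum_congr rfl fun i hi => by rw [inner_smul_right, hb i hi]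
    rw [h3, Finset.sum_const, nsmul_eq_mul] at hlt2
    have h4 : ((({b, c, d} : Finset ι).card : ℕ) : ℝ) ≤ 3 := by exact_mod_cast Finset.card_le_three
    have h5 : (3:ℝ) * (1 / 3 * κ) ≤ (({b, c, d} : Finset ι).card : ℝ) * (1 / 3 * κ) :=
      mul_le_mul_of_nonpos_right h4 (by linarith)
    -- the other direction needs the card to be three; use the continuity argument instead
    have h6 : (({b, c, d} : Finset ι).card : ℝ) * (1 / 3 * κ) ≤ κ ∨
        ({b, c, d} : Finset ι).card ≠ 3 := by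
      by_cases h7 : ({b, c, d} : Finset ι).card = 3
      · left; rw [h7]; push_cast; linarith
      · right; exact h7
    rcases h6 with h6 | h6
    · linarith
    · apply h6
      apply Finset.card_eq_three.mpr
      refine ⟨b, c, d, ?_, ?_, ?_, rfl⟩ <;>
        (rintro rfl; apply hw; rw [hwdef]; unfold W; ext i; fin_cases i <;> simp <;> ring)
  -- move a little
  have hcont : ContinuousAt (fun s : ℝ => G (b3 x {b, c, d} - s • w)) 0 := by
    apply Continuous.continuousAt; fun_prop
  have hev : ∀ᶠ s in 𝓝[>] (0:ℝ), G (b3 x {b, c, d} - s • w) < 1 := by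
    have : ∀ᶠ s in 𝓝 (0:ℝ), G (b3 x {b, c, d} - s • w) < 1 := by
      apply hcont.eventually_lt_const
      simpa using hlt
    exact this.filter_mono nhdsWithin_le_nhds
  obtain ⟨s, hs1, hs2⟩ := (hev.and self_mem_nhdsWithin).exists
  have hs2' : 0 < s := hs2
  have h1 := hall _ hs1
  rw [inner_sub_right, inner_smul_right, real_inner_self_eq_norm_sq] at h1
  have h2 : 0 < s * ‖w‖ ^ 2 := mul_pos hs2' (by positivity)
  linarith

lemma exists_inner_side {F : Set (Finset ι)} {x : ι → E} (h : IsTri F x) {b c d : ι}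
    (hk : 0 < det3 (x b) (x c) (x d)) : ∃ e, 0 < vol x e b c d := by
  by_contra hcon
  push Not at hcon
  set w := W (x b) (x c) (x d) with hwdef
  set κ := det3 (x b) (x c) (x d) with hκ
  have hn : ∀ p, nn (x b) (x c) (x d) p = κ - inner ℝ w p := fun p => nn_eq _ _ _ _
  have hx : ∀ e, κ ≤ inner ℝ w (x e) := by
    intro e
    have := hcon e
    rw [vol_eq, hn] at this
    linarith
  have hw : w ≠ 0 := by
    intro h0
    have := hn (x b)
    rw [nn_b, h0, inner_zero_left] at this
    linarith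
  obtain ⟨i, hi⟩ := exists_inner_pos h (w := -w) (neg_ne_zero.mpr hw)
  rw [inner_neg_left] at hi
  have := hx i
  linarith

omit [DecidableEq ι] in
lemma W_ne {x : ι → E} {a b c d : ι} (h : vol x a b c d ≠ 0) : W (x b) (x c) (x d) ≠ 0 := by
  intro h0
  have h1 := nn_eq (x b) (x c) (x d) (x b)
  have h2 := nn_eq (x b) (x c) (x d) (x a)
  rw [nn_b, h0, inner_zero_left] at h1
  rw [← vol_eq, h0, inner_zero_left] at h2
  exact h (by linarith)

lemma b4_eq {x : ι → E} {f : Finset ι} {a : ι} (ha : a ∉ f) :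
    b4 x f a = ∑ i ∈ insert a f, (1 / 4 : ℝ) • x i := by
  rw [Finset.sum_insert ha]
  rfl

lemma det3_ne {F : Set (Finset ι)} {x : ι → E} (h : IsTri F x) {b c d : ι}
    (hF : ({b, c, d} : Finset ι) ∈ F) : det3 (x b) (x c) (x d) ≠ 0 := by
  have hcard := h.card _ hF
  have hbc : b ≠ c := by
    rintro rfl
    rw [Finset.insert_eq_of_mem (by simp)] at hcard
    have := Finset.card_le_two (a := b) (b := d)
    omega
  have hbd : b ≠ d := by
    rintro rfl
    rw [Finset.insert_eq_of_mem (by simp)] at hcard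
    have := Finset.card_le_two (a := c) (b := b)
    omega
  have hcd : c ≠ d := by
    rintro rfl
    rw [Finset.pair_eq_singleton] at hcard
    have := Finset.card_le_two (a := b) (b := c)
    omega
  have hp : ∀ p : E, ∃ α β γ : ℝ, p = α • x b + β • x c + γ • x d := by
    intro p
    obtain ⟨bs, hbs⟩ := Gauge.exists_coord h hF
    set l : ι → ℝ := fun i => if hi : i ∈ ({b, c, d} : Finset ι) then bs.repr p ⟨i, hi⟩ else 0
      with hl
    have hxa : p = ∑ i ∈ ({b, c, d} : Finset ι), l i • x i := by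
      rw [← Finset.sum_coe_sort]
      conv_lhs => rw [← bs.sum_repr p]
      refine Finset.sum_congr rfl fun i _ => ?_
      rw [hbs i]
      simp only [hl, i.2, dif_pos]
    refine ⟨l b, l c, l d, ?_⟩
    rw [hxa, Finset.sum_insert (by simp [hbc, hbd]), Finset.sum_insert (by simp [hcd]),
      Finset.sum_singleton, add_assoc]
  obtain ⟨a1, a2, a3, ha⟩ := hp (EuclideanSpace.single 0 1)
  obtain ⟨b1, b2, b3, hb⟩ := hp (EuclideanSpace.single 1 1)
  obtain ⟨c1, c2, c3, hc⟩ := hp (EuclideanSpace.single 2 1)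
  intro h0
  have e1 : det3 (EuclideanSpace.single 0 1) (EuclideanSpace.single 1 1)
      (EuclideanSpace.single 2 1) = 1 := by
    unfold det3; simp
  have e2 : det3 (a1 • x b + a2 • x c + a3 • x d) (b1 • x b + b2 • x c + b3 • x d)
      (c1 • x b + c2 • x c + c3 • x d) = (a1 * (b2 * c3 - b3 * c2) - a2 * (b1 * c3 - b3 * c1) +
        a3 * (b1 * c2 - b2 * c1)) * det3 (x b) (x c) (x d) := by
    unfold det3
    simp only [PiLp.add_apply, PiLp.smul_apply, smul_eq_mul]
    ring
  rw [← ha, ← hb, ← hc, e1, h0, mul_zero] at e2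
  exact one_ne_zero e2

/-- the ordered quadruple belongs to the chain -/
def Tet (x : ι → E) (t : ι → ℝ) (G : E → ℝ) (a b c d : ι) : Prop :=
  vol x a b c d ≠ 0 ∧ SuppOn x t {a, b, c, d} ∧
    G (∑ i ∈ ({a, b, c, d} : Finset ι), (1 / 4 : ℝ) • x i) < 1

lemma set12 (a b c d : ι) : ({b, a, c, d} : Finset ι) = {a, b, c, d} := Finset.insert_comm _ _ _

lemma set23 (a b c d : ι) : ({a, c, b, d} : Finset ι) = {a, b, c, d} := by
  rw [Finset.insert_comm c b]

lemma set34 (a b c d : ι) : ({a, b, d, c} : Finset ι) = {a, b, c, d} := by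
  rw [Finset.pair_comm d c]

lemma tet12 {x : ι → E} {t : ι → ℝ} {G : E → ℝ} {a b c d : ι} :
    Tet x t G b a c d ↔ Tet x t G a b c d := by
  unfold Tet
  rw [set12 a b c d, vol12, neg_ne_zero]

lemma tet23 {x : ι → E} {t : ι → ℝ} {G : E → ℝ} {a b c d : ι} :
    Tet x t G a c b d ↔ Tet x t G a b c d := by
  unfold Tet
  rw [set23 a b c d, vol23, neg_ne_zero]

lemma tet34 {x : ι → E} {t : ι → ℝ} {G : E → ℝ} {a b c d : ι} :
    Tet x t G a b d c ↔ Tet x t G a b c d := by
  unfold Tet
  rw [set34 a b c d, vol34, neg_ne_zero]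

open Classical in
/-- the chain -/
noncomputable def om (x : ι → E) (t : ι → ℝ) (G : E → ℝ) (a b c d : ι) : ℝ :=
  if Tet x t G a b c d then ((SignType.sign (vol x a b c d) : SignType) : ℝ) else 0

lemma om_pos' {x : ι → E} {t : ι → ℝ} {G : E → ℝ} {a b c d : ι} (h : Tet x t G a b c d)
    (hv : 0 < vol x a b c d) : om x t G a b c d = 1 := by
  unfold om
  rw [if_pos h, sign_pos hv]
  simp

lemma om_neg' {x : ι → E} {t : ι → ℝ} {G : E → ℝ} {a b c d : ι} (h : Tet x t G a b c d)
    (hv : vol x a b c d < 0) : om x t G a b c d = -1 := by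
  unfold om
  rw [if_pos h, sign_neg hv]
  simp

lemma om_zero' {x : ι → E} {t : ι → ℝ} {G : E → ℝ} {a b c d : ι} (h : ¬ Tet x t G a b c d) :
    om x t G a b c d = 0 := by
  unfold om
  rw [if_neg h]

lemma tet_of_om {x : ι → E} {t : ι → ℝ} {G : E → ℝ} {a b c d : ι} (h : om x t G a b c d ≠ 0) :
    Tet x t G a b c d := by
  by_contra h'
  exact h (om_zero' h')

lemma om_swap12 (x : ι → E) (t : ι → ℝ) (G : E → ℝ) (a b c d : ι) :
    om x t G b a c d = -om x t G a b c d := by
  unfold om
  by_cases h : Tet x t G a b c d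
  · rw [if_pos h, if_pos (tet12.mpr h), vol12, Left.sign_neg]
    simp
  · rw [if_neg h, if_neg (fun h' => h (tet12.mp h')), neg_zero]

lemma om_swap23 (x : ι → E) (t : ι → ℝ) (G : E → ℝ) (a b c d : ι) :
    om x t G a c b d = -om x t G a b c d := by
  unfold om
  by_cases h : Tet x t G a b c d
  · rw [if_pos h, if_pos (tet23.mpr h), vol23, Left.sign_neg]
    simp
  · rw [if_neg h, if_neg (fun h' => h (tet23.mp h')), neg_zero]

lemma om_swap34 (x : ι → E) (t : ι → ℝ) (G : E → ℝ) (a b c d : ι) :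
    om x t G a b d c = -om x t G a b c d := by
  unfold om
  by_cases h : Tet x t G a b c d
  · rw [if_pos h, if_pos (tet34.mpr h), vol34, Left.sign_neg]
    simp
  · rw [if_neg h, if_neg (fun h' => h (tet34.mp h')), neg_zero]

section Main

variable [Fintype ι] {F : Set (Finset ι)} {x : ι → E} {t : ι → ℝ} (h : IsTri F x)
  (hs : Supp F x t) (hg : Generic x t) {G : E → ℝ}
  (hG : ∀ f ∈ F, ∀ c : ι → ℝ, (∀ i, 0 ≤ c i) → G (∑ i ∈ f, c i • x i) = ∑ i ∈ f, c i)
  (hGc : Continuous G)
include h hs hg hG hGc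

lemma kap0_pos {a0 b c d : ι} (hF : ({b, c, d} : Finset ι) ∉ F) (ht : Tet x t G a0 b c d)
    (hv : 0 < vol x a0 b c d) : ∑ a, om x t G a b c d = 0 := by
  have hS3 : SuppOn x t {b, c, d} := suppOn_face ht.1 ht.2.1
  have hcard := card_of_vol ht.1
  have ha0 := notMem_of_vol ht.1
  have hb3 : G (b3 x {b, c, d}) < 1 := by
    rw [← seg_iff h hs hG hGc ha0 hcard ht.2.1 hS3 hF, b4_eq ha0]
    exact ht.2.2
  -- the other side
  have hset : ({b, d, c} : Finset ι) = {b, c, d} := by rw [Finset.pair_comm d c]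
  have hv' : vol x a0 b d c ≠ 0 := by rw [vol34]; exact neg_ne_zero.mpr ht.1
  obtain ⟨a1, hv1, hS1⟩ := adj_exists hg (b := b) (c := d) (d := c) (by rw [hset]; exact hS3)
    (exists_side h hG hGc (W_ne hv') (by rw [hset]; exact hb3))
  have hv1' : vol x a1 b c d < 0 := by
    have := vol34 x a1 b c d
    linarith
  have ha1 := notMem_of_vol hv1'.ne
  have hS1' : SuppOn x t {a1, b, c, d} := by rw [← set34]; exact hS1
  have ht1 : Tet x t G a1 b c d := by
    refine ⟨hv1'.ne, hS1', ?_⟩
    have := (seg_iff h hs hG hGc ha1 hcard hS1' hS3 hF).mpr hb3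
    rwa [b4_eq ha1] at this
  have hne : a0 ≠ a1 := by
    rintro rfl
    linarith
  rw [Finset.sum_eq_add a0 a1 hne]
  · rw [om_pos' ht hv, om_neg' ht1 hv1']; norm_num
  · intro a _ ⟨h1, h2⟩
    apply om_zero'
    intro hta
    rcases lt_or_gt_of_ne hta.1 with h3 | h3
    · apply h2
      apply adj_unique (x := x) (t := t) (a := a) (a' := a1) (b := b) (c := d) (d := c)
      · rw [vol34]; linarith
      · exact hv1
      · rw [set34]; exact hta.2.1
      · exact hS1
    · exact h1 (adj_unique h3 hv hta.2.1 ht.2.1)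
  · intro h1; exact absurd (Finset.mem_univ a0) h1
  · intro h1; exact absurd (Finset.mem_univ a1) h1

lemma kap1_pos {b c d : ι} (hF : ({b, c, d} : Finset ι) ∈ F)
    (hk : 0 < det3 (x b) (x c) (x d)) : ∑ a, om x t G a b c d = 1 := by
  have hS3 : SuppOn x t {b, c, d} := hs _ hF
  obtain ⟨a0, hv0, hS0⟩ := adj_exists hg hS3 (exists_inner_side h hk)
  -- coordinates with respect to the face
  have key : ∀ a, vol x a b c d ≠ 0 → SuppOn x t {a, b, c, d} →
      (G (∑ i ∈ ({a, b, c, d} : Finset ι), (1 / 4 : ℝ) • x i) < 1 ↔ 0 < vol x a b c d) := by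
    intro a hv hS
    have ha := notMem_of_vol hv
    obtain ⟨bs, hbs⟩ := Gauge.exists_coord h hF
    set l : ι → ℝ := fun i => if hi : i ∈ ({b, c, d} : Finset ι) then bs.repr (x a) ⟨i, hi⟩ else 0
      with hl
    have hxa : x a = ∑ i ∈ ({b, c, d} : Finset ι), l i • x i := by
      rw [← Finset.sum_coe_sort]
      conv_lhs => rw [← bs.sum_repr (x a)]
      refine Finset.sum_congr rfl fun i _ => ?_
      rw [hbs i]
      simp only [hl, i.2, dif_pos]
    have h1 := face_iff h hs hG hGc ha hF hS hxa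
    rw [b4_eq ha] at h1
    rw [show ({a, b, c, d} : Finset ι) = insert a {b, c, d} from rfl, h1]
    have hb : ∀ i ∈ ({b, c, d} : Finset ι), inner ℝ (W (x b) (x c) (x d)) (x i) =
        det3 (x b) (x c) (x d) := by
      intro i hi
      simp only [Finset.mem_insert, Finset.mem_singleton] at hi
      rcases hi with rfl | rfl | rfl
      · have := nn_eq (x i) (x c) (x d) (x i); rw [nn_b] at this; linarith
      · have := nn_eq (x b) (x i) (x d) (x i); rw [nn_c] at this; linarith
      · have := nn_eq (x b) (x c) (x i) (x i); rw [nn_d] at this; linarith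
    have h2 : vol x a b c d = det3 (x b) (x c) (x d) * (1 - ∑ i ∈ ({b, c, d} : Finset ι), l i) := by
      rw [vol_eq, nn_eq]
      conv_lhs => rw [hxa]
      rw [inner_sum]
      have : ∑ i ∈ ({b, c, d} : Finset ι), inner ℝ (W (x b) (x c) (x d)) (l i • x i) =
          ∑ i ∈ ({b, c, d} : Finset ι), l i * det3 (x b) (x c) (x d) :=
        Finset.sum_congr rfl fun i hi => by rw [inner_smul_right, hb i hi]
      rw [this, ← Finset.sum_mul]
      ring
    rw [h2]
    constructor
    · intro h3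
      exact mul_pos hk (by linarith)
    · intro h3
      by_contra h4
      push Not at h4
      have : det3 (x b) (x c) (x d) * (1 - ∑ i ∈ ({b, c, d} : Finset ι), l i) ≤ 0 :=
        mul_nonpos_of_nonneg_of_nonpos hk.le (by linarith)
      linarith
  have ht0 : Tet x t G a0 b c d := ⟨hv0.ne', hS0, (key a0 hv0.ne' hS0).mpr hv0⟩
  rw [Finset.sum_eq_single a0]
  · exact om_pos' ht0 hv0
  · intro a _ hne
    apply om_zero'
    intro hta
    have h3 := (key a hta.1 hta.2.1).mp hta.2.2
    exact hne (adj_unique h3 hv0 hta.2.1 hS0)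
  · intro h1; exact absurd (Finset.mem_univ a0) h1

lemma isChain : Chain F x (om x t G) := by
  refine ⟨om_swap12 x t G, om_swap23 x t G, om_swap34 x t G, ?_, ?_, ?_⟩
  · intro a b c d ho
    have ht := tet_of_om ho
    rcases lt_or_gt_of_ne ht.1 with h3 | h3
    · rw [om_neg' ht h3]; linarith
    · rw [om_pos' ht h3]; linarith
  · intro b c d hF
    by_cases hall : ∀ a, om x t G a b c d = 0
    · exact Finset.sum_eq_zero fun a _ => hall a
    · push Not at hall
      obtain ⟨a0, ha0⟩ := hall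
      have ht := tet_of_om ha0
      rcases lt_or_gt_of_ne ht.1 with h3 | h3
      · have hset : ({b, d, c} : Finset ι) = {b, c, d} := by rw [Finset.pair_comm d c]
        have h4 := kap0_pos h hs hg hG hGc (a0 := a0) (b := b) (c := d) (d := c)
          (by rw [hset]; exact hF) (tet34.mpr ht) (by rw [vol34]; linarith)
        have h5 : ∑ a, om x t G a b d c = -∑ a, om x t G a b c d := by
          rw [← Finset.sum_neg_distrib]
          exact Finset.sum_congr rfl fun a _ => om_swap34 x t G a b c d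
        linarith
      · exact kap0_pos h hs hg hG hGc hF ht h3
  · intro b c d hF
    have hk : det3 (x b) (x c) (x d) ≠ 0 := det3_ne h hF
    rcases lt_or_gt_of_ne hk with h3 | h3
    · have hset : ({b, d, c} : Finset ι) = {b, c, d} := by rw [Finset.pair_comm d c]
      have h4 := kap1_pos h hs hg hG hGc (b := b) (c := d) (d := c)
          (by rw [hset]; exact hF) (by rw [det3_swap]; linarith)
      have h5 : ∑ a, om x t G a b d c = -∑ a, om x t G a b c d := by
        rw [← Finset.sum_neg_distrib]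
        exact Finset.sum_congr rfl fun a _ => om_swap34 x t G a b c d
      rw [sign_neg h3]
      simp only [SignType.coe_neg_one]
      linarith
    · rw [kap1_pos h hs hg hG hGc hF h3, sign_pos h3]
      simp

end Main

end ChainAux

theorem exists_chain {ι : Type} [DecidableEq ι] [Fintype ι] {F : Set (Finset ι)} {x : ι → E}
    {u : ι → ℝ} (h : IsTri F x) (hs : Supp F x u) :
    ∃ om : ι → ι → ι → ι → ℝ, Chain F x om := by
  obtain ⟨t, hst, hg⟩ := exists_generic h hs
  obtain ⟨G, hGc, hG⟩ := exists_gauge h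
  exact ⟨ChainAux.om x t G, ChainAux.isChain h hst hg hG hGc⟩

end Pool.Agent.Berry
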