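import Pool.Agent.Berry.Defs

/-!
# Berry triangulations: the faces have supporting affine functions
-/

set_option autoImplicit false

namespace Pool.Agent.Berry

variable {ι : Type} [DecidableEq ι]

theorem supp_of_bt [Finite ι] {F : Set (Finset ι)} {x : ι → E} {u : ι → ℝ} (h : BT F x u) :
    Supp F x u := by
  intro f hf
  have hin : ∀ i l, inner ℝ (x i) (x l) = 1 - ‖x i - x l‖ ^ 2 / 2 := by
    intro i l
    rw [norm_sub_sq_real, h.tri.unit i, h.tri.unit l]
    ring
  have key : ∀ l, (1 / 4) * ∑ i ∈ f, (u i)⁻¹ + inner ℝ ((-(1 / 4 : ℝ)) • ∑ i ∈ f, (u i)⁻¹ • x i) (x l)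
      = ∑ i ∈ f, ‖x i - x l‖ ^ 2 / (8 * u i) := by
    intro l
    rw [real_inner_smul_left, sum_inner, Finset.mul_sum, Finset.mul_sum, ← Finset.sum_add_distrib]
    refine Finset.sum_congr rfl fun i _ => ?_
    rw [real_inner_smul_left, hin]
    have := (h.pos i).ne'
    field_simp
    ring
  refine ⟨(1 / 4) * ∑ i ∈ f, (u i)⁻¹, (-(1 / 4 : ℝ)) • ∑ i ∈ f, (u i)⁻¹ • x i,
    fun l hl => ?_, fun l hl => ?_⟩
  · rw [key l, ← Finset.add_sum_erase f _ hl]
    have h1 : ∀ i ∈ f.erase l, ‖x i - x l‖ ^ 2 / (8 * u i) = u l / 2 := by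
      intro i hi
      obtain ⟨hil, hif⟩ := Finset.mem_erase.mp hi
      rw [h.tan i l ⟨hil, f, hf, hif, hl⟩]
      have := (h.pos i).ne'
      field_simp
      ring
    rw [Finset.sum_congr rfl h1, Finset.sum_const, Finset.card_erase_of_mem hl, h.tri.card f hf, sub_self, norm_zero, nsmul_eq_mul]
    push_cast
    ring
  · rw [key l]
    have h1 : ∀ i ∈ f, u l / 2 ≤ ‖x i - x l‖ ^ 2 / (8 * u i) := by
      intro i hi
      have hil : i ≠ l := fun e => hl (e ▸ hi)
      have h2 := h.far i l hil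
      have h3 := h.pos i
      rw [le_div_iff₀ (by positivity)]
      linarith
    have h2 := Finset.card_nsmul_le_sum f (fun i => ‖x i - x l‖ ^ 2 / (8 * u i)) (u l / 2) h1
    rw [h.tri.card f hf, nsmul_eq_mul] at h2
    have h3 := h.pos l
    push_cast at h2
    linarith

end Pool.Agent.Berry
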