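import Mathlib

/-!
# Berry triangulations (MP_0c5066_co): definitions
-/

set_option autoImplicit false

namespace Pool.Agent.Berry

/-- Euclidean space of dimension three. -/
abbrev E := EuclideanSpace ℝ (Fin 3)

section

variable {ι : Type} [DecidableEq ι]

/-- The convex cone with apex `0` spanned by the points `x i`, `i ∈ s`.  If `s` has three elements
and these points are linearly independent unit vectors, then the set of unit vectors in this cone is
the spherical triangle with the vertices `x i`. -/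
def cone (x : ι → E) (s : Finset ι) : Set E :=
  {p | ∃ c : ι → ℝ, (∀ i, 0 ≤ c i) ∧ p = ∑ i ∈ s, c i • x i}

/-- `F` is the set of (vertex sets of) faces of a geodesic triangulation of the unit sphere with the
vertices `x i`. -/
structure IsTri (F : Set (Finset ι)) (x : ι → E) : Prop where
  unit : ∀ i, ‖x i‖ = 1
  card : ∀ f ∈ F, f.card = 3
  indep : ∀ f ∈ F, LinearIndependent ℝ (fun i : f => x i)
  cover : ∀ p : E, ‖p‖ = 1 → ∃ f ∈ F, p ∈ cone x f
  inter : ∀ f ∈ F, ∀ g ∈ F, cone x f ∩ cone x g = cone x (f ∩ g)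
  vert : ∀ i, ∃ f ∈ F, i ∈ f

/-- `{i, j}` is an edge of the triangulation. -/
def IsEdge (F : Set (Finset ι)) (i j : ι) : Prop := i ≠ j ∧ ∃ f ∈ F, i ∈ f ∧ j ∈ f

/-- A raspberry: the berries are the spheres with centres `c i` and radii `r i`; each of them is
tangent to the unit sphere (the pit) from outside, and the interiors of the berries are pairwise
disjoint. -/
structure IsRaspberry (c : ι → E) (r : ι → ℝ) : Prop where
  pos : ∀ i, 0 < r i
  pit : ∀ i, ‖c i‖ = 1 + r i
  disj : ∀ i j, i ≠ j → Disjoint (Metric.ball (c i) (r i)) (Metric.ball (c j) (r j))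

/-- The berries `i` and `j` touch each other. -/
def Tangent (c : ι → E) (r : ι → ℝ) (i j : ι) : Prop := i ≠ j ∧ dist (c i) (c j) = r i + r j

/-- The triangulation with face set `F` and vertices `x i` is a berry triangulation: the vertices
are the central projections of the centres of the berries of a raspberry, and the edges are exactly
the pairs of tangent berries. -/
def IsBerryTri (F : Set (Finset ι)) (x : ι → E) : Prop :=
  ∃ (c : ι → E) (r : ι → ℝ), IsRaspberry c r ∧ (∀ i, x i = (‖c i‖)⁻¹ • c i) ∧ IsTri F x ∧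
    ∀ i j, IsEdge F i j ↔ Tangent c r i j

/-- The length of the great circle arc between two unit vectors. -/
noncomputable def arc (p q : E) : ℝ := InnerProductGeometry.angle p q

/-- Internal form of a berry triangulation: `u i = r i / (1 + r i)`. -/
structure BT (F : Set (Finset ι)) (x : ι → E) (u : ι → ℝ) : Prop where
  tri : IsTri F x
  pos : ∀ i, 0 < u i
  far : ∀ i j, i ≠ j → 4 * u i * u j ≤ ‖x i - x j‖ ^ 2
  tan : ∀ i j, IsEdge F i j → ‖x i - x j‖ ^ 2 = 4 * u i * u j

/-- Determinant of three vectors. -/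
def det3 (a b c : E) : ℝ :=
  a 0 * (b 1 * c 2 - b 2 * c 1) - a 1 * (b 0 * c 2 - b 2 * c 0) + a 2 * (b 0 * c 1 - b 1 * c 0)

/-- Six times the signed volume of the tetrahedron with vertices `x a`, `x b`, `x c`, `x d`. -/
def vol (x : ι → E) (a b c d : ι) : ℝ := det3 (x b - x a) (x c - x a) (x d - x a)

/-- There is an affine function with the value `t i` at `x i` for `i ∈ s`, and larger than `t l` at
`x l` for all other `l`. -/
def SuppOn (x : ι → E) (t : ι → ℝ) (s : Finset ι) : Prop :=
  ∃ (α : ℝ) (v : E), (∀ i ∈ s, α + inner ℝ v (x i) = t i) ∧ ∀ l, l ∉ s → t l < α + inner ℝ v (x l)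

/-- Every face of the triangulation has a supporting affine function. -/
def Supp (F : Set (Finset ι)) (x : ι → E) (t : ι → ℝ) : Prop := ∀ f ∈ F, SuppOn x t f

/-- The heights `t` are generic. -/
def Generic (x : ι → E) (t : ι → ℝ) : Prop :=
  ∀ a b c d e, vol x a b c d ≠ 0 → e ≠ a → e ≠ b → e ≠ c → e ≠ d → ∀ (α : ℝ) (v : E),
    (∀ i ∈ ({a, b, c, d} : Finset ι), α + inner ℝ v (x i) = t i) → α + inner ℝ v (x e) ≠ t e

/-- The chain of positively oriented tetrahedra filling the star shaped region bounded by the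
faces, as an antisymmetric function on ordered quadruples. -/
structure Chain [Fintype ι] (F : Set (Finset ι)) (x : ι → E) (om : ι → ι → ι → ι → ℝ) : Prop where
  swap12 : ∀ a b c d, om b a c d = - om a b c d
  swap23 : ∀ a b c d, om a c b d = - om a b c d
  swap34 : ∀ a b c d, om a b d c = - om a b c d
  pos : ∀ a b c d, om a b c d ≠ 0 → 0 < om a b c d * vol x a b c d
  kap0 : ∀ b c d, ({b, c, d} : Finset ι) ∉ F → ∑ a, om a b c d = 0
  kap1 : ∀ b c d, ({b, c, d} : Finset ι) ∈ F → ∑ a, om a b c d = SignType.sign (det3 (x b) (x c) (x d))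

end

/-- Stereographic projection from the north pole `(0,0,1)`. -/
noncomputable def zz (p : E) : ℂ := ((p 0 : ℂ) + (p 1 : ℂ) * Complex.I) / (1 - (p 2 : ℂ))

/-- A Moebius transformation, given by its coefficients. -/
structure Mob where
  α : ℂ
  β : ℂ
  γ : ℂ
  δ : ℂ
  det_ne : α * δ - β * γ ≠ 0

/-- The Moebius transformation maps `a` to `a'`. -/
def Mob.Fits (m : Mob) (a a' : ℂ) : Prop := m.α * a + m.β = a' * (m.γ * a + m.δ)

/-- The normalised Hermitian form `ψ ↦ |M ψ|² / |det M|` at `ψ = (z, 1)`. -/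
noncomputable def Mob.H (m : Mob) (z : ℂ) : ℝ :=
  (‖m.α * z + m.β‖ ^ 2 + ‖m.γ * z + m.δ‖ ^ 2) / ‖m.α * m.δ - m.β * m.γ‖

end Pool.Agent.Berry
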