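import Pool.Agent.Berry.Defs

set_option autoImplicit false

namespace Pool.Agent.Berry

open Filter Topology

variable {ι : Type} [DecidableEq ι]

namespace Gen

theorem inner3 (v p : E) : inner ℝ v p = v 0 * p 0 + v 1 * p 1 + v 2 * p 2 := by
  rw [PiLp.inner_apply]
  simp [Fin.sum_univ_three]
  ring

/-- three linear conditions with nonzero determinant force `v = 0` -/
theorem zero_of_det3 {v p q r : E} (h : det3 p q r ≠ 0) (hp : inner ℝ v p = 0)
    (hq : inner ℝ v q = 0) (hr : inner ℝ v r = 0) : v = 0 := by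
  rw [inner3] at hp hq hr
  unfold det3 at h
  have h0 : v 0 * (p 0 * (q 1 * r 2 - q 2 * r 1) - p 1 * (q 0 * r 2 - q 2 * r 0)
      + p 2 * (q 0 * r 1 - q 1 * r 0)) = 0 := by
    linear_combination (q 1 * r 2 - q 2 * r 1) * hp + (p 2 * r 1 - p 1 * r 2) * hq
      + (p 1 * q 2 - p 2 * q 1) * hr
  have h1 : v 1 * (p 0 * (q 1 * r 2 - q 2 * r 1) - p 1 * (q 0 * r 2 - q 2 * r 0)
      + p 2 * (q 0 * r 1 - q 1 * r 0)) = 0 := by
    linear_combination (q 2 * r 0 - q 0 * r 2) * hp + (p 0 * r 2 - p 2 * r 0) * hq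
      + (p 2 * q 0 - p 0 * q 2) * hr
  have h2 : v 2 * (p 0 * (q 1 * r 2 - q 2 * r 1) - p 1 * (q 0 * r 2 - q 2 * r 0)
      + p 2 * (q 0 * r 1 - q 1 * r 0)) = 0 := by
    linear_combination (q 0 * r 1 - q 1 * r 0) * hp + (p 1 * r 0 - p 0 * r 1) * hq
      + (p 0 * q 1 - p 1 * q 0) * hr
  ext i
  fin_cases i
  · simpa using (mul_eq_zero.mp h0).resolve_right h
  · simpa using (mul_eq_zero.mp h1).resolve_right h
  · simpa using (mul_eq_zero.mp h2).resolve_right h

/-- the heights on `s` that are interpolated by an affine function -/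
def W (x : ι → E) (s : Finset ι) : Submodule ℝ (ι → ℝ) where
  carrier := {t | ∃ (α : ℝ) (v : E), ∀ i ∈ s, α + inner ℝ v (x i) = t i}
  zero_mem' := ⟨0, 0, by simp⟩
  add_mem' := by
    rintro t t' ⟨α, v, h⟩ ⟨α', v', h'⟩
    refine ⟨α + α', v + v', fun i hi => ?_⟩
    rw [inner_add_left, Pi.add_apply, ← h i hi, ← h' i hi]
    ring
  smul_mem' := by
    rintro c t ⟨α, v, h⟩
    refine ⟨c * α, c • v, fun i hi => ?_⟩
    rw [real_inner_smul_left, Pi.smul_apply, ← h i hi, smul_eq_mul]
    ring

theorem W_ne_top {x : ι → E} {a b c d e : ι} (hv : vol x a b c d ≠ 0) (ha : e ≠ a) (hb : e ≠ b)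
    (hc : e ≠ c) (hd : e ≠ d) : W x {a, b, c, d, e} ≠ ⊤ := by
  intro htop
  have hm : (Pi.single e 1 : ι → ℝ) ∈ W x {a, b, c, d, e} := by rw [htop]; trivial
  obtain ⟨α, v, h⟩ := hm
  have h_a := h a (by simp)
  have h_b := h b (by simp)
  have h_c := h c (by simp)
  have h_d := h d (by simp)
  have h_e := h e (by simp)
  rw [Pi.single_eq_of_ne (Ne.symm ha)] at h_a
  rw [Pi.single_eq_of_ne (Ne.symm hb)] at h_b
  rw [Pi.single_eq_of_ne (Ne.symm hc)] at h_c
  rw [Pi.single_eq_of_ne (Ne.symm hd)] at h_d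
  rw [Pi.single_eq_same] at h_e
  have hv0 : v = 0 := by
    refine zero_of_det3 hv ?_ ?_ ?_
    · rw [inner_sub_right]; linarith
    · rw [inner_sub_right]; linarith
    · rw [inner_sub_right]; linarith
  rw [hv0, inner_zero_left] at h_a h_e
  linarith

/-- a dual basis for the vertices of a face -/
theorem exists_dual {F : Set (Finset ι)} {x : ι → E} (h : IsTri F x) {f : Finset ι} (hf : f ∈ F) :
    ∃ w : ι → E, ∀ i ∈ f, ∀ j ∈ f, inner ℝ (w i) (x j) = if i = j then (1 : ℝ) else 0 := by
  classical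
  have hc : Fintype.card f = Module.finrank ℝ E := by
    rw [Fintype.card_coe, h.card f hf, finrank_euclideanSpace_fin]
  have hne : Nonempty f := by
    rw [← Fintype.card_pos_iff, Fintype.card_coe, h.card f hf]
    norm_num
  let b := basisOfLinearIndependentOfCardEqFinrank (h.indep f hf) hc
  have hb : ∀ j : f, b j = x j := fun j => by
    simp [b]
  refine ⟨fun i => if hi : i ∈ f then (InnerProductSpace.toDual ℝ E).symm
    (LinearMap.toContinuousLinearMap (b.coord ⟨i, hi⟩)) else 0, fun i hi j hj => ?_⟩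
  beta_reduce
  rw [dif_pos hi, InnerProductSpace.toDual_symm_apply]
  rw [LinearMap.coe_toContinuousLinearMap', ← hb ⟨j, hj⟩, Module.Basis.coord_apply,
    Module.Basis.repr_self, Finsupp.single_apply]
  by_cases hij : i = j
  · subst hij; simp
  · rw [if_neg hij, if_neg]
    intro h'
    exact hij (congrArg Subtype.val h').symm

theorem suppOn_nhds [Finite ι] {F : Set (Finset ι)} {x : ι → E} {u : ι → ℝ} (h : IsTri F x)
    {f : Finset ι} (hf : f ∈ F) (hs : SuppOn x u f) : ∀ᶠ t in 𝓝 u, SuppOn x t f := by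
  obtain ⟨w, hw⟩ := exists_dual h hf
  obtain ⟨α, v, h1, h2⟩ := hs
  let V : (ι → ℝ) → E := fun t => v + ∑ i ∈ f, (t i - u i) • w i
  have hVc : Continuous V := by
    refine continuous_const.add (continuous_finsetSum _ fun i _ => ?_)
    exact ((continuous_apply i).sub continuous_const).smul continuous_const
  have hVu : V u = v := by simp [V]
  have hev : ∀ᶠ t in 𝓝 u, ∀ l, l ∉ f → t l < α + inner ℝ (V t) (x l) := by
    rw [Filter.eventually_all]
    intro l
    by_cases hl : l ∈ f
    · filter_upwards with t hl'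
      exact absurd hl hl'
    · have hlt : u l < α + inner ℝ (V u) (x l) := by rw [hVu]; exact h2 l hl
      have hco : Continuous fun t : ι → ℝ => α + inner ℝ (V t) (x l) :=
        continuous_const.add (hVc.inner continuous_const)
      filter_upwards [(continuous_apply l).continuousAt.eventually_lt hco.continuousAt hlt]
        with t ht _
      exact ht
  filter_upwards [hev] with t ht
  refine ⟨α, V t, fun j hj => ?_, ht⟩
  have : inner ℝ (∑ i ∈ f, (t i - u i) • w i) (x j) = t j - u j := by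
    rw [sum_inner]
    rw [Finset.sum_eq_single j]
    · rw [real_inner_smul_left, hw j hj j hj, if_pos rfl, mul_one]
    · intro i hi hij
      rw [real_inner_smul_left, hw i hi j hj, if_neg hij, mul_zero]
    · intro hj'; exact absurd hj hj'
  simp only [V]
  rw [inner_add_left, this]
  linarith [h1 j hj]

end Gen

open Gen in
theorem exists_generic [Finite ι] {F : Set (Finset ι)} {x : ι → E} {u : ι → ℝ} (h : IsTri F x)
    (hs : Supp F x u) : ∃ t : ι → ℝ, Supp F x t ∧ Generic x t := by
  classical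
  have := Fintype.ofFinite ι
  have h1 : ∀ᶠ t in 𝓝 u, Supp F x t := by
    have : ∀ f : Finset ι, ∀ᶠ t in 𝓝 u, f ∈ F → SuppOn x t f := by
      intro f
      by_cases hf : f ∈ F
      · filter_upwards [suppOn_nhds h hf (hs f hf)] with t ht _
        exact ht
      · filter_upwards with t hf'
        exact absurd hf' hf
    exact (Filter.eventually_all.mpr this)
  let S : ι × ι × ι × ι × ι → Set (ι → ℝ) := fun q =>
    if W x {q.1, q.2.1, q.2.2.1, q.2.2.2.1, q.2.2.2.2} = ⊤ then Set.univ
    else ((W x {q.1, q.2.1, q.2.2.1, q.2.2.2.1, q.2.2.2.2} : Submodule ℝ (ι → ℝ)) : Set (ι → ℝ))ᶜ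
  have hopen : ∀ q, IsOpen (S q) := by
    intro q
    simp only [S]
    split_ifs
    · exact isOpen_univ
    · exact (Submodule.closed_of_finiteDimensional _).isOpen_compl
  have hdense : ∀ q, Dense (S q) := by
    intro q
    simp only [S]
    split_ifs with hq
    · exact dense_univ
    · rw [← interior_eq_empty_iff_dense_compl]
      by_contra hne
      exact hq (Submodule.eq_top_of_nonempty_interior' _ (Set.nonempty_iff_ne_empty.mpr hne))
  have hD := dense_iInter_of_isOpen hopen hdense
  obtain ⟨t, ht1, ht2⟩ := (hD.inter_nhds_nonempty h1)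
  refine ⟨t, ht2, ?_⟩
  intro a b c d e hv ha hb hc hd α v hi he
  have hmem := Set.mem_iInter.mp ht1 (a, b, c, d, e)
  simp only [S] at hmem
  rw [if_neg (W_ne_top hv ha hb hc hd)] at hmem
  apply hmem
  refine ⟨α, v, fun i hi' => ?_⟩
  simp only [Finset.mem_insert, Finset.mem_singleton] at hi'
  rcases hi' with rfl | rfl | rfl | rfl | rfl
  · exact hi _ (by simp)
  · exact hi _ (by simp)
  · exact hi _ (by simp)
  · exact hi _ (by simp)
  · exact he

end Pool.Agent.Berry
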