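import Pool.Agent.Berry.Defs

set_option autoImplicit false

namespace Pool.Agent.Berry

namespace Het

theorem aux {n p q r : E} (hn : ‖n‖ = 1) (hp : ‖p‖ = 1) (hq : ‖q‖ = 1) (hr : ‖r‖ = 1)
    (hqr : q ≠ r) {α β γ : ℝ} (hα : 0 ≤ α) (hβ : 0 ≤ β) (hγ : 0 ≤ γ)
    (h : -n = α • p + (β • q + γ • r)) (ha : inner ℝ n p < 0)
    (h1 : 0 ≤ inner ℝ n p + inner ℝ n q) (h2 : 0 ≤ inner ℝ n p + inner ℝ n r) : False := by
  set a := inner ℝ n p with ha'
  set b := inner ℝ n q with hb'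
  set c := inner ℝ n r with hc'
  have e1 : -1 = α * a + (β * b + γ * c) := by
    have : inner ℝ n (-n) = α * a + (β * b + γ * c) := by
      rw [h, inner_add_right, inner_add_right, inner_smul_right, inner_smul_right,
        inner_smul_right]
    rw [inner_neg_right, real_inner_self_eq_norm_sq, hn] at this
    linarith
  have e2 : ‖β • q + γ • r‖ ≤ β + γ := by
    refine (norm_add_le _ _).trans ?_
    rw [norm_smul, norm_smul, hq, hr, Real.norm_of_nonneg hβ, Real.norm_of_nonneg hγ]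
    linarith
  have e3 : β • q + γ • r = -(n + α • p) := by
    rw [neg_add, h]; abel
  have e4 : ‖n + α • p‖ ^ 2 = 1 + 2 * (α * a) + α ^ 2 := by
    rw [norm_add_sq_real, inner_smul_right, norm_smul, hn, hp, Real.norm_of_nonneg hα]
    ring
  have e5 : 1 + 2 * (α * a) + α ^ 2 ≤ (β + γ) ^ 2 := by
    rw [← e4, ← norm_neg, ← e3]
    exact pow_le_pow_left₀ (norm_nonneg _) e2 2
  have e6 : (-a) * (β + γ) ≤ α * (-a) - 1 := by nlinarith
  have e7 : 0 ≤ (-a) * (β + γ) := mul_nonneg (by linarith) (by linarith)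
  have e8 : ((-a) * (β + γ)) ^ 2 ≤ (α * (-a) - 1) ^ 2 := pow_le_pow_left₀ e7 e6 2
  have e9 : (-a) ^ 2 * (1 + 2 * (α * a) + α ^ 2) ≤ (α * (-a) - 1) ^ 2 := by
    refine le_trans ?_ e8
    rw [mul_pow]
    exact mul_le_mul_of_nonneg_left e5 (sq_nonneg _)
  have e10 : 0 ≤ (1 - a ^ 2) * (1 - 2 * (α * (-a))) := by nlinarith
  have e11 : 1 ≤ α * (-a) := by linarith
  have e12 : 1 ≤ a ^ 2 := by
    by_contra hcon
    push Not at hcon
    nlinarith
  have e13 : a ≤ -1 := by nlinarith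
  have hb1 : b ≤ 1 := by
    have := real_inner_le_norm n q
    rw [hn, hq] at this
    linarith
  have hc1 : c ≤ 1 := by
    have := real_inner_le_norm n r
    rw [hn, hr] at this
    linarith
  have hb2 : b = 1 := by linarith
  have hc2 : c = 1 := by linarith
  have q1 : n = q := (inner_eq_one_iff_of_norm_eq_one hn hq).1 hb2
  have q2 : n = r := (inner_eq_one_iff_of_norm_eq_one hn hr).1 hc2
  exact hqr (q1.symm.trans q2)

end Het

variable {ι : Type} [DecidableEq ι]

theorem het_short {F : Set (Finset ι)} {x : ι → E} (h : IsTri F x) (p0 : ℝ) (v : E)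
    (hv : p0 ^ 2 - ‖v‖ ^ 2 = 1) (h0 : 0 < p0) (hne : v ≠ 0) :
    ∃ i j, IsEdge F i j ∧ 1 < (p0 - inner ℝ v (x i)) * (p0 - inner ℝ v (x j)) := by
  have hs : 0 < ‖v‖ := norm_pos_iff.2 hne
  set n : E := ‖v‖⁻¹ • v with hn'
  have hn : ‖n‖ = 1 := by
    rw [hn', norm_smul, norm_inv, norm_norm, inv_mul_cancel₀ hs.ne']
  have hvn : v = ‖v‖ • n := by
    rw [hn', smul_smul, mul_inv_cancel₀ hs.ne', one_smul]
  obtain ⟨f, hf, c, hc0, hc⟩ := h.cover (-n) (by rw [norm_neg, hn])
  have key : ∃ i ∈ f, ∃ j ∈ f, i ≠ j ∧ inner ℝ n (x i) + inner ℝ n (x j) < 0 := by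
    by_contra hcon
    push Not at hcon
    have e1 : ∑ i ∈ f, c i * inner ℝ n (x i) = -1 := by
      have : inner ℝ n (-n) = ∑ i ∈ f, c i * inner ℝ n (x i) := by
        rw [hc, inner_sum]
        exact Finset.sum_congr rfl fun i _ => inner_smul_right _ _ _
      rw [inner_neg_right, real_inner_self_eq_norm_sq, hn] at this
      linarith
    obtain ⟨j, hj, hj2⟩ : ∃ j ∈ f, inner ℝ n (x j) < 0 := by
      by_contra hcon2
      push Not at hcon2
      have := Finset.sum_nonneg fun i hi => mul_nonneg (hc0 i) (hcon2 i hi)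
      linarith
    have h3 := h.card f hf
    have h4 : (f.erase j).card = 2 := by rw [Finset.card_erase_of_mem hj, h3]
    obtain ⟨k, l, hkl, hkl2⟩ := Finset.card_eq_two.1 h4
    have hk : k ∈ f.erase j := by rw [hkl2]; simp
    have hl : l ∈ f.erase j := by rw [hkl2]; simp
    rw [Finset.mem_erase] at hk hl
    have hxkl : x k ≠ x l := by
      intro he
      have hinj := (h.indep f hf).injective
      have := @hinj ⟨k, hk.2⟩ ⟨l, hl.2⟩ he
      exact hkl (congrArg Subtype.val this)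
    have hsum : -n = c j • x j + (c k • x k + c l • x l) := by
      rw [hc, ← Finset.add_sum_erase f _ hj, hkl2, Finset.sum_pair hkl]
    exact Het.aux hn (h.unit j) (h.unit k) (h.unit l) hxkl (hc0 j) (hc0 k) (hc0 l) hsum hj2
      (hcon j hj k hk.2 hk.1.symm) (hcon j hj l hl.2 hl.1.symm)
  obtain ⟨i, hi, j, hj, hij, hneg⟩ := key
  refine ⟨i, j, ⟨hij, f, hf, hi, hj⟩, ?_⟩
  have hi1 : inner ℝ v (x i) = ‖v‖ * inner ℝ n (x i) := by
    conv_lhs => rw [hvn]
    rw [real_inner_smul_left]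
  have hj1 : inner ℝ v (x j) = ‖v‖ * inner ℝ n (x j) := by
    conv_lhs => rw [hvn]
    rw [real_inner_smul_left]
  rw [hi1, hj1]
  have hai : |inner ℝ n (x i)| ≤ 1 := by
    have := abs_real_inner_le_norm n (x i)
    rwa [hn, h.unit i, one_mul] at this
  have haj : |inner ℝ n (x j)| ≤ 1 := by
    have := abs_real_inner_le_norm n (x j)
    rwa [hn, h.unit j, one_mul] at this
  set a := inner ℝ n (x i)
  set b := inner ℝ n (x j)
  rw [abs_le] at hai haj
  have h5 : 0 ≤ 1 + a * b := by nlinarith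
  have h6 : 0 < ‖v‖ * p0 * (-(a + b)) := mul_pos (mul_pos hs h0) (by linarith)
  have h7 : 0 ≤ ‖v‖ ^ 2 * (1 + a * b) := mul_nonneg (sq_nonneg _) h5
  nlinarith

end Pool.Agent.Berry
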