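import Pool.Agent.Berry.Defs

/-!
# Berry triangulations: logarithms of quotients of nearby configurations
-/

set_option autoImplicit false

namespace Pool.Agent.Berry

open Filter Topology

variable {ι : Type} [DecidableEq ι]

namespace Near

lemma norm_sq_eq (p : E) : ‖p‖ ^ 2 = p 0 ^ 2 + p 1 ^ 2 + p 2 ^ 2 := by
  rw [EuclideanSpace.real_norm_sq_eq, Fin.sum_univ_three]

lemma zz_re (p : E) (hp2 : p 2 ≠ 1) : p 0 = (zz p).re * (1 - p 2) := by
  have h : (1 - (p 2 : ℂ)) = ((1 - p 2 : ℝ) : ℂ) := by push_cast; rfl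
  have h0 : 1 - p 2 ≠ 0 := sub_ne_zero.mpr (Ne.symm hp2)
  rw [zz, h, Complex.div_ofReal_re]
  simp [h0]

lemma zz_im (p : E) (hp2 : p 2 ≠ 1) : p 1 = (zz p).im * (1 - p 2) := by
  have h : (1 - (p 2 : ℂ)) = ((1 - p 2 : ℝ) : ℂ) := by push_cast; rfl
  have h0 : 1 - p 2 ≠ 0 := sub_ne_zero.mpr (Ne.symm hp2)
  rw [zz, h, Complex.div_ofReal_im]
  simp [h0]

lemma zz_inj {p q : E} (hp : ‖p‖ = 1) (hq : ‖q‖ = 1) (hp2 : p 2 ≠ 1) (hq2 : q 2 ≠ 1)
    (h : zz p = zz q) : p = q := by
  have hp' : 1 - p 2 ≠ 0 := sub_ne_zero.mpr (Ne.symm hp2)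
  have hq' : 1 - q 2 ≠ 0 := sub_ne_zero.mpr (Ne.symm hq2)
  have a0 := zz_re p hp2
  have a1 := zz_im p hp2
  have b0 := zz_re q hq2
  have b1 := zz_im q hq2
  rw [h] at a0 a1
  have np := norm_sq_eq p
  have nq := norm_sq_eq q
  rw [hp] at np
  rw [hq] at nq
  set s := (zz q).re
  set t := (zz q).im
  have e1 : (s ^ 2 + t ^ 2) * (1 - p 2) = 1 + p 2 := by
    apply mul_right_cancel₀ hp'
    rw [a0, a1] at np
    linear_combination -np
  have e2 : (s ^ 2 + t ^ 2) * (1 - q 2) = 1 + q 2 := by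
    apply mul_right_cancel₀ hq'
    rw [b0, b1] at nq
    linear_combination -nq
  have e3 : p 2 = q 2 := by
    linear_combination (1 / 2) * (1 - p 2) * e2 - (1 / 2) * (1 - q 2) * e1
  have e4 : p 0 = q 0 := by rw [a0, b0, e3]
  have e5 : p 1 = q 1 := by rw [a1, b1, e3]
  ext i
  fin_cases i
  · exact e4
  · exact e5
  · exact e3

omit [DecidableEq ι] in
lemma cont_coord (i : ι) (k : Fin 3) : Continuous (fun x' : ι → E => x' i k) := by
  fun_prop

omit [DecidableEq ι] in
lemma zz_contAt (x : ι → E) (i : ι) (h : x i 2 ≠ 1) :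
    ContinuousAt (fun x' : ι → E => zz (x' i)) x := by
  unfold zz
  apply ContinuousAt.div
  · exact ((Complex.continuous_ofReal.comp (cont_coord i 0)).add
      ((Complex.continuous_ofReal.comp (cont_coord i 1)).mul continuous_const)).continuousAt
  · exact (continuous_const.sub (Complex.continuous_ofReal.comp (cont_coord i 2))).continuousAt
  · intro h3
    apply h
    have h4 : (x i 2 : ℂ) = ((1 : ℝ) : ℂ) := by
      rw [Complex.ofReal_one]
      linear_combination -h3
    exact Complex.ofReal_injective h4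

end Near

open Near

/-- For `x'` near `x` the logarithms `L a b` exist with small imaginary part. -/
theorem near_log [Finite ι] {x : ι → E} (hx : ∀ i, ‖x i‖ = 1) (hinj : Function.Injective x)
    (hx2 : ∀ i, x i 2 ≠ 1) :
    ∀ᶠ x' : ι → E in 𝓝 x, (∀ i, ‖x' i‖ = 1) → (∀ i, x' i 2 ≠ 1) ∧
      ∃ L : ι → ι → ℂ, (∀ a b, L b a = L a b) ∧ (∀ a b, |(L a b).im| < Real.pi / 4) ∧
        ∀ a b, a ≠ b → zz (x' b) - zz (x' a) = (zz (x b) - zz (x a)) * Complex.exp (L a b) := by
  have hne : ∀ a b, a ≠ b → zz (x b) - zz (x a) ≠ 0 := by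
    intro a b hab h
    exact hab (hinj (zz_inj (hx a) (hx b) (hx2 a) (hx2 b) (sub_eq_zero.mp h).symm))
  have h1 : ∀ i, ∀ᶠ x' : ι → E in 𝓝 x, x' i 2 ≠ 1 := fun i =>
    (cont_coord i 2).continuousAt.eventually_ne (hx2 i)
  have h2 : ∀ a b, a ≠ b → Tendsto (fun x' : ι → E =>
      (zz (x' b) - zz (x' a)) / (zz (x b) - zz (x a))) (𝓝 x) (𝓝 1) := by
    intro a b hab
    have h3 : Tendsto (fun x' : ι → E => (zz (x' b) - zz (x' a)) / (zz (x b) - zz (x a)))
        (𝓝 x) (𝓝 ((zz (x b) - zz (x a)) / (zz (x b) - zz (x a)))) :=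
      ((zz_contAt x b (hx2 b)).sub (zz_contAt x a (hx2 a))).tendsto.div_const _
    rwa [div_self (hne a b hab)] at h3
  have h3 : ∀ a b, ∀ᶠ x' : ι → E in 𝓝 x, a ≠ b →
      (zz (x' b) - zz (x' a)) / (zz (x b) - zz (x a)) ≠ 0 ∧
      |(Complex.log ((zz (x' b) - zz (x' a)) / (zz (x b) - zz (x a)))).im| < Real.pi / 4 := by
    intro a b
    by_cases hab : a = b
    · exact Eventually.of_forall fun _ h => absurd hab h
    · have h4 := (h2 a b hab).eventually_ne one_ne_zero
      have h5 : Tendsto (fun x' : ι → E =>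
          |(Complex.log ((zz (x' b) - zz (x' a)) / (zz (x b) - zz (x a)))).im|) (𝓝 x) (𝓝 0) := by
        have h6 := (h2 a b hab).clog Complex.one_mem_slitPlane
        have h7 := ((Complex.continuous_im.tendsto _).comp h6).abs
        simpa using h7
      have h6 := h5.eventually (gt_mem_nhds (by positivity : (0 : ℝ) < Real.pi / 4))
      filter_upwards [h4, h6] with x' e1 e2 _
      exact ⟨e1, e2⟩
  filter_upwards [eventually_all.mpr h1, eventually_all.mpr fun a => eventually_all.mpr (h3 a)]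
    with x' e1 e2 _
  refine ⟨e1, fun a b => if a = b then 0 else
    Complex.log ((zz (x' b) - zz (x' a)) / (zz (x b) - zz (x a))), fun a b => ?_, fun a b => ?_,
    fun a b hab => ?_⟩
  · by_cases hab : a = b
    · subst hab; rfl
    · simp only [if_neg hab, if_neg (Ne.symm hab)]
      rw [← neg_sub (zz (x' b)), ← neg_sub (zz (x b)), neg_div_neg_eq]
  · by_cases hab : a = b
    · simp only [if_pos hab, Complex.zero_im, abs_zero]
      positivity
    · simp only [if_neg hab]
      exact (e2 a b hab).2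
  · simp only [if_neg hab]
    rw [Complex.exp_log (e2 a b hab).1, mul_div_cancel₀ _ (hne a b hab)]

/-- orientation is preserved nearby -/
theorem near_vol [Finite ι] (x : ι → E) :
    ∀ᶠ x' : ι → E in 𝓝 x, ∀ a b c d, 0 < vol x a b c d → 0 < vol x' a b c d := by
  rw [eventually_all]
  intro a
  rw [eventually_all]
  intro b
  rw [eventually_all]
  intro c
  rw [eventually_all]
  intro d
  by_cases h : 0 < vol x a b c d
  · have hc : Continuous (fun x' : ι → E => vol x' a b c d) := by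
      unfold vol det3
      simp only [PiLp.sub_apply]
      have h0 := fun i => cont_coord (ι := ι) i 0
      have h1 := fun i => cont_coord (ι := ι) i 1
      have h2 := fun i => cont_coord (ι := ι) i 2
      fun_prop
    filter_upwards [hc.continuousAt.eventually (lt_mem_nhds h)] with x' hx' _
    exact hx'
  · exact Eventually.of_forall fun _ h' => absurd h' h

end Pool.Agent.Berry
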