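import Pool.Agent.Berry.Defs

/-! Module RIG: the combinatorial core of the rigidity argument. -/

set_option autoImplicit false

namespace Pool.Agent.Berry

open Filter Topology

variable {ι : Type} [DecidableEq ι]

namespace Rig

/-- sum over all ordered quadruples -/
def S4 [Fintype ι] (g : ι → ι → ι → ι → ℝ) : ℝ := ∑ a, ∑ b, ∑ c, ∑ d, g a b c d

omit [DecidableEq ι] in
theorem S4_swap12 [Fintype ι] (g : ι → ι → ι → ι → ℝ) :
    S4 (fun a b c d => g b a c d) = S4 g := by
  unfold S4
  rw [Finset.sum_comm]

omit [DecidableEq ι] in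
theorem S4_swap23 [Fintype ι] (g : ι → ι → ι → ι → ℝ) :
    S4 (fun a b c d => g a c b d) = S4 g := by
  unfold S4
  refine Finset.sum_congr rfl fun a _ => ?_
  rw [Finset.sum_comm]

omit [DecidableEq ι] in
theorem S4_swap34 [Fintype ι] (g : ι → ι → ι → ι → ℝ) :
    S4 (fun a b c d => g a b d c) = S4 g := by
  unfold S4
  refine Finset.sum_congr rfl fun a _ => Finset.sum_congr rfl fun b _ => ?_
  rw [Finset.sum_comm]

omit [DecidableEq ι] in
theorem S4_add [Fintype ι] (g g' : ι → ι → ι → ι → ℝ) :
    S4 (fun a b c d => g a b c d + g' a b c d) = S4 g + S4 g' := by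
  unfold S4
  simp only [Finset.sum_add_distrib]

omit [DecidableEq ι] in
theorem S4_mul [Fintype ι] (r : ℝ) (g : ι → ι → ι → ι → ℝ) :
    S4 (fun a b c d => r * g a b c d) = r * S4 g := by
  unfold S4
  simp only [Finset.mul_sum]

section chain

variable [Fintype ι] {F : Set (Finset ι)} {x : ι → E} {om : ι → ι → ι → ι → ℝ}

theorem om_ne (hC : Chain F x om) {a b c d : ι} (h : om a b c d ≠ 0) :
    a ≠ b ∧ a ≠ c ∧ a ≠ d ∧ b ≠ c ∧ b ≠ d ∧ c ≠ d := by
  have key : ∀ a c d, om a a c d = 0 := fun a c d => by
    have := hC.swap12 a a c d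
    linarith
  have h12 := hC.swap12 a b c d
  have h23 := hC.swap23 a b c d
  have h34 := hC.swap34 a b c d
  refine ⟨?_, ?_, ?_, ?_, ?_, ?_⟩
  · rintro rfl
    exact h (key a c d)
  · rintro rfl
    have := key a b d
    apply h
    linarith
  · rintro rfl
    have h1 := hC.swap23 a b a c
    have := key a b c
    apply h
    linarith
  · rintro rfl
    apply h
    linarith
  · rintro rfl
    have h1 := hC.swap23 a b b c
    apply h
    linarith
  · rintro rfl
    apply h
    linarith

/-- the sum over the last argument vanishes, except on faces -/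
theorem sum4 (hC : Chain F x om) {a b c : ι} (h : ({a, b, c} : Finset ι) ∉ F) :
    ∑ d, om a b c d = 0 := by
  have h1 := hC.kap0 a b c h
  have h2 : ∑ d, om a b c d = - ∑ d, om d a b c := by
    rw [← Finset.sum_neg_distrib]
    refine Finset.sum_congr rfl fun d _ => ?_
    have e1 := hC.swap34 a b c d
    have e2 := hC.swap23 a b d c
    have e3 := hC.swap12 a d b c
    linarith
  rw [h2, h1, neg_zero]

/-- the sum over the third argument vanishes, except on faces -/
theorem sum3 (hC : Chain F x om) {a b d : ι} (h : ({a, b, d} : Finset ι) ∉ F) :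
    ∑ c, om a b c d = 0 := by
  have h1 := sum4 hC h
  have h2 : ∑ c, om a b c d = - ∑ c, om a b d c := by
    rw [← Finset.sum_neg_distrib]
    refine Finset.sum_congr rfl fun c _ => ?_
    have e1 := hC.swap34 a b c d
    linarith
  rw [h2, h1, neg_zero]

omit [Fintype ι] in
theorem y_zero (h : IsTri F x) {y : ι → ι → ℝ} (hedge : ∀ a b, IsEdge F a b → y a b = 0)
    {a b c : ι} (hF : ({a, b, c} : Finset ι) ∈ F) : y a b = 0 := by
  apply hedge
  refine ⟨?_, _, hF, by simp, by simp⟩
  rintro rfl
  have h1 := h.card _ hF
  have h2 : ({a, a, c} : Finset ι) = {a, c} := by simp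
  rw [h2] at h1
  have := Finset.card_le_two (a := a) (b := c)
  omega

theorem zero_abc (h : IsTri F x) (hC : Chain F x om) {y : ι → ι → ℝ}
    (hedge : ∀ a b, IsEdge F a b → y a b = 0) (w : ι → ι → ι → ℝ) :
    S4 (fun a b c d => om a b c d * (y a b * w a b c)) = 0 := by
  unfold S4
  refine Finset.sum_eq_zero fun a _ => Finset.sum_eq_zero fun b _ =>
    Finset.sum_eq_zero fun c _ => ?_
  rw [← Finset.sum_mul]
  by_cases hF : ({a, b, c} : Finset ι) ∈ F
  · rw [y_zero h hedge hF, zero_mul, mul_zero]
  · rw [sum4 hC hF, zero_mul]

theorem zero_abd (h : IsTri F x) (hC : Chain F x om) {y : ι → ι → ℝ}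
    (hedge : ∀ a b, IsEdge F a b → y a b = 0) (w : ι → ι → ι → ℝ) :
    S4 (fun a b c d => om a b c d * (y a b * w a b d)) = 0 := by
  unfold S4
  refine Finset.sum_eq_zero fun a _ => Finset.sum_eq_zero fun b _ => ?_
  rw [Finset.sum_comm]
  refine Finset.sum_eq_zero fun d _ => ?_
  rw [← Finset.sum_mul]
  by_cases hF : ({a, b, d} : Finset ι) ∈ F
  · rw [y_zero h hedge hF, zero_mul, mul_zero]
  · rw [sum3 hC hF, zero_mul]

end chain

end Rig

open Rig in
/-- the combinatorial core: `y` symmetric, zero on edges; `L a b` symmetric complex numbers with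
`(L a b).re = (y a b + μ a + μ b) / 2`; on every tetrahedron of the chain the expression of
`two_triangle` has the sign of `om` -/
theorem rig_core [Fintype ι] {F : Set (Finset ι)} {x : ι → E} {om : ι → ι → ι → ι → ℝ}
    (h : IsTri F x) (hC : Chain F x om) (L : ι → ι → ℂ) (y : ι → ι → ℝ) (μ : ι → ℝ)
    (hL : ∀ a b, L b a = L a b) (hy : ∀ a b, y b a = y a b)
    (hLy : ∀ a b, a ≠ b → (L a b).re = (y a b + μ a + μ b) / 2)
    (hedge : ∀ a b, IsEdge F a b → y a b = 0)
    (hsign : ∀ a b c d, om a b c d ≠ 0 →
      0 ≤ - om a b c d * ((L a b + L c d).re * ((L a c + L b d).im - (L a d + L b c).im)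
        + (L a c + L b d).re * ((L a d + L b c).im - (L a b + L c d).im)
        + (L a d + L b c).re * ((L a b + L c d).im - (L a c + L b d).im))) :
    ∀ a b c d, om a b c d ≠ 0 →
      (L a b + L c d).re * ((L a c + L b d).im - (L a d + L b c).im)
        + (L a c + L b d).re * ((L a d + L b c).im - (L a b + L c d).im)
        + (L a d + L b c).re * ((L a b + L c d).im - (L a c + L b d).im) = 0 := by
  set Ex : ι → ι → ι → ι → ℝ := fun a b c d =>
    (L a b + L c d).re * ((L a c + L b d).im - (L a d + L b c).im)
        + (L a c + L b d).re * ((L a d + L b c).im - (L a b + L c d).im)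
        + (L a d + L b c).re * ((L a b + L c d).im - (L a c + L b d).im) with hEx
  set f : ι → ι → ι → ι → ℝ := fun a b c d =>
    om a b c d * (y a b * ((L a c).im + (L b d).im - (L a d).im - (L b c).im)) with hf
  -- the sum of `f` is zero
  have hf0 : S4 f = 0 := by
    have e : f = fun a b c d => (om a b c d * (y a b * ((L a c).im - (L b c).im))) +
        (om a b c d * (y a b * ((L b d).im - (L a d).im))) := by
      funext a b c d
      rw [hf]
      ring
    rw [e, S4_add, zero_abc h hC hedge (fun a b c => (L a c).im - (L b c).im),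
      zero_abd h hC hedge (fun a b d => (L b d).im - (L a d).im), add_zero]
  -- the permuted sums
  have p1 : S4 (fun a b c d => f c d a b) = 0 := by
    rw [S4_swap23 (fun a b c d => f b d a c), S4_swap12 (fun a b c d => f a d b c),
      S4_swap34 (fun a b c d => f a c b d), S4_swap23 (fun a b c d => f a b c d)]
    exact hf0
  have p2 : S4 (fun a b c d => f a c d b) = 0 := by
    rw [S4_swap23 (fun a b c d => f a b d c), S4_swap34 (fun a b c d => f a b c d)]
    exact hf0
  have p3 : S4 (fun a b c d => f a d b c) = 0 := by
    rw [S4_swap34 (fun a b c d => f a c b d), S4_swap23 (fun a b c d => f a b c d)]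
    exact hf0
  have p4 : S4 (fun a b c d => f b c a d) = 0 := by
    rw [S4_swap12 (fun a b c d => f a c b d), S4_swap23 (fun a b c d => f a b c d)]
    exact hf0
  have p5 : S4 (fun a b c d => f b d c a) = 0 := by
    rw [S4_swap12 (fun a b c d => f a d c b), S4_swap23 (fun a b c d => f a d b c)]
    exact p3
  -- the sum of `om * Ex`
  have hpt : ∀ a b c d, om a b c d * Ex a b c d = (1 / 2) * (f a b c d + (f c d a b +
      (f a c d b + (f a d b c + (f b c a d + f b d c a))))) := by
    intro a b c d
    by_cases h0 : om a b c d = 0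
    · have e1 : om c d a b = 0 := by
        have := hC.swap23 a b c d
        have := hC.swap12 a c b d
        have := hC.swap34 c a b d
        have := hC.swap23 c a d b
        linarith
      have e2 : om a c d b = 0 := by
        have := hC.swap23 a b c d
        have := hC.swap34 a c b d
        linarith
      have e3 : om a d b c = 0 := by
        have := hC.swap34 a b c d
        have := hC.swap23 a b d c
        linarith
      have e4 : om b c a d = 0 := by
        have := hC.swap12 a b c d
        have := hC.swap23 b a c d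
        linarith
      have e5 : om b d c a = 0 := by
        have := hC.swap12 a b c d
        have := hC.swap34 b a c d
        have := hC.swap23 b a d c
        have := hC.swap34 b d a c
        linarith
      simp only [hf, h0, e1, e2, e3, e4, e5]
      ring
    · have e1 : om c d a b = om a b c d := by
        have := hC.swap23 a b c d
        have := hC.swap12 a c b d
        have := hC.swap34 c a b d
        have := hC.swap23 c a d b
        linarith
      have e2 : om a c d b = om a b c d := by
        have := hC.swap23 a b c d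
        have := hC.swap34 a c b d
        linarith
      have e3 : om a d b c = om a b c d := by
        have := hC.swap34 a b c d
        have := hC.swap23 a b d c
        linarith
      have e4 : om b c a d = om a b c d := by
        have := hC.swap12 a b c d
        have := hC.swap23 b a c d
        linarith
      have e5 : om b d c a = om a b c d := by
        have := hC.swap12 a b c d
        have := hC.swap34 b a c d
        have := hC.swap23 b a d c
        have := hC.swap34 b d a c
        linarith
      obtain ⟨nab, nac, nad, nbc, nbd, ncd⟩ := om_ne hC h0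
      simp only [hf, hEx, e1, e2, e3, e4, e5, Complex.add_re, Complex.add_im]
      rw [hLy a b nab, hLy c d ncd, hLy a c nac, hLy b d nbd, hLy a d nad, hLy b c nbc,
        hL a b, hL a c, hL a d, hL b c, hL b d, hL c d]
      ring
  have hsum : S4 (fun a b c d => om a b c d * Ex a b c d) = 0 := by
    have e : (fun a b c d => om a b c d * Ex a b c d) = fun a b c d =>
        (1 / 2) * (f a b c d + (f c d a b +
      (f a c d b + (f a d b c + (f b c a d + f b d c a))))) := by
      funext a b c d
      exact hpt a b c d
    rw [e, S4_mul, S4_add, S4_add, S4_add, S4_add, S4_add, p1, p2, p3, p4, p5]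
    have : S4 (fun a b c d => f a b c d) = 0 := hf0
    rw [this]
    ring
  have hnp : ∀ a b c d, om a b c d * Ex a b c d ≤ 0 := by
    intro a b c d
    by_cases h0 : om a b c d = 0
    · rw [h0, zero_mul]
    · have := hsign a b c d h0
      have h2 : - om a b c d * Ex a b c d = -(om a b c d * Ex a b c d) := by ring
      have h3 : 0 ≤ - om a b c d * Ex a b c d := this
      rw [h2] at h3
      linarith
  intro a b c d h0
  have hall : om a b c d * Ex a b c d = 0 := by
    have h1 : ∀ a ∈ Finset.univ, (∑ b, ∑ c, ∑ d, om a b c d * Ex a b c d) = 0 :=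
      (Finset.sum_eq_zero_iff_of_nonpos (fun a _ => Finset.sum_nonpos fun b _ =>
        Finset.sum_nonpos fun c _ => Finset.sum_nonpos fun d _ => hnp a b c d)).1 hsum
    have h2 := (Finset.sum_eq_zero_iff_of_nonpos (fun b _ =>
        Finset.sum_nonpos fun c _ => Finset.sum_nonpos fun d _ => hnp a b c d)).1
        (h1 a (Finset.mem_univ a)) b (Finset.mem_univ b)
    have h3 := (Finset.sum_eq_zero_iff_of_nonpos (fun c _ =>
        Finset.sum_nonpos fun d _ => hnp a b c d)).1 h2 c (Finset.mem_univ c)
    exact (Finset.sum_eq_zero_iff_of_nonpos (fun d _ => hnp a b c d)).1 h3 d (Finset.mem_univ d)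
  exact (mul_eq_zero.1 hall).resolve_left h0

end Pool.Agent.Berry
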