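import Mathlib

/-! # Two triangle lemma (law of sines and positivity of the cotangent form) -/

set_option autoImplicit false

namespace Pool.Agent.Berry

namespace Tri

theorem arg_mem {z : ℂ} (hz : 0 < z.im) : 0 < Complex.arg z ∧ Complex.arg z < Real.pi := by
  refine ⟨?_, ?_⟩
  · rcases lt_trichotomy (Complex.arg z) 0 with h | h | h
    · exact absurd (Complex.arg_neg_iff.mp h) (by linarith)
    · rw [Complex.arg_eq_zero_iff] at h
      exact absurd h.2 (by linarith)
    · exact h
  · rcases lt_or_eq_of_le (Complex.arg_le_pi z) with h | h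
    · exact h
    · rw [Complex.arg_eq_pi_iff] at h
      exact absurd h.2 (by linarith)

theorem cis_im (t : ℝ) :
    (Complex.cos (t : ℂ) + Complex.sin (t : ℂ) * Complex.I).im = Real.sin t := by
  rw [← Complex.ofReal_cos, ← Complex.ofReal_sin]
  simp [-Complex.ofReal_sin, -Complex.ofReal_cos]

/-- argument of a shifted number in the upper half plane -/
theorem arg_shift {z w : ℂ} (hz : 0 < z.im) (hzw : 0 < (z * Complex.exp w).im)
    (hw : |w.im| < Real.pi) : Complex.arg (z * Complex.exp w) = Complex.arg z + w.im := by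
  have hz0 : z ≠ 0 := by
    rintro rfl; simp at hz
  have hn : 0 < ‖z‖ := norm_pos_iff.mpr hz0
  have harg := arg_mem hz
  have hpos : 0 < ‖z‖ * Real.exp w.re := mul_pos hn (Real.exp_pos _)
  have e1 : z * Complex.exp w = ((‖z‖ * Real.exp w.re : ℝ) : ℂ) *
      (Complex.cos ((Complex.arg z + w.im : ℝ) : ℂ) + Complex.sin ((Complex.arg z + w.im : ℝ) : ℂ) * Complex.I) := by
    have h1 : z = (‖z‖ : ℂ) * Complex.exp (Complex.arg z * Complex.I) :=
      (Complex.norm_mul_exp_arg_mul_I z).symm
    have h2 : Complex.exp w = (Real.exp w.re : ℂ) * Complex.exp (w.im * Complex.I) := by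
      rw [Complex.ofReal_exp, ← Complex.exp_add]
      congr 1
      exact (Complex.re_add_im w).symm
    rw [← Complex.exp_mul_I]
    conv_lhs => rw [h1, h2]
    push_cast
    rw [add_mul, Complex.exp_add]
    ring
  have him : (z * Complex.exp w).im = (‖z‖ * Real.exp w.re) * Real.sin (Complex.arg z + w.im) := by
    rw [e1, Complex.im_ofReal_mul, cis_im]
  have hs : 0 < Real.sin (Complex.arg z + w.im) := by
    rw [him] at hzw
    exact (mul_pos_iff_of_pos_left hpos).mp hzw
  have hw' := abs_lt.mp hw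
  have hlow : 0 < Complex.arg z + w.im := by
    by_contra hcon
    push Not at hcon
    have := Real.sin_nonpos_of_nonpos_of_neg_pi_le hcon (by linarith [harg.1, hw'.1])
    linarith
  have hupp : Complex.arg z + w.im < Real.pi := by
    by_contra hcon
    push Not at hcon
    have h3 : 0 ≤ Real.sin (Complex.arg z + w.im - Real.pi) :=
      Real.sin_nonneg_of_nonneg_of_le_pi (by linarith) (by linarith [harg.2, hw'.2])
    rw [Real.sin_sub_pi] at h3
    linarith
  rw [e1]
  exact Complex.arg_mul_cos_add_sin_mul_I hpos ⟨by linarith [Real.pi_pos], hupp.le⟩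

/-- angles and law of sines of a positively oriented triangle with side vectors `p q r` -/
theorem angles {p q r : ℂ} (h0 : p + q + r = 0) (ho : 0 < (q * (starRingEnd ℂ) p).im) :
    p ≠ 0 ∧ q ≠ 0 ∧ r ≠ 0 ∧ 0 < (q / p).im ∧ 0 < (r / q).im ∧ 0 < (p / r).im ∧
    Complex.arg (q / p) + Complex.arg (r / q) + Complex.arg (p / r) = 2 * Real.pi ∧
    ∃ K : ℝ, Real.log (Real.sin (Complex.arg (q / p))) = Real.log ‖r‖ + K ∧
      Real.log (Real.sin (Complex.arg (r / q))) = Real.log ‖p‖ + K ∧
      Real.log (Real.sin (Complex.arg (p / r))) = Real.log ‖q‖ + K := by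
  have hp : p ≠ 0 := by rintro rfl; simp at ho
  have hq : q ≠ 0 := by rintro rfl; simp at ho
  have hr : r = -p - q := by linear_combination h0
  have key : ∀ a b : ℂ, a ≠ 0 → (b / a).im = (b * (starRingEnd ℂ) a).im / ‖a‖ ^ 2 := by
    intro a b ha
    rw [← Complex.normSq_eq_norm_sq, Complex.div_im, Complex.mul_im, Complex.conj_re, Complex.conj_im]
    ring
  have hrq : (r * (starRingEnd ℂ) q).im = (q * (starRingEnd ℂ) p).im := by
    subst hr
    simp [Complex.mul_im]
    ring
  have hpr : (p * (starRingEnd ℂ) r).im = (q * (starRingEnd ℂ) p).im := by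
    subst hr
    simp [Complex.mul_im]
    ring
  have hr0 : r ≠ 0 := by
    rintro h; rw [h, zero_mul, Complex.zero_im] at hrq; linarith
  have hnp : 0 < ‖p‖ := norm_pos_iff.mpr hp
  have hnq : 0 < ‖q‖ := norm_pos_iff.mpr hq
  have hnr : 0 < ‖r‖ := norm_pos_iff.mpr hr0
  have h1 : 0 < (q / p).im := by rw [key p q hp]; positivity
  have h2 : 0 < (r / q).im := by rw [key q r hq, hrq]; positivity
  have h3 : 0 < (p / r).im := by rw [key r p hr0, hpr]; positivity
  refine ⟨hp, hq, hr0, h1, h2, h3, ?_, ?_⟩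
  · have m1 := arg_mem h1
    have m2 := arg_mem h2
    have m3 := arg_mem h3
    have hprod : (q / p) * (r / q) * (p / r) = 1 := by field_simp
    have e : Complex.exp ((Complex.arg (q / p) + Complex.arg (r / q) + Complex.arg (p / r) : ℝ) * Complex.I) = 1 := by
      have a1 := Complex.norm_mul_exp_arg_mul_I (q / p)
      have a2 := Complex.norm_mul_exp_arg_mul_I (r / q)
      have a3 := Complex.norm_mul_exp_arg_mul_I (p / r)
      have n1 : ‖q / p‖ * ‖r / q‖ * ‖p / r‖ = 1 := by rw [← norm_mul, ← norm_mul, hprod, norm_one]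
      have : ((‖q / p‖ * ‖r / q‖ * ‖p / r‖ : ℝ) : ℂ) *
        Complex.exp ((Complex.arg (q / p) + Complex.arg (r / q) + Complex.arg (p / r) : ℝ) * Complex.I) = 1 := by
        rw [← hprod]
        conv_rhs => rw [← a1, ← a2, ← a3]
        push_cast
        rw [add_mul, add_mul, Complex.exp_add, Complex.exp_add]
        ring
      rw [n1] at this
      simpa using this
    rw [Complex.exp_eq_one_iff] at e
    obtain ⟨n, hn⟩ := e
    have hn' : Complex.arg (q / p) + Complex.arg (r / q) + Complex.arg (p / r) = n * (2 * Real.pi) := by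
      have := congrArg Complex.im hn
      simpa using this
    have hn1 : (0 : ℝ) < n := by
      by_contra hcon
      push Not at hcon
      have := mul_nonpos_of_nonpos_of_nonneg hcon (by positivity : (0 : ℝ) ≤ 2 * Real.pi)
      linarith
    have hn2 : (n : ℝ) < 2 := by
      by_contra hcon
      push Not at hcon
      have := mul_le_mul_of_nonneg_right hcon (by positivity : (0 : ℝ) ≤ 2 * Real.pi)
      linarith
    have hn3 : n = 1 := by
      have a : (0 : ℤ) < n := by exact_mod_cast hn1
      have b : n < (2 : ℤ) := by exact_mod_cast hn2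
      omega
    rw [hn', hn3]; simp
  · refine ⟨Real.log ((q * (starRingEnd ℂ) p).im / (‖p‖ * ‖q‖ * ‖r‖)), ?_, ?_, ?_⟩
    · rw [← Real.log_mul hnr.ne' (by positivity), Complex.sin_arg, key p q hp, norm_div]
      congr 1; field_simp
    · rw [← Real.log_mul hnp.ne' (by positivity), Complex.sin_arg, key q r hq, norm_div, hrq]
      congr 1; field_simp
    · rw [← Real.log_mul hnq.ne' (by positivity), Complex.sin_arg, key r p hr0, norm_div, hpr]
      congr 1; field_simp

/-- the quadratic form is positive -/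
theorem quad {a b c x y : ℝ} (ha : 0 < a) (hb : 0 < b) (hc : 0 < c) (h : a + b + c = Real.pi)
    (hxy : ¬ (x = 0 ∧ y = 0)) :
    0 < x * (Real.cos a * x / Real.sin a) + y * (Real.cos b * y / Real.sin b) +
      (-x - y) * (Real.cos c * (-x - y) / Real.sin c) := by
  have hsa : 0 < Real.sin a := Real.sin_pos_of_pos_of_lt_pi ha (by linarith)
  have hsb : 0 < Real.sin b := Real.sin_pos_of_pos_of_lt_pi hb (by linarith)
  have hc' : c = Real.pi - (a + b) := by linarith
  have hsc : 0 < Real.sin c := Real.sin_pos_of_pos_of_lt_pi hc (by linarith)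
  have hsc' : Real.sin c = Real.sin a * Real.cos b + Real.cos a * Real.sin b := by
    rw [hc', Real.sin_pi_sub, Real.sin_add]
  have hcc' : Real.cos c = - (Real.cos a * Real.cos b - Real.sin a * Real.sin b) := by
    rw [hc', Real.cos_pi_sub, Real.cos_add]
  have ida : Real.sin a ^ 2 + Real.cos a ^ 2 = 1 := Real.sin_sq_add_cos_sq a
  have idb : Real.sin b ^ 2 + Real.cos b ^ 2 = 1 := Real.sin_sq_add_cos_sq b
  have e : x * (Real.cos a * x / Real.sin a) + y * (Real.cos b * y / Real.sin b) +
      (-x - y) * (Real.cos c * (-x - y) / Real.sin c) =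
      ((x * Real.sin b + y * Real.sin a * Real.cos c) ^ 2 + (y * Real.sin a * Real.sin c) ^ 2) /
        (Real.sin a * Real.sin b * Real.sin c) := by
    have idc : Real.sin c ^ 2 + Real.cos c ^ 2 = 1 := Real.sin_sq_add_cos_sq c
    rw [eq_div_iff (by positivity)]
    have : (x * (Real.cos a * x / Real.sin a) + y * (Real.cos b * y / Real.sin b) +
      (-x - y) * (Real.cos c * (-x - y) / Real.sin c)) * (Real.sin a * Real.sin b * Real.sin c) =
      x ^ 2 * Real.cos a * Real.sin b * Real.sin c + y ^ 2 * Real.cos b * Real.sin a * Real.sin c +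
        (x + y) ^ 2 * Real.cos c * Real.sin a * Real.sin b := by
      field_simp
      ring
    rw [this]
    have e2 : (x * Real.sin b + y * Real.sin a * Real.cos c) ^ 2 + (y * Real.sin a * Real.sin c) ^ 2
      = x ^ 2 * Real.sin b ^ 2 + 2 * x * y * Real.sin a * Real.sin b * Real.cos c + y ^ 2 * Real.sin a ^ 2 := by
      linear_combination y ^ 2 * Real.sin a ^ 2 * idc
    rw [e2, hsc', hcc']
    linear_combination x ^ 2 * Real.sin b ^ 2 * ida + y ^ 2 * Real.sin a ^ 2 * idb
  rw [e]
  apply div_pos _ (by positivity)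
  rcases eq_or_ne y 0 with hy | hy
  · have hx : x ≠ 0 := fun hx => hxy ⟨hx, hy⟩
    subst hy
    have : 0 < (x * Real.sin b) ^ 2 := by positivity
    nlinarith
  · have : 0 < (y * Real.sin a * Real.sin c) ^ 2 := by positivity
    nlinarith [sq_nonneg (x * Real.sin b + y * Real.sin a * Real.cos c)]

/-- monotonicity -/
theorem mono {a b c x y : ℝ} (ha : 0 < a) (hb : 0 < b) (hc : 0 < c) (h : a + b + c = Real.pi)
    (ha' : 0 < a + x) (hb' : 0 < b + y) (hc' : 0 < c + (-x - y)) (hxy : ¬ (x = 0 ∧ y = 0)) :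
    0 < x * (Real.log (Real.sin (a + x)) - Real.log (Real.sin a)) +
      y * (Real.log (Real.sin (b + y)) - Real.log (Real.sin b)) +
      (-x - y) * (Real.log (Real.sin (c + (-x - y))) - Real.log (Real.sin c)) := by
  set f : ℝ → ℝ := fun t => x * Real.log (Real.sin (a + x * t)) +
      y * Real.log (Real.sin (b + y * t)) + (-x - y) * Real.log (Real.sin (c + (-x - y) * t)) with hf
  have pos : ∀ t ∈ Set.Icc (0 : ℝ) 1, ∀ u v : ℝ, 0 < u → 0 < u + v → 0 < u + v * t := by
    intro t ht u v hu hv
    have e : u + v * t = (1 - t) * u + t * (u + v) := by ring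
    rw [e]
    rcases eq_or_lt_of_le ht.1 with h0 | h0
    · rw [← h0]; simpa using hu
    · have := mul_pos h0 hv
      have := mul_nonneg (sub_nonneg.mpr ht.2) hu.le
      linarith
  have sinne : ∀ u : ℝ, 0 < u → u < Real.pi → Real.sin u ≠ 0 := fun u h1 h2 =>
    (Real.sin_pos_of_pos_of_lt_pi h1 h2).ne'
  have hd1 : ∀ u v t : ℝ, Real.sin (u + v * t) ≠ 0 →
      HasDerivAt (fun t => v * Real.log (Real.sin (u + v * t)))
        (v * (Real.cos (u + v * t) * v / Real.sin (u + v * t))) t := by
    intro u v t hne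
    have h1 : HasDerivAt (fun t => u + v * t) v t := by
      simpa using ((hasDerivAt_id t).const_mul v).const_add u
    exact ((h1.sin).log hne).const_mul v
  have hd : ∀ t ∈ Set.Icc (0 : ℝ) 1, HasDerivAt f
      (x * (Real.cos (a + x * t) * x / Real.sin (a + x * t)) +
       y * (Real.cos (b + y * t) * y / Real.sin (b + y * t)) +
      (-x - y) * (Real.cos (c + (-x - y) * t) * (-x - y) / Real.sin (c + (-x - y) * t))) t := by
    intro t ht
    have p1 := pos t ht a x ha ha'
    have p2 := pos t ht b y hb hb'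
    have p3 := pos t ht c (-x - y) hc hc'
    have hsum : (a + x * t) + (b + y * t) + (c + (-x - y) * t) = Real.pi := by linarith
    exact ((hd1 a x t (sinne _ p1 (by linarith))).add (hd1 b y t (sinne _ p2 (by linarith)))).add
      (hd1 c (-x - y) t (sinne _ p3 (by linarith)))
  have hmono : StrictMonoOn f (Set.Icc (0 : ℝ) 1) := by
    apply strictMonoOn_of_deriv_pos (convex_Icc 0 1)
    · intro t ht
      exact (hd t ht).continuousAt.continuousWithinAt
    · intro t ht
      rw [interior_Icc] at ht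
      have ht' : t ∈ Set.Icc (0 : ℝ) 1 := ⟨ht.1.le, ht.2.le⟩
      rw [(hd t ht').deriv]
      have p1 := pos t ht' a x ha ha'
      have p2 := pos t ht' b y hb hb'
      have p3 := pos t ht' c (-x - y) hc hc'
      exact quad p1 p2 p3 (by linarith) hxy
  have := hmono (Set.left_mem_Icc.mpr zero_le_one) (Set.right_mem_Icc.mpr zero_le_one) zero_lt_one
  simp only [hf, mul_zero, mul_one, add_zero] at this
  linarith

end Tri

theorem two_triangle {p q r X Y W : ℂ} (h0 : p + q + r = 0)
    (h1 : p * Complex.exp X + q * Complex.exp Y + r * Complex.exp W = 0)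
    (ho : 0 < (q * (starRingEnd ℂ) p).im)
    (ho' : 0 < ((q * Complex.exp Y) * (starRingEnd ℂ) (p * Complex.exp X)).im)
    (hXY : |X.im - Y.im| < Real.pi) (hYW : |Y.im - W.im| < Real.pi) (hWX : |W.im - X.im| < Real.pi) :
    0 ≤ X.re * (Y.im - W.im) + Y.re * (W.im - X.im) + W.re * (X.im - Y.im) ∧
    (X.re * (Y.im - W.im) + Y.re * (W.im - X.im) + W.re * (X.im - Y.im) = 0 → X = Y ∧ Y = W) := by
  obtain ⟨hp, hq, hr, i1, i2, i3, hsum, K, k1, k2, k3⟩ := Tri.angles h0 ho
  obtain ⟨hp', hq', hr', i1', i2', i3', hsum', K', k1', k2', k3'⟩ := Tri.angles h1 ho'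
  have e1 : q * Complex.exp Y / (p * Complex.exp X) = (q / p) * Complex.exp (Y - X) := by
    rw [Complex.exp_sub]; field_simp
  have e2 : r * Complex.exp W / (q * Complex.exp Y) = (r / q) * Complex.exp (W - Y) := by
    rw [Complex.exp_sub]; field_simp
  have e3 : p * Complex.exp X / (r * Complex.exp W) = (p / r) * Complex.exp (X - W) := by
    rw [Complex.exp_sub]; field_simp
  have a1 := Tri.arg_shift i1 (by rwa [e1] at i1') (w := Y - X) (by rw [Complex.sub_im, abs_sub_comm]; exact hXY)
  have a2 := Tri.arg_shift i2 (by rwa [e2] at i2') (w := W - Y) (by rw [Complex.sub_im, abs_sub_comm]; exact hYW)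
  have a3 := Tri.arg_shift i3 (by rwa [e3] at i3') (w := X - W) (by rw [Complex.sub_im, abs_sub_comm]; exact hWX)
  rw [← e1] at a1
  rw [← e2] at a2
  rw [← e3] at a3
  rw [a1] at k1'
  rw [a2] at k2'
  rw [a3] at k3'
  have m1 := Tri.arg_mem i1
  have m2 := Tri.arg_mem i2
  have m3 := Tri.arg_mem i3
  have m1' := Tri.arg_mem i1'
  have m2' := Tri.arg_mem i2'
  have m3' := Tri.arg_mem i3'
  rw [a1] at m1'
  rw [a2] at m2'
  rw [a3] at m3'
  have n1 : Real.log ‖p * Complex.exp X‖ = Real.log ‖p‖ + X.re := by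
    rw [norm_mul, Complex.norm_exp, Real.log_mul (norm_ne_zero_iff.mpr hp) (Real.exp_ne_zero _), Real.log_exp]
  have n2 : Real.log ‖q * Complex.exp Y‖ = Real.log ‖q‖ + Y.re := by
    rw [norm_mul, Complex.norm_exp, Real.log_mul (norm_ne_zero_iff.mpr hq) (Real.exp_ne_zero _), Real.log_exp]
  have n3 : Real.log ‖r * Complex.exp W‖ = Real.log ‖r‖ + W.re := by
    rw [norm_mul, Complex.norm_exp, Real.log_mul (norm_ne_zero_iff.mpr hr) (Real.exp_ne_zero _), Real.log_exp]
  rw [n3] at k1'
  rw [n1] at k2'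
  rw [n2] at k3'
  simp only [Complex.sub_im] at *
  -- angles
  have s1 : ∀ u : ℝ, Real.sin (Real.pi - u) = Real.sin u := Real.sin_pi_sub
  have hneg : ∀ hxy : ¬ ((Y.im - W.im) = 0 ∧ (W.im - X.im) = 0),
      0 < X.re * (Y.im - W.im) + Y.re * (W.im - X.im) + W.re * (X.im - Y.im) := by
    intro hxy
    have M := Tri.mono (a := Real.pi - Complex.arg (r / q)) (b := Real.pi - Complex.arg (p / r))
      (c := Real.pi - Complex.arg (q / p)) (x := Y.im - W.im) (y := W.im - X.im)
      (by linarith [m2.2]) (by linarith [m3.2]) (by linarith [m1.2]) (by linarith)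
      (by linarith [m2'.2]) (by linarith [m3'.2]) (by linarith [m1'.2]) hxy
    have t1 : Real.pi - Complex.arg (r / q) + (Y.im - W.im) = Real.pi - (Complex.arg (r / q) + (W.im - Y.im)) := by ring
    have t2 : Real.pi - Complex.arg (p / r) + (W.im - X.im) = Real.pi - (Complex.arg (p / r) + (X.im - W.im)) := by ring
    have t3 : Real.pi - Complex.arg (q / p) + (-(Y.im - W.im) - (W.im - X.im)) = Real.pi - (Complex.arg (q / p) + (Y.im - X.im)) := by ring
    rw [t1, t2, t3, s1, s1, s1, s1, s1, s1, k1', k2', k3', k1, k2, k3] at M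
    linarith
  by_cases hxy : (Y.im - W.im) = 0 ∧ (W.im - X.im) = 0
  · obtain ⟨g1, g2⟩ := hxy
    have g3 : X.im - Y.im = 0 := by linarith
    refine ⟨by rw [g1, g2, g3]; simp, fun _ => ?_⟩
    have z1 : Y.im - X.im = 0 := by linarith
    have z2 : W.im - Y.im = 0 := by linarith
    have z3 : X.im - W.im = 0 := by linarith
    rw [z1, add_zero] at k1'
    rw [z2, add_zero] at k2'
    rw [z3, add_zero] at k3'
    refine ⟨Complex.ext ?_ ?_, Complex.ext ?_ ?_⟩ <;> linarith
  · have := hneg hxy
    exact ⟨this.le, fun h => absurd h this.ne'⟩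

end Pool.Agent.Berry
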