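import Pool.Agent.Berry.AFF
import Pool.Agent.Berry.NEAR
import Pool.Agent.Berry.TRI2
import Pool.Agent.Berry.RIG
import Pool.Agent.Berry.HET
import Pool.Agent.Berry.DEL
import Pool.Agent.Berry.BASIC
import Pool.Agent.Berry.Chain

set_option autoImplicit false

namespace Pool.Agent.Berry

open Filter Topology

namespace MAIN

variable {ι : Type} [DecidableEq ι]

theorem vol_swap (x : ι → E) (a b c d : ι) : vol x b a c d = - vol x a b c d := by
  simp only [vol, det3, PiLp.sub_apply]
  ring

theorem im_swap (p q : ℂ) : (q * (starRingEnd ℂ) p).im = - (p * (starRingEnd ℂ) q).im := by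
  simp only [Complex.mul_im, Complex.conj_re, Complex.conj_im]
  ring

/-- sign of the imaginary part from the volume -/
theorem im_pos_of_vol {x : ι → E} (hu : ∀ i, ‖x i‖ = 1) (hn : ∀ i, x i 2 ≠ 1) {a b c d : ι}
    (hv : 0 < vol x a b c d) :
    0 < (((zz (x b) - zz (x a)) * (zz (x d) - zz (x c))) *
      (starRingEnd ℂ) (-((zz (x c) - zz (x a)) * (zz (x d) - zz (x b))))).im := by
  have h := zz_vol (hu a) (hu b) (hu c) (hu d) (hn a) (hn b) (hn c) (hn d)
  have hp : 0 < (1 - x a 2) * (1 - x b 2) * (1 - x c 2) * (1 - x d 2) :=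
    mul_pos (mul_pos (mul_pos (one_sub_pos (hu a) (hn a)) (one_sub_pos (hu b) (hn b)))
      (one_sub_pos (hu c) (hn c))) (one_sub_pos (hu d) (hn d))
  have h2 : 0 < 2 * det3 (x b - x a) (x c - x a) (x d - x a) := by
    have : 0 < det3 (x b - x a) (x c - x a) (x d - x a) := hv
    linarith
  rw [h] at h2
  exact (pos_iff_pos_of_mul_pos h2).2 hp

theorem im_neg_of_vol {x : ι → E} (hu : ∀ i, ‖x i‖ = 1) (hn : ∀ i, x i 2 ≠ 1) {a b c d : ι}
    (hv : vol x a b c d < 0) :
    (((zz (x b) - zz (x a)) * (zz (x d) - zz (x c))) *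
      (starRingEnd ℂ) (-((zz (x c) - zz (x a)) * (zz (x d) - zz (x b))))).im < 0 := by
  have h := zz_vol (hu a) (hu b) (hu c) (hu d) (hn a) (hn b) (hn c) (hn d)
  have hp : 0 < (1 - x a 2) * (1 - x b 2) * (1 - x c 2) * (1 - x d 2) :=
    mul_pos (mul_pos (mul_pos (one_sub_pos (hu a) (hn a)) (one_sub_pos (hu b) (hn b)))
      (one_sub_pos (hu c) (hn c))) (one_sub_pos (hu d) (hn d))
  have h2 : 2 * det3 (x b - x a) (x c - x a) (x d - x a) < 0 := by
    have : det3 (x b - x a) (x c - x a) (x d - x a) < 0 := hv
    linarith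
  rw [h] at h2
  by_contra hc
  push Not at hc
  nlinarith [mul_nonneg hc hp.le]

/-- the logarithm on an edge -/
theorem edge_log {F : Set (Finset ι)} {x x' : ι → E} {u u' : ι → ℝ} (h : BT F x u)
    (h' : BT F x' u') (hn : ∀ i, x i 2 ≠ 1) (hn' : ∀ i, x' i 2 ≠ 1) {a b : ι} (he : IsEdge F a b)
    {L : ℂ} (hL : zz (x' b) - zz (x' a) = (zz (x b) - zz (x a)) * Complex.exp L) :
    2 * L.re = Real.log ((u' a / (1 - x' a 2)) / (u a / (1 - x a 2))) +
      Real.log ((u' b / (1 - x' b 2)) / (u b / (1 - x b 2))) := by
  have d1 := zz_dist (h.tri.unit b) (h.tri.unit a) (hn b) (hn a)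
  have d2 := zz_dist (h'.tri.unit b) (h'.tri.unit a) (hn' b) (hn' a)
  have t1 : ‖x b - x a‖ ^ 2 = 4 * u a * u b := by rw [norm_sub_rev]; exact h.tan a b he
  have t2 : ‖x' b - x' a‖ ^ 2 = 4 * u' a * u' b := by rw [norm_sub_rev]; exact h'.tan a b he
  rw [t1] at d1
  rw [t2] at d2
  rw [hL, norm_mul, mul_pow, d1, Complex.norm_exp] at d2
  have p1i := one_sub_pos (h.tri.unit a) (hn a)
  have p1j := one_sub_pos (h.tri.unit b) (hn b)
  have p2i := one_sub_pos (h'.tri.unit a) (hn' a)
  have p2j := one_sub_pos (h'.tri.unit b) (hn' b)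
  have q1i := h.pos a
  have q1j := h.pos b
  have q2i := h'.pos a
  have q2j := h'.pos b
  rw [← Real.log_mul (by positivity) (by positivity)]
  have h2 : Real.exp (2 * L.re) = (u' a / (1 - x' a 2)) / (u a / (1 - x a 2)) *
      ((u' b / (1 - x' b 2)) / (u b / (1 - x b 2))) := by
    have h3 : Real.exp (2 * L.re) = Real.exp L.re ^ 2 := by
      rw [← Real.exp_nat_mul]; norm_num
    rw [h3]
    set X := Real.exp L.re ^ 2
    field_simp
    field_simp at d2
    nlinarith [d2]
  rw [← h2, Real.log_exp]

end MAIN

open MAIN in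
theorem main_bt {ι : Type} [DecidableEq ι] [Fintype ι] {F : Set (Finset ι)} {x : ι → E}
    {u : ι → ℝ} (h : BT F x u) (hx2 : ∀ i, x i 2 ≠ 1) :
    ∀ᶠ x' : ι → E in 𝓝 x, ∀ u' : ι → ℝ, BT F x' u' →
      (∀ i j, IsEdge F i j → u' i * u' j = u i * u j) ∨
      ((∃ i j, IsEdge F i j ∧ u i * u j < u' i * u' j) ∧
        (∃ i j, IsEdge F i j ∧ u' i * u' j < u i * u j)) := by
  obtain ⟨om, hC⟩ := exists_chain h.tri (supp_of_bt h)
  have hinj : Function.Injective x := by
    intro i j hij
    by_contra hne
    exact AFF.bt_ne h hne hij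
  filter_upwards [near_log h.tri.unit hinj hx2, near_vol x] with x' hlog hvol u' h'
  obtain ⟨hn', L, hL, hLs, hLz⟩ := hlog h'.tri.unit
  set μ : ι → ℝ := fun i => Real.log ((u' i / (1 - x' i 2)) / (u i / (1 - x i 2))) with hμ
  -- cross ratios agree on the chain
  have hcross : ∀ a b c d, om a b c d ≠ 0 → L a b + L c d = L a c + L b d := by
    -- the two triangle lemma on each tetrahedron
    have tt : ∀ a b c d, om a b c d ≠ 0 →
        0 ≤ - om a b c d * ((L a b + L c d).re * ((L a c + L b d).im - (L a d + L b c).im)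
        + (L a c + L b d).re * ((L a d + L b c).im - (L a b + L c d).im)
        + (L a d + L b c).re * ((L a b + L c d).im - (L a c + L b d).im)) ∧
        ((L a b + L c d).re * ((L a c + L b d).im - (L a d + L b c).im)
        + (L a c + L b d).re * ((L a d + L b c).im - (L a b + L c d).im)
        + (L a d + L b c).re * ((L a b + L c d).im - (L a c + L b d).im) = 0 →
          L a b + L c d = L a c + L b d) := by
      intro a b c d hom
      obtain ⟨hab, hac, had, hbc, hbd, hcd⟩ := AFF.om_ne hC hom
      have hov := hC.pos a b c d hom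
      set z := fun i => zz (x i) with hz
      set z' := fun i => zz (x' i) with hz'
      have e0 : (z b - z a) * (z d - z c) + (-((z c - z a) * (z d - z b))) +
          (z d - z a) * (z c - z b) = 0 := by ring
      have q1 : (z' b - z' a) * (z' d - z' c) =
          (z b - z a) * (z d - z c) * Complex.exp (L a b + L c d) := by
        rw [hz, hz']; simp only
        rw [hLz a b hab, hLz c d hcd, Complex.exp_add]; ring
      have q2 : -((z' c - z' a) * (z' d - z' b)) =
          -((z c - z a) * (z d - z b)) * Complex.exp (L a c + L b d) := by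
        rw [hz, hz']; simp only
        rw [hLz a c hac, hLz b d hbd, Complex.exp_add]; ring
      have q3 : (z' d - z' a) * (z' c - z' b) =
          (z d - z a) * (z c - z b) * Complex.exp (L a d + L b c) := by
        rw [hz, hz']; simp only
        rw [hLz a d had, hLz b c hbc, Complex.exp_add]; ring
      have e1 : (z b - z a) * (z d - z c) * Complex.exp (L a b + L c d) +
          (-((z c - z a) * (z d - z b))) * Complex.exp (L a c + L b d) +
          (z d - z a) * (z c - z b) * Complex.exp (L a d + L b c) = 0 := by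
        rw [← q1, ← q2, ← q3]; ring
      have bd : ∀ i j k l i' j' k' l' : ι,
          |(L i j + L k l).im - (L i' j' + L k' l').im| < Real.pi := by
        intro i j k l i' j' k' l'
        have h1 := abs_lt.1 (hLs i j)
        have h2 := abs_lt.1 (hLs k l)
        have h3 := abs_lt.1 (hLs i' j')
        have h4 := abs_lt.1 (hLs k' l')
        simp only [Complex.add_im]
        rw [abs_lt]
        constructor <;> linarith [h1.1, h1.2, h2.1, h2.2, h3.1, h3.2, h4.1, h4.2]
      rcases lt_or_gt_of_ne (show vol x a b c d ≠ 0 from fun h0 => by rw [h0] at hov; simp at hov)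
        with hv | hv
      · -- negative volume
        have hom' : om a b c d < 0 := by
          by_contra hcc
          push Not at hcc
          nlinarith [mul_nonpos_of_nonneg_of_nonpos hcc hv.le]
        have hv' : vol x' a b c d < 0 := by
          have h1 : 0 < vol x b a c d := by rw [vol_swap]; linarith
          have h2 := hvol b a c d h1
          rw [vol_swap] at h2
          linarith
        have i1 := im_neg_of_vol h.tri.unit hx2 hv
        have i2 := im_neg_of_vol h'.tri.unit hn' hv'
        have i1' : 0 < ((-((z c - z a) * (z d - z b))) *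
            (starRingEnd ℂ) ((z b - z a) * (z d - z c))).im := by
          rw [im_swap]; simp only [hz]; linarith
        have i2' : 0 < (((-((z c - z a) * (z d - z b))) * Complex.exp (L a c + L b d)) *
            (starRingEnd ℂ) ((z b - z a) * (z d - z c) * Complex.exp (L a b + L c d))).im := by
          rw [← q1, ← q2, im_swap]; simp only [hz']; linarith
        have T := two_triangle e0 e1 i1' i2' (bd _ _ _ _ _ _ _ _) (bd _ _ _ _ _ _ _ _)
          (bd _ _ _ _ _ _ _ _)
        refine ⟨?_, fun h0 => (T.2 h0).1⟩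
        exact mul_nonneg (by linarith) T.1
      · have hom' : 0 < om a b c d := by
          by_contra hcc
          push Not at hcc
          nlinarith [mul_nonpos_of_nonpos_of_nonneg hcc hv.le]
        have hv' : 0 < vol x' a b c d := hvol a b c d hv
        have i1 := im_pos_of_vol h.tri.unit hx2 hv
        have i2 := im_pos_of_vol h'.tri.unit hn' hv'
        have i2' : 0 < (((z b - z a) * (z d - z c) * Complex.exp (L a b + L c d)) *
            (starRingEnd ℂ) ((-((z c - z a) * (z d - z b))) * Complex.exp (L a c + L b d))).im := by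
          rw [← q1, ← q2]; exact i2
        have e0' : (-((z c - z a) * (z d - z b))) + (z b - z a) * (z d - z c) +
          (z d - z a) * (z c - z b) = 0 := by ring
        have e1' : (-((z c - z a) * (z d - z b))) * Complex.exp (L a c + L b d) +
          (z b - z a) * (z d - z c) * Complex.exp (L a b + L c d) +
          (z d - z a) * (z c - z b) * Complex.exp (L a d + L b c) = 0 := by
          linear_combination e1
        have T := two_triangle e0' e1' i1 i2' (bd _ _ _ _ _ _ _ _) (bd _ _ _ _ _ _ _ _)
          (bd _ _ _ _ _ _ _ _)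
        refine ⟨?_, fun h0 => (T.2 ?_).1.symm⟩
        · have := mul_nonneg hom'.le T.1
          linarith
        · linarith
    intro a b c d hom
    refine (tt a b c d hom).2 ?_
    refine rig_core h.tri hC L (fun a b => 2 * (L a b).re - μ a - μ b) μ hL ?_ ?_ ?_
      (fun a b c d ho => (tt a b c d ho).1) a b c d hom
    · intro a b
      simp only [hL a b]; ring
    · intro a b _
      ring
    · intro a b he
      have := edge_log h h' hx2 hn' he (hLz a b he.1)
      simp only [hμ]
      linarith
  obtain ⟨p0, v, hv, hp0, hform⟩ := exists_affine h.tri hC h h' hx2 hn' L hL hLz hcross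
  obtain ⟨p0', v', hv', hp0', hform'⟩ := exists_affine h.tri hC h' h hn' hx2 (fun a b => - L a b)
    (fun a b => by simp only [hL a b])
    (fun a b hab => by
      rw [hLz a b hab, Complex.exp_neg]
      field_simp)
    (fun a b c d hom => by
      have := hcross a b c d hom
      linear_combination -this)
  by_cases hv0 : v = 0
  · left
    subst hv0
    have hp1 : p0 = 1 := by
      rw [norm_zero] at hv
      nlinarith
    have hu : ∀ i, u i = u' i := by
      intro i
      have := hform i
      rw [hp1, inner_zero_left, sub_zero, div_eq_one_iff_eq (ne_of_gt (h'.pos i))] at this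
      exact this
    intro i j _
    rw [hu i, hu j]
  · right
    obtain ⟨i, j, he, hij⟩ := het_short h.tri p0 v hv hp0 hv0
    rw [← hform i, ← hform j] at hij
    have hij' : u' i * u' j < u i * u j := by
      have h1 := h'.pos i
      have h2 := h'.pos j
      rw [div_mul_div_comm, one_lt_div (mul_pos h1 h2)] at hij
      exact hij
    have hv0' : v' ≠ 0 := by
      intro h0
      subst h0
      have hp1 : p0' = 1 := by
        rw [norm_zero] at hv'
        nlinarith
      have hu : ∀ i, u' i = u i := by
        intro i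
        have := hform' i
        rw [hp1, inner_zero_left, sub_zero, div_eq_one_iff_eq (ne_of_gt (h.pos i))] at this
        exact this
      rw [hu i, hu j] at hij'
      exact lt_irrefl _ hij'
    obtain ⟨i', j', he', hij2⟩ := het_short h'.tri p0' v' hv' hp0' hv0'
    rw [← hform' i', ← hform' j'] at hij2
    have hij2' : u i' * u j' < u' i' * u' j' := by
      have h1 := h.pos i'
      have h2 := h.pos j'
      rw [div_mul_div_comm, one_lt_div (mul_pos h1 h2)] at hij2
      exact hij2
    exact ⟨⟨i', j', he', hij2'⟩, ⟨i, j, he, hij'⟩⟩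

theorem berry_main {ι : Type} [DecidableEq ι] [Fintype ι] {F : Set (Finset ι)} {x : ι → E}
    (h : IsBerryTri F x) :
    ∃ ε > 0, ∀ x' : ι → E, IsBerryTri F x' → (∀ i, dist (x' i) (x i) < ε) →
      (∃ i j, IsEdge F i j ∧ arc (x' i) (x' j) ≠ arc (x i) (x j)) →
      (∃ i j, IsEdge F i j ∧ arc (x i) (x j) < arc (x' i) (x' j)) ∧
      (∃ i j, IsEdge F i j ∧ arc (x' i) (x' j) < arc (x i) (x j)) := by
  obtain ⟨u, hu⟩ := bt_of_berry h
  obtain ⟨e, he⟩ := exists_isometry x hu.tri.unit
  have hmain := main_bt (bt_isometry e hu) he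
  have hcont : Continuous (fun (y : ι → E) => (fun i => e (y i))) :=
    continuous_pi (fun i => e.continuous.comp (continuous_apply i))
  have hev := (hcont.tendsto x).eventually hmain
  rw [Metric.eventually_nhds_iff] at hev
  obtain ⟨ε, hε, hball⟩ := hev
  refine ⟨ε, hε, fun x' h' hd hch => ?_⟩
  obtain ⟨u', hu'⟩ := bt_of_berry h'
  have hdist : dist x' x < ε := (dist_pi_lt_iff hε).2 hd
  have key : ∀ i j, IsEdge F i j → (arc (x i) (x j) < arc (x' i) (x' j) ↔ u i * u j < u' i * u' j) := by
    intro i j he
    rw [arc_lt_iff (hu.tri.unit i) (hu.tri.unit j) (hu'.tri.unit i) (hu'.tri.unit j),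
      hu.tan i j he, hu'.tan i j he]
    constructor <;> intro hh <;> linarith
  have key' : ∀ i j, IsEdge F i j → (arc (x' i) (x' j) < arc (x i) (x j) ↔ u' i * u' j < u i * u j) := by
    intro i j he
    rw [arc_lt_iff (hu'.tri.unit i) (hu'.tri.unit j) (hu.tri.unit i) (hu.tri.unit j),
      hu.tan i j he, hu'.tan i j he]
    constructor <;> intro hh <;> linarith
  rcases hball hdist u' (bt_isometry e hu') with heq | ⟨⟨i, j, he1, h1⟩, ⟨i', j', he2, h2⟩⟩
  · exfalso
    obtain ⟨i, j, he1, hne⟩ := hch
    have h3 := heq i j he1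
    rcases lt_or_gt_of_ne hne with hlt | hgt
    · have := (key' i j he1).1 hlt
      linarith
    · have := (key i j he1).1 hgt
      linarith
  · exact ⟨⟨i, j, he1, (key i j he1).2 h1⟩, ⟨i', j', he2, (key' i' j' he2).2 h2⟩⟩

end Pool.Agent.Berry
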