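import Pool.Agent.Berry.Defs

set_option autoImplicit false

namespace Pool.Agent.Berry

namespace Stereo

lemma norm_sq_E (p : E) : ‖p‖ ^ 2 = p 0 ^ 2 + p 1 ^ 2 + p 2 ^ 2 := by
  rw [EuclideanSpace.norm_sq_eq, Fin.sum_univ_three]
  simp only [Real.norm_eq_abs, sq_abs]

lemma le_one {p : E} (hp : ‖p‖ = 1) : p 2 ≤ 1 := by
  have h := norm_sq_E p
  rw [hp] at h
  nlinarith [sq_nonneg (p 0), sq_nonneg (p 1), sq_nonneg (p 2 - 1)]

lemma zz_mk {p : E} : zz p = ⟨p 0 / (1 - p 2), p 1 / (1 - p 2)⟩ := by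
  have h : (1 - (p 2 : ℂ)) = ((1 - p 2 : ℝ) : ℂ) := by push_cast; rfl
  unfold zz
  rw [h]
  apply Complex.ext
  · rw [Complex.div_ofReal_re]; simp
  · rw [Complex.div_ofReal_im]; simp

lemma param {p : E} (hp : ‖p‖ = 1) (hp2 : p 2 ≠ 1) :
    ∃ x y A : ℝ, 0 < A ∧ p 0 = A * x ∧ p 1 = A * y ∧ p 2 = 1 - A ∧ A * (1 + x ^ 2 + y ^ 2) = 2 ∧
      zz p = ⟨x, y⟩ := by
  have h := norm_sq_E p
  rw [hp] at h
  have hA : 0 < 1 - p 2 := by
    have := lt_of_le_of_ne (le_one hp) hp2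
    linarith
  refine ⟨p 0 / (1 - p 2), p 1 / (1 - p 2), 1 - p 2, hA, ?_, ?_, by ring, ?_, zz_mk⟩
  · field_simp
  · field_simp
  · field_simp
    linear_combination -h

end Stereo

open Stereo

theorem zz_dist {p q : E} (hp : ‖p‖ = 1) (hq : ‖q‖ = 1) (hp2 : p 2 ≠ 1) (hq2 : q 2 ≠ 1) :
    ‖zz p - zz q‖ ^ 2 = ‖p - q‖ ^ 2 / ((1 - p 2) * (1 - q 2)) := by
  obtain ⟨x, y, A, hA, h0, h1, h2, h3, h4⟩ := param hp hp2
  obtain ⟨x', y', B, hB, k0, k1, k2, k3, k4⟩ := param hq hq2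
  have e1 : 1 - p 2 = A := by rw [h2]; ring
  have e2 : 1 - q 2 = B := by rw [k2]; ring
  rw [e1, e2, eq_div_iff (by positivity), h4, k4, Complex.sq_norm, Complex.normSq_apply,
    norm_sq_E]
  simp only [PiLp.sub_apply, Complex.sub_re, Complex.sub_im]
  rw [h0, h1, h2, k0, k1, k2]
  linear_combination (B - A) * h3 + (A - B) * k3

theorem one_sub_pos {p : E} (hp : ‖p‖ = 1) (hp2 : p 2 ≠ 1) : 0 < 1 - p 2 := by
  have := lt_of_le_of_ne (le_one hp) hp2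
  linarith

theorem zz_norm {p : E} (hp : ‖p‖ = 1) (hp2 : p 2 ≠ 1) : 1 + ‖zz p‖ ^ 2 = 2 / (1 - p 2) := by
  obtain ⟨x, y, A, hA, h0, h1, h2, h3, h4⟩ := param hp hp2
  have e1 : 1 - p 2 = A := by rw [h2]; ring
  rw [e1, eq_div_iff (by positivity), h4, Complex.sq_norm, Complex.normSq_apply]
  simp only
  linear_combination h3

theorem zz_vol {a b c d : E} (ha : ‖a‖ = 1) (hb : ‖b‖ = 1) (hc : ‖c‖ = 1) (hd : ‖d‖ = 1)
    (ha2 : a 2 ≠ 1) (hb2 : b 2 ≠ 1) (hc2 : c 2 ≠ 1) (hd2 : d 2 ≠ 1) :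
    2 * det3 (b - a) (c - a) (d - a) =
      (((zz b - zz a) * (zz d - zz c)) * (starRingEnd ℂ) (-((zz c - zz a) * (zz d - zz b)))).im *
        ((1 - a 2) * (1 - b 2) * (1 - c 2) * (1 - d 2)) := by
  obtain ⟨x1, y1, A, hA, a0, a1, a2, a3, a4⟩ := param ha ha2
  obtain ⟨x2, y2, B, hB, b0, b1, b2, b3, b4⟩ := param hb hb2
  obtain ⟨x3, y3, C, hC, c0, c1, c2, c3, c4⟩ := param hc hc2
  obtain ⟨x4, y4, D, hD, d0, d1, d2, d3, d4⟩ := param hd hd2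
  rw [a4, b4, c4, d4]
  simp only [det3, PiLp.sub_apply, Complex.sub_re, Complex.sub_im, Complex.mul_re, Complex.mul_im,
    Complex.conj_re, Complex.conj_im, Complex.neg_re, Complex.neg_im]
  rw [a0, a1, a2, b0, b1, b2, c0, c1, c2, d0, d1, d2]
  linear_combination
    ((B * C * D) * (x2 * (y3 - y4) - y2 * (x3 - x4) + (x3 * y4 - x4 * y3))) * a3
    - ((A * C * D) * (x1 * (y3 - y4) - y1 * (x3 - x4) + (x3 * y4 - x4 * y3))) * b3
    + ((A * B * D) * (x1 * (y2 - y4) - y1 * (x2 - x4) + (x2 * y4 - x4 * y2))) * c3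
    - ((A * B * C) * (x1 * (y2 - y3) - y1 * (x2 - x3) + (x2 * y3 - x3 * y2))) * d3

theorem zz_continuousAt {p : E} (hp2 : p 2 ≠ 1) : ContinuousAt zz p := by
  have hne : (1 - ((p 2 : ℝ) : ℂ)) ≠ 0 := by
    intro h
    apply hp2
    have h2 : ((p 2 : ℝ) : ℂ) = ((1 : ℝ) : ℂ) := by
      rw [Complex.ofReal_one]
      exact (sub_eq_zero.mp h).symm
    exact Complex.ofReal_injective h2
  have c1 : ContinuousAt (fun p : E => ((p 0 : ℝ) : ℂ) + ((p 1 : ℝ) : ℂ) * Complex.I) p := by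
    fun_prop
  have c2 : ContinuousAt (fun p : E => 1 - ((p 2 : ℝ) : ℂ)) p := by
    fun_prop
  exact ContinuousAt.div c1 c2 hne

end Pool.Agent.Berry
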